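import Pool.Agent.K7.H11.Surr.Cone

/-!
# A dent is filled by exactly one bump
-/

set_option autoImplicit false

namespace Pool.Agent.K7.H11.Surr

open Set Complex Filter Topology

theorem conj_mem_cone {s : ℝ} {z : ℂ} : (starRingEnd ℂ) z ∈ cone s ↔ z ∈ cone s := by
  rw [mem_cone, mem_cone]; simp

theorem dent_filled0 {ι κ : Type} (X : κ → Set ℂ) (k : ι → κ) (g : ι → ℂ ≃ᵢ ℂ)
    (hX : ∀ a, IsClosed (X a)) (cover : ∀ z, ∃ i, z ∈ g i '' X (k i))
    (disj : ∀ i j, i ≠ j → Disjoint (interior (g i '' X (k i))) (interior (g j '' X (k j))))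
    (lf : ∃ r > 0, {i | (g i '' X (k i) ∩ Metric.ball 0 r).Nonempty}.Finite)
    (B : κ → Set (ℝ × (ℂ ≃ᵢ ℂ)))
    (hB : ∀ a, ∀ q ∈ B a, BumpAt (X a) q.1 q.2 ∧ 1 / 2 ≤ q.1 ∧ q.1 ≤ 3 / 4)
    (hfat : ∀ a, ∀ z ∈ X a, Fat (X a) z ∨ ∃ q ∈ B a, q.2 0 = z)
    {i : ι} {s r : ℝ} (hs : 1 / 2 ≤ s) (hs' : s ≤ 3 / 4) (hr : 0 < r)
    (hd : ∀ z : ℂ, ‖z‖ < r → (z ∈ g i '' X (k i) ↔ z ∉ ocone s)) :
    ∃ j, ∃ q ∈ B (k j), j ≠ i ∧ q.1 = s ∧
      ((∀ z, g j (q.2 z) = z) ∨ (∀ z, g j (q.2 z) = (starRingEnd ℂ) z)) := by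
  have hs0 : 0 < s := by linarith
  have hcl : ∀ j, IsClosed (g j '' X (k j)) := fun j =>
    (g j).toHomeomorph.isClosedMap _ (hX _)
  -- all tiles at the origin
  have key : ∀ j, j ≠ i → (0 : ℂ) ∈ g j '' X (k j) → ∃ q ∈ B (k j), ∃ c : ℂ, ‖c‖ = 1 ∧
      ((∀ z, g j (q.2 z) = c * z) ∨ (∀ z, g j (q.2 z) = c * (starRingEnd ℂ) z)) ∧
      0 < c.re ∧ |c.im| * (1 + s * q.1) ≤ c.re * (s - q.1) := by
    intro j hj h0
    obtain ⟨z0, hz0, hz0'⟩ := h0
    rcases hfat _ z0 hz0 with hf | ⟨q, hq, hq0⟩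
    · exact (fat_contra hs0 (by linarith) hr (fun z hz hzo => (hd z hz).2 hzo) hz0' hf
        (disj i j hj.symm)).elim
    · obtain ⟨hb, hq1, hq2⟩ := hB _ q hq
      refine ⟨q, hq, ?_⟩
      have hb' : BumpAt (g j '' X (k j)) q.1 (q.2.trans (g j)) := by
        obtain ⟨r', hr', h⟩ := hb
        refine ⟨r', hr', fun z hz => ?_⟩
        rw [← h z hz]
        change g j (q.2 z) ∈ g j '' X (k j) ↔ _
        exact (g j).injective.mem_set_image
      exact bump_ineq hs0 (by linarith) hr (fun z hz hzo => (hd z hz).2 hzo)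
        (h := q.2.trans (g j)) (by change g j (q.2 0) = 0; rw [hq0, hz0']) hb' (disj i j hj.symm)
  have axis : ∀ j, j ≠ i → (0 : ℂ) ∈ g j '' X (k j) →
      ∃ ρ > 0, ∀ t : ℝ, 0 < t → t < ρ → (t : ℂ) ∈ interior (g j '' X (k j)) := by
    intro j hj h0
    obtain ⟨q, hq, c, hc, hc', hre, him⟩ := key j hj h0
    obtain ⟨⟨r', hr', hb⟩, hq1, hq2⟩ := hB _ q hq
    have hn : c.re ^ 2 + c.im ^ 2 = 1 := by
      have := Complex.sq_norm c
      rw [hc, Complex.normSq_apply] at this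
      linarith
    refine ⟨r', hr', fun t ht htr => ?_⟩
    have hop : IsOpen ((g j) '' (q.2 '' (ocone q.1 ∩ Metric.ball 0 r'))) :=
      (g j).toHomeomorph.isOpenMap _ (q.2.toHomeomorph.isOpenMap _
        ((isOpen_ocone q.1).inter Metric.isOpen_ball))
    have hsub : (g j) '' (q.2 '' (ocone q.1 ∩ Metric.ball 0 r')) ⊆ g j '' X (k j) := by
      apply image_mono
      rintro _ ⟨w, ⟨hw, hwr⟩, rfl⟩
      exact (hb w (by simpa using hwr)).2 (ocone_sub hw)
    apply interior_maximal hsub hop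
    have him' : |c.im| < q.1 * c.re := by
      have h1 : (0 : ℝ) ≤ |c.im| := abs_nonneg _
      have h2 : s - q.1 ≤ q.1 - 1 / 4 := by linarith
      have h4 : 0 ≤ |c.im| * (s * q.1) := by positivity
      have h3 : |c.im| ≤ c.re * (s - q.1) := by linarith
      nlinarith
    -- the preimage of t
    have hcc : c * (starRingEnd ℂ) c = 1 := by
      rw [Complex.mul_conj, Complex.normSq_eq_norm_sq, hc]; norm_num
    rcases hc' with h1 | h1
    · refine ⟨q.2 ((t : ℂ) * (starRingEnd ℂ) c), ⟨_, ⟨?_, ?_⟩, rfl⟩, ?_⟩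
      · rw [mem_ocone]
        have e1 : ((t : ℂ) * (starRingEnd ℂ) c).im = -(t * c.im) := by simp
        have e2 : ((t : ℂ) * (starRingEnd ℂ) c).re = t * c.re := by simp
        rw [e1, e2, abs_neg, abs_mul, abs_of_pos ht]
        nlinarith
      · rw [mem_ball_zero_iff, norm_mul, RCLike.norm_conj, hc, mul_one, Complex.norm_real,
          Real.norm_of_nonneg ht.le]
        exact htr
      · rw [h1]
        calc c * ((t : ℂ) * (starRingEnd ℂ) c) = (c * (starRingEnd ℂ) c) * t := by ring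
          _ = t := by rw [hcc, one_mul]
    · refine ⟨q.2 ((t : ℂ) * c), ⟨_, ⟨?_, ?_⟩, rfl⟩, ?_⟩
      · rw [mem_ocone]
        have e1 : ((t : ℂ) * c).im = t * c.im := by simp
        have e2 : ((t : ℂ) * c).re = t * c.re := by simp
        rw [e1, e2, abs_mul, abs_of_pos ht]
        nlinarith
      · rw [mem_ball_zero_iff, norm_mul, hc, mul_one, Complex.norm_real,
          Real.norm_of_nonneg ht.le]
        exact htr
      · rw [h1]
        calc c * (starRingEnd ℂ) ((t : ℂ) * c) = (c * (starRingEnd ℂ) c) * t := by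
              rw [map_mul, Complex.conj_ofReal]; ring
          _ = t := by rw [hcc, one_mul]
  -- near the origin every point of the open cone lies in a tile at the origin
  obtain ⟨r0, hr0, hJ⟩ := lf
  have hev : ∀ᶠ z in 𝓝 (0 : ℂ), ∀ j ∈ {i | (g i '' X (k i) ∩ Metric.ball 0 r0).Nonempty},
      (0 : ℂ) ∉ g j '' X (k j) → z ∉ g j '' X (k j) := by
    rw [eventually_all_finite hJ]
    intro j _
    by_cases h0 : (0 : ℂ) ∈ g j '' X (k j)
    · exact Eventually.of_forall fun z h => absurd h0 h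
    · filter_upwards [(hcl j).isOpen_compl.mem_nhds h0] with z hz _
      exact hz
  obtain ⟨ρ, hρ, hball⟩ := Metric.eventually_nhds_iff_ball.1 hev
  set R : ℝ := min ρ (min r r0) with hR
  have hRpos : 0 < R := lt_min hρ (lt_min hr hr0)
  have near : ∀ z : ℂ, ‖z‖ < R → z ∈ ocone s → ∃ j, j ≠ i ∧ (0 : ℂ) ∈ g j '' X (k j) ∧
      z ∈ g j '' X (k j) := by
    intro z hz hzo
    obtain ⟨j, hj⟩ := cover z
    have h1 : ‖z‖ < ρ := lt_of_lt_of_le hz (min_le_left _ _)
    have h2 : ‖z‖ < r := lt_of_lt_of_le hz ((min_le_right _ _).trans (min_le_left _ _))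
    have h3 : ‖z‖ < r0 := lt_of_lt_of_le hz ((min_le_right _ _).trans (min_le_right _ _))
    refine ⟨j, ?_, ?_, hj⟩
    · rintro rfl
      exact (hd z h2).1 hj hzo
    · by_contra h0
      exact hball z (by simpa using h1) j ⟨z, hj, by simpa using h3⟩ h0 hj
  -- uniqueness
  have hR2 : (((R / 2 : ℝ)) : ℂ) ∈ ocone s := by
    rw [mem_ocone]; simp; positivity
  obtain ⟨j0, hj0, h0j0, -⟩ := near (((R / 2 : ℝ)) : ℂ) (by
    rw [Complex.norm_real, Real.norm_of_nonneg (by positivity)]; linarith) hR2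
  have uniq : ∀ j, j ≠ i → (0 : ℂ) ∈ g j '' X (k j) → j = j0 := by
    intro j hj h0
    by_contra hne
    obtain ⟨ρ1, hρ1, h1⟩ := axis j hj h0
    obtain ⟨ρ2, hρ2, h2⟩ := axis j0 hj0 h0j0
    have hm : 0 < min ρ1 ρ2 := lt_min hρ1 hρ2
    exact disjoint_left.1 (disj j j0 hne)
      (h1 (min ρ1 ρ2 / 2) (by positivity) (by have := min_le_left ρ1 ρ2; linarith))
      (h2 (min ρ1 ρ2 / 2) (by positivity) (by have := min_le_right ρ1 ρ2; linarith))
  have hfull : ∀ z : ℂ, ‖z‖ < R → z ∈ ocone s → z ∈ g j0 '' X (k j0) := by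
    intro z hz hzo
    obtain ⟨j, hj, h0, hzj⟩ := near z hz hzo
    rw [uniq j hj h0] at hzj
    exact hzj
  obtain ⟨q, hq, c, hc, hc', hre, him⟩ := key j0 hj0 h0j0
  obtain ⟨⟨r', hr', hb⟩, hq1, hq2⟩ := hB _ q hq
  have hn : c.re ^ 2 + c.im ^ 2 = 1 := by
    have := Complex.sq_norm c
    rw [hc, Complex.normSq_apply] at this
    linarith
  have hcc : c * (starRingEnd ℂ) c = 1 := by
    rw [Complex.mul_conj, Complex.normSq_eq_norm_sq, hc]; norm_num
  have hmem : ∀ z : ℂ, ‖z‖ < r' → z ∈ g j0 '' X (k j0) → (starRingEnd ℂ) c * z ∈ cone q.1 := by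
    intro z hz hzT
    rcases hc' with h1 | h1
    · have e : g j0 (q.2 ((starRingEnd ℂ) c * z)) = z := by
        rw [h1, ← mul_assoc, hcc, one_mul]
      rw [← e] at hzT
      have h2 : q.2 ((starRingEnd ℂ) c * z) ∈ X (k j0) := (g j0).injective.mem_set_image.1 hzT
      exact (hb _ (by rw [norm_mul, RCLike.norm_conj, hc, one_mul]; exact hz)).1 h2
    · have e : g j0 (q.2 (c * (starRingEnd ℂ) z)) = z := by
        rw [h1, map_mul, Complex.conj_conj, ← mul_assoc, hcc, one_mul]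
      rw [← e] at hzT
      have h2 : q.2 (c * (starRingEnd ℂ) z) ∈ X (k j0) := (g j0).injective.mem_set_image.1 hzT
      have h3 := (hb _ (by rw [norm_mul, RCLike.norm_conj, hc, one_mul]; exact hz)).1 h2
      rw [← conj_mem_cone, map_mul, Complex.conj_conj] at h3
      exact h3
  have hcone : ∀ τ : ℝ, |τ| < s → (starRingEnd ℂ) c * (1 + (τ : ℝ) * I) ∈ cone q.1 := by
    intro τ hτ
    set M : ℝ := 1 + |τ| with hM
    have hMpos : 0 < M := by positivity
    set t : ℝ := min (R / (2 * M)) (r' / (2 * M)) with ht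
    have ht0 : 0 < t := lt_min (by positivity) (by positivity)
    have ht3 : t * M < R := by
      have : t ≤ R / (2 * M) := min_le_left _ _
      calc t * M ≤ R / (2 * M) * M := mul_le_mul_of_nonneg_right this hMpos.le
        _ = R / 2 := by field_simp
        _ < R := by linarith
    have ht4 : t * M < r' := by
      have : t ≤ r' / (2 * M) := min_le_right _ _
      calc t * M ≤ r' / (2 * M) * M := mul_le_mul_of_nonneg_right this hMpos.le
        _ = r' / 2 := by field_simp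
        _ < r' := by linarith
    have hnorm : ‖(t : ℂ) * (1 + (τ : ℝ) * I)‖ ≤ t * M := by
      rw [norm_mul, Complex.norm_real, Real.norm_of_nonneg ht0.le]
      apply mul_le_mul_of_nonneg_left _ ht0.le
      calc ‖(1 : ℂ) + (τ : ℝ) * I‖ ≤ ‖(1 : ℂ)‖ + ‖((τ : ℝ) : ℂ) * I‖ := norm_add_le _ _
        _ = M := by
            rw [norm_mul, Complex.norm_I, mul_one, Complex.norm_real, Real.norm_eq_abs, norm_one]
    have hoc : (t : ℂ) * (1 + (τ : ℝ) * I) ∈ ocone s := by
      have e1 : ((t : ℂ) * (1 + (τ : ℝ) * I)).im = t * τ := by simp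
      have e2 : ((t : ℂ) * (1 + (τ : ℝ) * I)).re = t := by simp
      rw [mem_ocone, e1, e2, abs_mul, abs_of_pos ht0, mul_comm s]
      exact mul_lt_mul_of_pos_left hτ ht0
    have h1 := hmem _ (lt_of_le_of_lt hnorm ht4) (hfull _ (lt_of_le_of_lt hnorm ht3) hoc)
    apply cone_scale ht0
    have e : (starRingEnd ℂ) c * ((t : ℂ) * (1 + (τ : ℝ) * I)) =
        (t : ℂ) * ((starRingEnd ℂ) c * (1 + (τ : ℝ) * I)) := by ring
    rw [e] at h1
    exact h1
  have hre' : ∀ τ : ℝ, ((starRingEnd ℂ) c * (1 + (τ : ℝ) * I)).re = c.re + τ * c.im := by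
    intro τ; simp; ring
  have him' : ∀ τ : ℝ, ((starRingEnd ℂ) c * (1 + (τ : ℝ) * I)).im = -c.im + τ * c.re := by
    intro τ; simp; ring
  have h1 := affine_closed (p := -c.im - q.1 * c.re) (q := c.re - q.1 * c.im) hs0 (fun τ hτ => by
    have := hcone τ hτ
    rw [mem_cone, hre', him', abs_le] at this
    linarith [this.2])
  have h2 := affine_closed (p := c.im - q.1 * c.re) (q := -c.re - q.1 * c.im) hs0 (fun τ hτ => by
    have := hcone τ hτ
    rw [mem_cone, hre', him', abs_le] at this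
    linarith [this.1])
  have hle : s ≤ q.1 := by
    have : s * c.re ≤ q.1 * c.re := by linarith [h1.1, h2.2]
    exact le_of_mul_le_mul_right this hre
  have hge : q.1 ≤ s := by
    have h3 : 0 ≤ |c.im| * (1 + s * q.1) := by positivity
    by_contra h4
    push Not at h4
    nlinarith
  have heq : q.1 = s := le_antisymm hge hle
  have hc0 : c.im = 0 := by
    rw [heq, sub_self, mul_zero] at him
    have h3 : |c.im| ≤ 0 := by
      have : 0 < 1 + s * s := by positivity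
      nlinarith [abs_nonneg c.im]
    exact abs_eq_zero.1 (le_antisymm h3 (abs_nonneg _))
  have hc1 : c = 1 := by
    apply Complex.ext
    · rw [hc0] at hn
      have : (c.re - 1) * (c.re + 1) = 0 := by ring_nf; linarith
      rcases mul_eq_zero.1 this with h3 | h3
      · simpa using (sub_eq_zero.1 h3)
      · linarith
    · simpa using hc0
  refine ⟨j0, q, hq, hj0, heq, ?_⟩
  rcases hc' with h3 | h3
  · left; intro z; rw [h3, hc1, one_mul]
  · right; intro z; rw [h3, hc1, one_mul]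

theorem dent_filled {ι κ : Type} (X : κ → Set ℂ) (k : ι → κ) (g : ι → ℂ ≃ᵢ ℂ)
    (hX : ∀ a, IsClosed (X a)) (cover : ∀ z, ∃ i, z ∈ g i '' X (k i))
    (disj : ∀ i j, i ≠ j → Disjoint (interior (g i '' X (k i))) (interior (g j '' X (k j))))
    (lf : ∀ p : ℂ, ∃ r > 0, {i | (g i '' X (k i) ∩ Metric.ball p r).Nonempty}.Finite)
    (B : κ → Set (ℝ × (ℂ ≃ᵢ ℂ)))
    (hB : ∀ a, ∀ q ∈ B a, BumpAt (X a) q.1 q.2 ∧ 1 / 2 ≤ q.1 ∧ q.1 ≤ 3 / 4)
    (hfat : ∀ a, ∀ z ∈ X a, Fat (X a) z ∨ ∃ q ∈ B a, q.2 0 = z)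
    {i : ι} {s : ℝ} (hs : 1 / 2 ≤ s) (hs' : s ≤ 3 / 4) {φ : ℂ ≃ᵢ ℂ}
    (hd : DentAt (g i '' X (k i)) s φ) :
    ∃ j, ∃ q ∈ B (k j), j ≠ i ∧ q.1 = s ∧
      ((∀ z, g j (q.2 z) = φ z) ∨ (∀ z, g j (q.2 z) = φ ((starRingEnd ℂ) z))) := by
  obtain ⟨r, hr, hd⟩ := hd
  have himg : ∀ j, ((g j).trans φ.symm) '' X (k j) = φ.symm '' (g j '' X (k j)) := by
    intro j
    rw [← image_comp]; rfl
  have hpre : ∀ j z, z ∈ ((g j).trans φ.symm) '' X (k j) ↔ φ z ∈ g j '' X (k j) := by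
    intro j z
    rw [himg]
    constructor
    · rintro ⟨w, hw, rfl⟩
      rwa [φ.apply_symm_apply]
    · intro h
      exact ⟨φ z, h, φ.symm_apply_apply z⟩
  have hint : ∀ j, interior (((g j).trans φ.symm) '' X (k j)) = φ.symm '' interior (g j '' X (k j)) := by
    intro j
    rw [himg]
    exact (φ.symm.toHomeomorph.image_interior _).symm
  obtain ⟨j, q, hq, hji, hqs, h⟩ := dent_filled0 X k (fun j => (g j).trans φ.symm) hX
    (fun z => by
      obtain ⟨j, hj⟩ := cover (φ z)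
      exact ⟨j, (hpre j z).2 hj⟩)
    (fun a b hab => by
      rw [hint, hint, disjoint_image_iff φ.symm.injective]
      exact disj a b hab)
    (by
      obtain ⟨ρ, hρ, hf⟩ := lf (φ 0)
      refine ⟨ρ, hρ, hf.subset ?_⟩
      rintro j ⟨z, hz, hzρ⟩
      refine ⟨φ z, (hpre j z).1 hz, ?_⟩
      rw [Metric.mem_ball, φ.dist_eq]
      exact hzρ)
    B hB hfat hs hs' hr (i := i) (fun z hz => by rw [hpre]; exact hd z hz)
  refine ⟨j, q, hq, hji, hqs, ?_⟩
  rcases h with h | h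
  · left
    intro z
    have := h z
    change φ.symm (g j (q.2 z)) = z at this
    rw [← this, φ.apply_symm_apply, this]
  · right
    intro z
    have := h z
    change φ.symm (g j (q.2 z)) = _ at this
    rw [← this, φ.apply_symm_apply]

end Pool.Agent.K7.H11.Surr
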