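import Pool.Agent.K7.H11.Surr.Feat
import Pool.Agent.K7.H11.Surr.Fill

/-!
# The three prototiles do not tile the plane
-/

set_option autoImplicit false

namespace Pool.Agent.K7.H11.Surr

open Set Complex

/-- A tiling of the plane by copies of the three prototiles. -/
structure Til (N : ℕ) where
  ι : Type
  k : ι → Kind
  g : ι → ℂ ≃ᵢ ℂ
  cover : ∀ z, ∃ i, z ∈ g i '' tile N (k i)
  disj : ∀ i j, i ≠ j → Disjoint (interior (g i '' tile N (k i))) (interior (g j '' tile N (k j)))

variable {N : ℕ}

/-- The tiles of a tiling. -/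
def Til.S (T : Til N) (i : T.ι) : Set ℂ := T.g i '' tile N (T.k i)

theorem Til.lf (T : Til N) (p : ℂ) :
    ∃ r > 0, {i | (T.g i '' tile N (T.k i) ∩ Metric.ball p r).Nonempty}.Finite := by
  refine ⟨1, one_pos, ?_⟩
  set D : ℝ := 16 * N + 40 with hD
  let c : T.ι → ℂ := fun i => T.g i (cent N (T.k i))
  have hball : ∀ i, Metric.ball (c i) (1 / 2) ⊆ interior (T.g i '' tile N (T.k i)) := by
    intro i
    apply interior_maximal _ Metric.isOpen_ball
    have : Metric.ball (c i) (1 / 2) = T.g i '' Metric.ball (cent N (T.k i)) (1 / 2) := by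
      rw [IsometryEquiv.image_ball]
    rw [this]
    exact image_mono (ball_tile N (T.k i))
  obtain ⟨t, -, htf, hts⟩ := (isCompact_closedBall p (D + 1)).finite_cover_balls (e := 1 / 2) (by norm_num)
  have hin : ∀ i ∈ {i | (T.g i '' tile N (T.k i) ∩ Metric.ball p 1).Nonempty},
      ∃ x ∈ t, c i ∈ Metric.ball x (1 / 2) := by
    rintro i ⟨z, ⟨w, hw, rfl⟩, hz⟩
    have h1 : dist (T.g i w) (c i) ≤ D := by
      change dist (T.g i w) (T.g i (cent N (T.k i))) ≤ D
      rw [(T.g i).dist_eq]
      exact tile_sub_ball N _ hw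
    have h2 : c i ∈ Metric.closedBall p (D + 1) := by
      rw [Metric.mem_closedBall]
      have h3 := dist_triangle (c i) (T.g i w) p
      rw [dist_comm (c i) (T.g i w)] at h3
      have h4 : dist (T.g i w) p < 1 := hz
      linarith
    have := hts h2
    simpa using this
  classical
  choose! f hf1 hf2 using hin
  apply Set.Finite.of_injOn (f := f) (t := t) (fun i hi => hf1 i hi) _ htf
  intro i hi j hj hij
  by_contra hne
  have h1 := hf2 i hi
  have h2 := hf2 j hj
  rw [hij] at h1
  rw [Metric.mem_ball] at h1 h2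
  have h3 : dist (c i) (c j) < 1 := by
    have := dist_triangle_right (c i) (c j) (f j)
    linarith
  -- midpoint
  have m1 : midpoint ℝ (c i) (c j) ∈ Metric.ball (c i) (1 / 2) := by
    rw [Metric.mem_ball, dist_midpoint_left]
    simp only [Real.norm_ofNat]
    linarith
  have m2 : midpoint ℝ (c i) (c j) ∈ Metric.ball (c j) (1 / 2) := by
    rw [Metric.mem_ball, dist_midpoint_right]
    simp only [Real.norm_ofNat]
    linarith
  exact disjoint_left.1 (T.disj i j hne) (hball i m1) (hball j m2)

theorem dent_image {X : Set ℂ} {s : ℝ} {φ g : ℂ ≃ᵢ ℂ} (h : DentAt X s φ) :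
    DentAt (g '' X) s (φ.trans g) := by
  obtain ⟨r, hr, h⟩ := h
  refine ⟨r, hr, fun z hz => ?_⟩
  rw [← h z hz]
  exact g.injective.mem_set_image

theorem Til.fill (T : Til N) {i : T.ι} {s : ℝ} (hs : 1 / 2 ≤ s) (hs' : s ≤ 3 / 4) {φ : ℂ ≃ᵢ ℂ}
    (hd : DentAt (T.S i) s φ) :
    ∃ j, ∃ q ∈ bumps N (T.k j), j ≠ i ∧ q.1 = s ∧
      ((∀ z, T.g j (q.2 z) = φ z) ∨ (∀ z, T.g j (q.2 z) = φ ((starRingEnd ℂ) z))) :=
  dent_filled (tile N) T.k T.g (tile_closed N) T.cover T.disj T.lf (bumps N) (bumps_ok N) (fat_or N)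
    hs hs' hd

theorem Til.no_overlap (T : Til N) {i j : T.ι} (hij : i ≠ j) {a b c d : ℝ} (hab : a < b) (hcd : c < d)
    (h1 : ∀ z : ℂ, a < z.re → z.re < b → c < z.im → z.im < d → z ∈ T.S i)
    (h2 : ∀ z : ℂ, a < z.re → z.re < b → c < z.im → z.im < d → z ∈ T.S j) : False := by
  have hop : IsOpen {z : ℂ | a < z.re ∧ z.re < b ∧ c < z.im ∧ z.im < d} := by
    have o1 : IsOpen {z : ℂ | a < z.re} := isOpen_lt (by fun_prop) (by fun_prop)
    have o2 : IsOpen {z : ℂ | z.re < b} := isOpen_lt (by fun_prop) (by fun_prop)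
    have o3 : IsOpen {z : ℂ | c < z.im} := isOpen_lt (by fun_prop) (by fun_prop)
    have o4 : IsOpen {z : ℂ | z.im < d} := isOpen_lt (by fun_prop) (by fun_prop)
    exact o1.inter (o2.inter (o3.inter o4))
  have hmem : (⟨(a + b) / 2, (c + d) / 2⟩ : ℂ) ∈ {z : ℂ | a < z.re ∧ z.re < b ∧ c < z.im ∧ z.im < d} := by
    refine ⟨?_, ?_, ?_, ?_⟩ <;> dsimp only <;> linarith
  apply disjoint_left.1 (T.disj i j hij)
  · exact interior_maximal (fun z hz => h1 z hz.1 hz.2.1 hz.2.2.1 hz.2.2.2) hop hmem
  · exact interior_maximal (fun z hz => h2 z hz.1 hz.2.1 hz.2.2.1 hz.2.2.2) hop hmem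

/-- There is a frame translated by the real number `a`. -/
def Til.FAt (T : Til N) (a : ℝ) : Prop := ∃ i, T.k i = Kind.F ∧ ∀ z, T.g i z = (a : ℂ) + z

/-- There is a bar translated by the real number `c` (possibly reflected). -/
def Til.MAt (T : Til N) (c : ℝ) : Prop := ∃ i, ∀ z : ℂ, z ∈ T.S i ↔ inM N (z.re - c) z.im

theorem Til.mem_of_FAt (T : Til N) {i : T.ι} {a : ℝ} (hk : T.k i = Kind.F)
    (hg : ∀ z, T.g i z = (a : ℂ) + z) (z : ℂ) (h : inF N (z.re - a) z.im) : z ∈ T.S i := by
  refine ⟨z - a, ?_, ?_⟩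
  · rw [hk]
    refine mem_F.2 ?_
    have e1 : (z - (a : ℂ)).re = z.re - a := by simp
    have e2 : (z - (a : ℂ)).im = z.im := by simp
    rw [e1, e2]; exact h
  · rw [hg]; ring

theorem Til.chain (T : Til N) {a : ℝ} (h : T.FAt a) : T.FAt (a + (8 * N + 8)) := by
  have hN : (0 : ℝ) ≤ N := Nat.cast_nonneg N
  obtain ⟨i, hk, hg⟩ := h
  have hd : DentAt (T.S i) (1 / 2) ((tr ((8 * N + 7 : ℝ) + 8 * I)).trans (T.g i)) := by
    unfold Til.S
    rw [hk]
    exact dent_image (dent_F8 N)
  obtain ⟨j, q, hq, hji, hqs, h⟩ := T.fill le_rfl (by norm_num) hd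
  have hkj : T.k j = Kind.F ∧ q.2 = tr (-1 + 8 * I) := by
    rcases hkj : T.k j with _ | _ | _
    · rw [hkj] at hq
      rcases mem_bF.1 hq with rfl | rfl | ⟨l, hl, rfl⟩
      · exact ⟨rfl, rfl⟩
      · norm_num at hqs
      · norm_num at hqs
    · rw [hkj] at hq
      rw [mem_bU.1 hq] at hqs
      norm_num at hqs
    · rw [hkj] at hq
      rcases mem_bM.1 hq with rfl | rfl <;> norm_num at hqs
  obtain ⟨hkj, hq2⟩ := hkj
  rw [hq2] at h
  rcases h with h | h
  · refine ⟨j, hkj, fun z => ?_⟩
    have := h (z - (-1 + 8 * I))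
    rw [tr_apply, add_sub_cancel] at this
    rw [this]
    change T.g i (tr _ _) = _
    rw [hg, tr_apply]
    push_cast
    ring
  · exfalso
    have hgj : ∀ z : ℂ, T.g j (⟨z.re - a - (8 * N + 8), 16 - z.im⟩ : ℂ) = z := by
      intro z
      have := h ((⟨z.re - a - (8 * N + 8), 16 - z.im⟩ : ℂ) - (-1 + 8 * I))
      rw [tr_apply, add_sub_cancel] at this
      rw [this]
      change T.g i (tr _ _) = _
      rw [hg, tr_apply]
      apply Complex.ext
      · simp; ring
      · simp; ring
    apply T.no_overlap hji.symm (a := a + (8 * N + 8) - 3 / 10) (b := a + (8 * N + 8) - 2 / 10)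
      (c := 10 - 1 / 20) (d := 10 + 1 / 20) (by linarith) (by norm_num)
    · intro z h1 h2 h3 h4
      apply T.mem_of_FAt hk hg
      left
      have e : lam z.im = 0 := lam_high (by linarith)
      rw [e]
      exact ⟨by linarith, by linarith, by linarith, by linarith⟩
    · intro z h1 h2 h3 h4
      refine ⟨_, ?_, hgj z⟩
      rw [hkj]
      refine mem_F.2 (Or.inl ?_)
      dsimp only
      have e : 1 - 4 / 3 * |(16 - z.im) - 6| ≤ tent 6 (4 / 3) (16 - z.im) := tent_ge
      rw [lam_6 (by linarith)]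
      have h5 : |(16 - z.im) - 6| ≤ 1 / 20 := by rw [abs_le]; constructor <;> linarith
      have h6 : tent 6 (4 / 3) (16 - z.im) ≤ 1 := tent_le_one (by norm_num)
      exact ⟨by linarith, by linarith, by linarith, by linarith⟩

theorem inM_neg {x y : ℝ} : inM N (-x) y ↔ inM N x y := by
  unfold inM; rw [abs_neg]

theorem Til.fill2 (T : Til N) {i : T.ι} {c : ℝ}
    (hd : DentAt (T.S i) (5 / 8) (tr ((c - 3 : ℝ) + 2 * I))) :
    ∃ j, T.k j ≠ Kind.F ∧
      ((T.k j = Kind.U ∧ ∀ z, T.g j z = ((c - 2 : ℝ) : ℂ) + z) ∨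
      (∀ z : ℂ, z ∈ T.S j ↔ inU (z.re - (c - 2)) (4 - z.im)) ∨
      (∀ z : ℂ, z ∈ T.S j ↔ inM N (z.re - c) z.im) ∨
      (∀ z : ℂ, z ∈ T.S j ↔ inM N (z.re - c) (4 - z.im))) := by
  obtain ⟨j, q, hq, hji, hqs, h⟩ := T.fill (by norm_num) (by norm_num) hd
  rcases hkj : T.k j with _ | _ | _
  · exfalso
    rw [hkj] at hq
    rcases mem_bF.1 hq with rfl | rfl | ⟨l, hl, rfl⟩ <;> norm_num at hqs
  · rw [hkj] at hq
    refine ⟨j, by rw [hkj]; decide, ?_⟩
    rw [mem_bU.1 hq] at h
    rcases h with h | h
    · left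
      refine ⟨hkj, fun z => ?_⟩
      have := h (z - (-1 + 2 * I))
      rw [tr_apply, add_sub_cancel] at this
      rw [this, tr_apply]
      push_cast
      ring
    · right; left
      intro z
      have hgj : ∀ z : ℂ, T.g j (⟨z.re - (c - 2), 4 - z.im⟩ : ℂ) = z := by
        intro z
        have := h ((⟨z.re - (c - 2), 4 - z.im⟩ : ℂ) - (-1 + 2 * I))
        rw [tr_apply, add_sub_cancel] at this
        rw [this, tr_apply]
        apply Complex.ext
        · simp; ring
        · simp; ring
      have e : T.S j = T.g j '' tile N Kind.U := by unfold Til.S; rw [hkj]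
      rw [e]
      conv_lhs => rw [← hgj z]
      rw [(T.g j).injective.mem_set_image]
      exact Iff.rfl
  · rw [hkj] at hq
    refine ⟨j, by rw [hkj]; decide, ?_⟩
    have e : T.S j = T.g j '' tile N Kind.M := by unfold Til.S; rw [hkj]
    rcases mem_bM.1 hq with rfl | rfl
    · rcases h with h | h
      · right; right; left
        intro z
        have hgj : ∀ z : ℂ, T.g j (⟨z.re - c, z.im⟩ : ℂ) = z := by
          intro z
          have := h ((⟨z.re - c, z.im⟩ : ℂ) - (-3 + 2 * I))
          dsimp only at this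
          rw [tr_apply, add_sub_cancel] at this
          rw [this, tr_apply]
          apply Complex.ext
          · simp
          · simp
        rw [e]
        conv_lhs => rw [← hgj z]
        rw [(T.g j).injective.mem_set_image]
        exact Iff.rfl
      · right; right; right
        intro z
        have hgj : ∀ z : ℂ, T.g j (⟨z.re - c, 4 - z.im⟩ : ℂ) = z := by
          intro z
          have := h ((⟨z.re - c, 4 - z.im⟩ : ℂ) - (-3 + 2 * I))
          dsimp only at this
          rw [tr_apply, add_sub_cancel] at this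
          rw [this, tr_apply]
          apply Complex.ext
          · simp
          · simp; ring
        rw [e]
        conv_lhs => rw [← hgj z]
        rw [(T.g j).injective.mem_set_image]
        exact Iff.rfl
    · rcases h with h | h
      · right; right; left
        intro z
        have hgj : ∀ z : ℂ, T.g j (⟨-(z.re - c), z.im⟩ : ℂ) = z := by
          intro z
          have := h (⟨z.re - (c - 3), z.im - 2⟩ : ℂ)
          dsimp only at this
          have e2 : refl (3 + 2 * I) (⟨z.re - (c - 3), z.im - 2⟩ : ℂ) = (⟨-(z.re - c), z.im⟩ : ℂ) := by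
            rw [refl_apply]
            apply Complex.ext
            · simp; ring
            · simp
          rw [e2] at this
          rw [this, tr_apply]
          apply Complex.ext
          · simp
          · simp
        rw [e]
        conv_lhs => rw [← hgj z]
        rw [(T.g j).injective.mem_set_image]
        exact inM_neg
      · right; right; right
        intro z
        have hgj : ∀ z : ℂ, T.g j (⟨-(z.re - c), 4 - z.im⟩ : ℂ) = z := by
          intro z
          have := h (⟨z.re - (c - 3), 2 - z.im⟩ : ℂ)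
          dsimp only at this
          have e2 : refl (3 + 2 * I) (⟨z.re - (c - 3), 2 - z.im⟩ : ℂ) =
              (⟨-(z.re - c), 4 - z.im⟩ : ℂ) := by
            rw [refl_apply]
            apply Complex.ext
            · simp; ring
            · simp; ring
          rw [e2] at this
          rw [this, tr_apply]
          apply Complex.ext
          · simp
          · simp
        rw [e]
        conv_lhs => rw [← hgj z]
        rw [(T.g j).injective.mem_set_image]
        exact inM_neg

theorem Til.step (T : Til N) {a : ℝ} (hF : T.FAt a) {l : ℕ} (hl : l ≤ 2 * N) {i : T.ι}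
    (hd : DentAt (T.S i) (5 / 8) (tr ((a + 1 + 4 * l : ℝ) + 2 * I))) :
    T.MAt (a + 4 + 4 * l) ∨
      ∃ j, DentAt (T.S j) (5 / 8) (tr ((a + 1 + 4 * (l + 1 : ℕ) : ℝ) + 2 * I)) := by
  obtain ⟨f, hfk, hfg⟩ := hF
  have hN : (0 : ℝ) ≤ N := Nat.cast_nonneg N
  have hl' : (l : ℝ) ≤ 2 * N := by exact_mod_cast hl
  have hl0 : (0 : ℝ) ≤ l := Nat.cast_nonneg l
  have e : (a + 1 + 4 * l : ℝ) = (a + 4 + 4 * l) - 3 := by ring
  rw [e] at hd
  obtain ⟨j, hkj, h | h | h | h⟩ := T.fill2 hd
  · right
    obtain ⟨hk, hg⟩ := h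
    refine ⟨j, ?_⟩
    have h1 : DentAt (T.S j) (5 / 8) ((tr (3 + 2 * I)).trans (T.g j)) := by
      unfold Til.S; rw [hk]; exact dent_image (dent_U2 N)
    have e2 : (tr (3 + 2 * I)).trans (T.g j) = tr ((a + 1 + 4 * (l + 1 : ℕ) : ℝ) + 2 * I) := by
      apply IsometryEquiv.ext
      intro z
      change T.g j (tr _ z) = _
      rw [hg, tr_apply, tr_apply]
      push_cast
      ring
    rwa [e2] at h1
  · exfalso
    have hne : f ≠ j := by rintro rfl; exact hkj hfk
    apply T.no_overlap hne (a := a + 4 + 4 * l - 1 / 10) (b := a + 4 + 4 * l + 1 / 10)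
      (c := 34 / 10) (d := 36 / 10) (by linarith) (by norm_num)
    · intro z h1 h2 h3 h4
      apply T.mem_of_FAt hfk hfg
      right; right; right
      refine ⟨by linarith, l, hl, ?_⟩
      rw [abs_le]; constructor <;> linarith
    · intro z h1 h2 h3 h4
      rw [h]
      refine ⟨by linarith, by linarith, ?_, ?_, ?_⟩
      · have := abs_nonneg (z.re - (a + 4 + 4 * l - 2) - 2); linarith
      · have := eps_nonneg (4 - z.im); linarith
      · have := eps_le_one (4 - z.im); linarith
  · left
    exact ⟨j, h⟩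
  · exfalso
    have hne : f ≠ j := by rintro rfl; exact hkj hfk
    apply T.no_overlap hne (a := a + 4 + 4 * l - 1 / 10) (b := a + 4 + 4 * l + 1 / 10)
      (c := 49 / 10) (d := 51 / 10) (by linarith) (by norm_num)
    · intro z h1 h2 h3 h4
      apply T.mem_of_FAt hfk hfg
      left
      have := lam_nonneg z.im
      have := lam_le_one z.im
      exact ⟨by linarith, by linarith, by linarith, by linarith⟩
    · intro z h1 h2 h3 h4
      rw [h]
      left
      refine ⟨by linarith, by linarith, ?_⟩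
      rw [abs_le]; constructor <;> linarith

theorem Til.last (T : Til N) {a : ℝ} (hF : T.FAt a) {i : T.ι}
    (hd : DentAt (T.S i) (5 / 8) (tr ((a + 1 + 4 * (2 * N + 1 : ℕ) : ℝ) + 2 * I))) : False := by
  obtain ⟨f, hfk, hfg⟩ := hF
  have hN : (0 : ℝ) ≤ N := Nat.cast_nonneg N
  have e : (a + 1 + 4 * (2 * N + 1 : ℕ) : ℝ) = (a + (8 * N + 8)) - 3 := by push_cast; ring
  rw [e] at hd
  obtain ⟨j, hkj, h⟩ := T.fill2 hd
  have hne : f ≠ j := by rintro rfl; exact hkj hfk
  apply T.no_overlap hne (a := a + (8 * N + 8) - 11 / 10) (b := a + (8 * N + 8) - 9 / 10)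
    (c := 4 / 10) (d := 6 / 10) (by linarith) (by norm_num)
  · intro z h1 h2 h3 h4
    apply T.mem_of_FAt hfk hfg
    right; right; left
    rw [eps_low (by linarith)]
    exact ⟨by linarith, by linarith, by linarith, by linarith⟩
  · intro z h1 h2 h3 h4
    have hb : 9 / 10 ≤ |z.re - (a + (8 * N + 8))| ∧ |z.re - (a + (8 * N + 8))| ≤ 11 / 10 := by
      rw [abs_of_nonpos (by linarith)]; constructor <;> linarith
    have hb2 : 9 / 10 ≤ |z.re - (a + (8 * N + 8) - 2) - 2| := by
      rw [abs_of_nonpos (by linarith)]; linarith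
    rcases h with h | h | h | h
    · obtain ⟨hk, hg⟩ := h
      refine ⟨z - ((a + (8 * N + 8) - 2 : ℝ) : ℂ), ?_, ?_⟩
      · rw [hk]
        refine mem_U.2 ?_
        have e1 : (z - ((a + (8 * N + 8) - 2 : ℝ) : ℂ)).re = z.re - (a + (8 * N + 8) - 2) := by
          rw [Complex.sub_re, Complex.ofReal_re]
        have e2 : (z - ((a + (8 * N + 8) - 2 : ℝ) : ℂ)).im = z.im := by
          rw [Complex.sub_im, Complex.ofReal_im, sub_zero]
        rw [e1, e2]
        refine ⟨by linarith, by linarith, by linarith, ?_, ?_⟩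
        · have := eps_nonneg z.im; linarith
        · have := eps_le_one z.im; linarith
      · rw [hg]; ring
    · rw [h]
      refine ⟨by linarith, by linarith, by linarith, ?_, ?_⟩
      · have := eps_nonneg (4 - z.im); linarith
      · have := eps_le_one (4 - z.im); linarith
    · rw [h]
      right
      have := eps_nonneg z.im
      exact ⟨by linarith, by linarith, by linarith, by linarith⟩
    · rw [h]
      right
      have := eps_nonneg (4 - z.im)
      exact ⟨by linarith, by linarith, by linarith, by linarith⟩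

theorem Til.notch (T : Til N) {a : ℝ} (hF : T.FAt a) : ∃ l : ℕ, l ≤ 2 * N ∧ T.MAt (a + 4 + 4 * l) := by
  by_contra hc
  push Not at hc
  have key : ∀ l : ℕ, l ≤ 2 * N + 1 →
      ∃ i, DentAt (T.S i) (5 / 8) (tr ((a + 1 + 4 * (l : ℕ) : ℝ) + 2 * I)) := by
    intro l
    induction l with
    | zero =>
      intro _
      obtain ⟨f, hfk, hfg⟩ := hF
      refine ⟨f, ?_⟩
      have h1 : DentAt (T.S f) (5 / 8) ((tr (1 + 2 * I)).trans (T.g f)) := by
        unfold Til.S; rw [hfk]; exact dent_image (dent_F2 N)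
      have e2 : (tr (1 + 2 * I)).trans (T.g f) = tr ((a + 1 + 4 * (0 : ℕ) : ℝ) + 2 * I) := by
        apply IsometryEquiv.ext
        intro z
        change T.g f (tr _ z) = _
        rw [hfg, tr_apply, tr_apply]
        push_cast
        ring
      rwa [e2] at h1
    | succ l ih =>
      intro hl
      obtain ⟨i, hi⟩ := ih (by omega)
      rcases T.step hF (by omega) hi with h | h
      · exact absurd h (hc l (by omega))
      · exact h
  obtain ⟨i, hi⟩ := key (2 * N + 1) le_rfl
  exact T.last hF hi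

/-- Move a tiling by an isometry. -/
noncomputable def Til.move (T : Til N) (h : ℂ ≃ᵢ ℂ) : Til N where
  ι := T.ι
  k := T.k
  g := fun i => (T.g i).trans h
  cover := by
    intro z
    obtain ⟨i, w, hw, hwz⟩ := T.cover (h.symm z)
    refine ⟨i, w, hw, ?_⟩
    change h (T.g i w) = z
    rw [hwz, h.apply_symm_apply]
  disj := by
    intro i j hij
    have e : ∀ i, interior (((T.g i).trans h) '' tile N (T.k i)) =
        h '' interior (T.g i '' tile N (T.k i)) := by
      intro i
      have : ((T.g i).trans h) '' tile N (T.k i) = h '' (T.g i '' tile N (T.k i)) := by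
        rw [← image_comp]; rfl
      rw [this]
      exact (h.toHomeomorph.image_interior _).symm
    rw [e, e, disjoint_image_iff h.injective]
    exact T.disj i j hij

theorem Til.exists_F (T : Til N) : ∃ i, T.k i = Kind.F := by
  obtain ⟨i, -⟩ := T.cover 0
  rcases hk : T.k i with _ | _ | _
  · exact ⟨i, hk⟩
  · have hd : DentAt (T.S i) (3 / 4) ((rotI (2 + 3 * I)).trans (T.g i)) := by
      unfold Til.S; rw [hk]; exact dent_image (dent_U3 N)
    obtain ⟨j, q, hq, -, hqs, -⟩ := T.fill (by norm_num) le_rfl hd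
    refine ⟨j, ?_⟩
    rcases hkj : T.k j with _ | _ | _
    · rfl
    · exfalso
      rw [hkj] at hq
      rw [mem_bU.1 hq] at hqs; norm_num at hqs
    · exfalso
      rw [hkj] at hq
      rcases mem_bM.1 hq with rfl | rfl <;> norm_num at hqs
  · have hd : DentAt (T.S i) (3 / 4) ((rotI (3 * I)).trans (T.g i)) := by
      unfold Til.S; rw [hk]; exact dent_image (dent_M3 N)
    obtain ⟨j, q, hq, -, hqs, -⟩ := T.fill (by norm_num) le_rfl hd
    refine ⟨j, ?_⟩
    rcases hkj : T.k j with _ | _ | _
    · rfl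
    · exfalso
      rw [hkj] at hq
      rw [mem_bU.1 hq] at hqs; norm_num at hqs
    · exfalso
      rw [hkj] at hq
      rcases mem_bM.1 hq with rfl | rfl <;> norm_num at hqs

/-- The three prototiles do not tile the plane. -/
theorem no_tiling (T : Til N) : False := by
  have hN : (0 : ℝ) ≤ N := Nat.cast_nonneg N
  obtain ⟨i, hi⟩ := T.exists_F
  set T' := T.move (T.g i).symm with hT'
  have h0 : T'.FAt 0 := by
    refine ⟨i, hi, fun z => ?_⟩
    change (T.g i).symm (T.g i z) = _
    rw [(T.g i).symm_apply_apply]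
    simp
  have hch : ∀ n : ℕ, T'.FAt (n * (8 * N + 8)) := by
    intro n
    induction n with
    | zero => simpa using h0
    | succ n ih =>
      have := T'.chain ih
      have e : ((n + 1 : ℕ) : ℝ) * (8 * N + 8) = n * (8 * N + 8) + (8 * N + 8) := by push_cast; ring
      rw [e]; exact this
  choose l hl hM using fun n : ℕ => T'.notch (hch n)
  have hstep : ∀ n, l n + 1 ≤ l (n + 1) := by
    intro n
    by_contra hc
    push Not at hc
    have hle : l (n + 1) ≤ l n := by omega
    obtain ⟨i, hi⟩ := hM n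
    obtain ⟨j, hj⟩ := hM (n + 1)
    set c : ℝ := n * (8 * N + 8) + 4 + 4 * (l n : ℕ) with hc'
    set c' : ℝ := ((n + 1 : ℕ) : ℝ) * (8 * N + 8) + 4 + 4 * (l (n + 1) : ℕ) with hc''
    have h1 : ((l n : ℕ) : ℝ) ≤ 2 * N := by exact_mod_cast hl n
    have h2 : ((l (n + 1) : ℕ) : ℝ) ≤ l n := by exact_mod_cast hle
    have h3 : (0 : ℝ) ≤ (l (n + 1) : ℕ) := Nat.cast_nonneg _
    have hcc : c' - c = (8 * N + 8) + 4 * (l (n + 1) : ℕ) - 4 * (l n : ℕ) := by
      rw [hc', hc'']; push_cast; ring
    have hpos : 0 < c' - c := by rw [hcc]; linarith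
    have hle' : c' - c ≤ 8 * N + 8 := by rw [hcc]; linarith
    have hne : i ≠ j := by
      rintro rfl
      have a1 := (hi ⟨c - (4 * N + 6), -2⟩).2 (by
        left; refine ⟨by norm_num, by norm_num, ?_⟩
        dsimp only
        rw [abs_of_nonpos (by linarith)]; linarith)
      rw [hj] at a1
      rcases a1 with ⟨-, -, a1⟩ | ⟨a1, -⟩
      · dsimp only at a1
        rw [abs_of_nonpos (by linarith)] at a1
        linarith
      · dsimp only at a1
        linarith
    apply T'.no_overlap hne (a := (c + c') / 2 - 1) (b := (c + c') / 2 + 1) (c := -3) (d := -1)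
      (by linarith) (by norm_num)
    · intro z h4 h5 h6 h7
      rw [hi]
      left
      refine ⟨by linarith, by linarith, ?_⟩
      rw [abs_le]; constructor <;> linarith
    · intro z h4 h5 h6 h7
      rw [hj]
      left
      refine ⟨by linarith, by linarith, ?_⟩
      rw [abs_le]; constructor <;> linarith
  have hgrow : ∀ n, n ≤ l n := by
    intro n
    induction n with
    | zero => omega
    | succ n ih =>
      have := hstep n
      omega
  have := hgrow (2 * N + 1)
  have := hl (2 * N + 1)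
  omega

end Pool.Agent.K7.H11.Surr
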