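import Pool.Agent.K7.H11.Surr.Union
import Pool.Agent.K7.H11.Surr.NoTile

/-!
# Chains of patches
-/

set_option autoImplicit false

namespace Pool.Agent.K7.H11.Surr

open Set Complex

/-- All prototiles are disks. -/
theorem disk_tile (N : ℕ) (a : Kind) : Nonempty (tile N a ≃ₜ Metric.closedBall (0 : ℂ) 1) := by
  cases a
  · exact (disk_F N).2
  · exact (disk_U N).2
  · exact (disk_M N).2

/-- The index of a piece of the given kind in the central cell. -/
def home (N : ℕ) : Kind → ℕ
  | Kind.F => 2 * N + 1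
  | Kind.U => 0
  | Kind.M => N

theorem home_le (N : ℕ) (a : Kind) : home N a ≤ 2 * N + 1 := by
  cases a <;> simp only [home] <;> omega

theorem kd_home {N : ℕ} (hN : 0 < N) (a : Kind) : kd N 0 (home N a) = a := by
  unfold kd
  cases a
  · simp [home]
  · simp only [home]
    rw [if_neg (by omega), if_neg (by omega)]
  · simp only [home]
    rw [if_neg (by omega), if_pos (by omega)]

/-- The sequence of patches, before transport. -/
def chain (N : ℕ) (a : Kind) (j : ℕ) : Set (Set ℂ) := if j = 0 then {pc N 0 0 (home N a)} else patch N j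

theorem home_mem (N : ℕ) (a : Kind) (j : ℕ) : pc N 0 0 (home N a) ∈ patch N j :=
  ⟨0, 0, home N a, ⟨by omega, by omega⟩, ⟨by omega, by omega⟩, home_le N a, rfl⟩

theorem chain_sub {N : ℕ} (a : Kind) (j : ℕ) : chain N a j ⊆ chain N a (j + 1) := by
  unfold chain
  rw [if_neg (by omega : ¬ j + 1 = 0)]
  split_ifs with h
  · rw [singleton_subset_iff]; exact home_mem N a _
  · rintro Q ⟨i, s, c, hi, hs, hc, rfl⟩
    exact ⟨i, s, c, ⟨by omega, by omega⟩, ⟨by omega, by omega⟩, hc, rfl⟩

theorem patch_zero_sub {N : ℕ} (a : Kind) : ⋃₀ chain N a 0 ⊆ KK N 0 := by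
  rw [← sUnion_patch (Nat.zero_le N)]
  unfold chain
  rw [if_pos rfl]
  apply sUnion_subset_sUnion
  rw [singleton_subset_iff]; exact home_mem N a _

theorem chain_int {N : ℕ} (a : Kind) {j : ℕ} (hj : j < N) :
    ⋃₀ chain N a j ⊆ interior (⋃₀ chain N a (j + 1)) := by
  have h1 : ⋃₀ chain N a (j + 1) = KK N (j + 1) := by
    unfold chain
    rw [if_neg (by omega : ¬ j + 1 = 0), sUnion_patch (by omega)]
  rw [h1]
  rcases Nat.eq_zero_or_pos j with h | h
  · subst h
    exact (patch_zero_sub a).trans (KK_interior (by omega))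
  · have h2 : ⋃₀ chain N a j = KK N j := by
      unfold chain
      rw [if_neg (by omega : ¬ j = 0), sUnion_patch (by omega)]
    rw [h2]
    exact KK_interior (by omega)

theorem chain_finite (N : ℕ) (a : Kind) (j : ℕ) : (chain N a j).Finite := by
  unfold chain
  split_ifs
  · exact finite_singleton _
  · exact patch_finite N j

theorem chain_piece {N : ℕ} {a : Kind} {j : ℕ} {Q : Set ℂ} (h : Q ∈ chain N a j) :
    ∃ (i s : ℤ) (c : ℕ), c ≤ 2 * N + 1 ∧ Q = pc N i s c := by
  unfold chain at h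
  split_ifs at h
  · exact ⟨0, 0, home N a, home_le N a, h⟩
  · obtain ⟨i, s, c, -, -, hc, rfl⟩ := h
    exact ⟨i, s, c, hc, rfl⟩

theorem chain_disj {N : ℕ} {a : Kind} {j : ℕ} {Q Q' : Set ℂ} (h : Q ∈ chain N a j) (h' : Q' ∈ chain N a j)
    (hne : Q ≠ Q') : Disjoint (interior Q) (interior Q') := by
  obtain ⟨i, s, c, hc, rfl⟩ := chain_piece h
  obtain ⟨i', s', c', hc', rfl⟩ := chain_piece h'
  apply pc_disj hc hc'
  rintro ⟨rfl, rfl, rfl⟩
  exact hne rfl

theorem chain_disk {N : ℕ} (hN : 0 < N) (a : Kind) {j : ℕ} (hj : j ≤ N) :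
    Nonempty ((⋃₀ chain N a j : Set ℂ) ≃ₜ Metric.closedBall (0 : ℂ) 1) := by
  by_cases h : j = 0
  · have e0 : chain N a j = {pc N 0 0 (home N a)} := if_pos h
    rw [e0, sUnion_singleton]
    obtain ⟨g, hg⟩ := pc_tile N 0 0 (home N a)
    rw [kd_home hN] at hg
    obtain ⟨e⟩ := disk_tile N a
    rw [hg]
    exact ⟨(g.toHomeomorph.image (tile N a)).symm.trans e⟩
  · have e0 : chain N a j = patch N j := if_neg h
    rw [e0, sUnion_patch hj]
    exact (disk_KK N j).2

/-- The kinds are different sets. -/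
theorem tile_ne (N : ℕ) {a b : Kind} (h : a ≠ b) : tile N a ≠ tile N b := by
  have hN : (0 : ℝ) ≤ N := Nat.cast_nonneg N
  have fF : (12 * I : ℂ) ∈ tile N Kind.F := by
    rw [mem_F]
    have e1 : (12 * I : ℂ).re = 0 := by simp
    have e2 : (12 * I : ℂ).im = 12 := by simp
    rw [e1, e2]
    left
    rw [lam_high (by norm_num)]
    exact ⟨by norm_num, le_rfl, by norm_num, by linarith⟩
  have fU : (12 * I : ℂ) ∉ tile N Kind.U := by
    rw [mem_U]
    rintro ⟨-, h2, -⟩
    have e2 : (12 * I : ℂ).im = 12 := by simp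
    rw [e2] at h2
    norm_num at h2
  have fM : (12 * I : ℂ) ∉ tile N Kind.M := by
    rw [mem_M]
    have e2 : (12 * I : ℂ).im = 12 := by simp
    rw [e2]
    rintro (⟨-, h2, -⟩ | ⟨-, h2, -⟩) <;> norm_num at h2
  have gM : (-4 * I : ℂ) ∈ tile N Kind.M := by
    rw [mem_M]
    have e1 : (-4 * I : ℂ).re = 0 := by simp
    have e2 : (-4 * I : ℂ).im = -4 := by simp
    rw [e1, e2]
    left
    refine ⟨le_rfl, by norm_num, ?_⟩
    rw [abs_zero]; linarith
  have gU : (-4 * I : ℂ) ∉ tile N Kind.U := by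
    rw [mem_U]
    rintro ⟨h1, -⟩
    have e2 : (-4 * I : ℂ).im = -4 := by simp
    rw [e2] at h1
    norm_num at h1
  cases a <;> cases b <;> try exact absurd rfl h
  · intro h'; rw [h'] at fF; exact fU fF
  · intro h'; rw [h'] at fF; exact fM fF
  · intro h'; rw [← h'] at fF; exact fU fF
  · intro h'; rw [← h'] at gM; exact gU gM
  · intro h'; rw [← h'] at fF; exact fM fF
  · intro h'; rw [h'] at gM; exact gU gM

end Pool.Agent.K7.H11.Surr
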