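import Mathlib

/-!
# Filling a dent of a tile

`cone s` is the closed cone `|y| ≤ s x`. A dent of a tile with half-slope `s` can only be filled by a
bump with the same half-slope `s`, placed exactly.
-/

set_option autoImplicit false

namespace Pool.Agent.K7.H11.Surr

open Set Complex

/-- The closed cone `|y| ≤ s x`. -/
def cone (s : ℝ) : Set ℂ := {z | |z.im| ≤ s * z.re}

/-- The open cone `|y| < s x`. -/
def ocone (s : ℝ) : Set ℂ := {z | |z.im| < s * z.re}

/-- `X` contains a nondegenerate axis parallel rectangle with corner `z`. -/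
def Fat (X : Set ℂ) (z : ℂ) : Prop :=
  ∃ x y : ℝ, x ≠ z.re ∧ y ≠ z.im ∧ ∀ w : ℂ, w.re ∈ uIcc z.re x → w.im ∈ uIcc z.im y → w ∈ X

/-- In the frame `ψ`, the set `X` is near `0` the closed cone. -/
def BumpAt (X : Set ℂ) (s : ℝ) (ψ : ℂ ≃ᵢ ℂ) : Prop :=
  ∃ r > 0, ∀ z : ℂ, ‖z‖ < r → (ψ z ∈ X ↔ z ∈ cone s)

/-- In the frame `φ`, the set `X` is near `0` the complement of the open cone. -/
def DentAt (X : Set ℂ) (s : ℝ) (φ : ℂ ≃ᵢ ℂ) : Prop :=
  ∃ r > 0, ∀ z : ℂ, ‖z‖ < r → (φ z ∈ X ↔ z ∉ ocone s)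

theorem mem_cone {s : ℝ} {z : ℂ} : z ∈ cone s ↔ |z.im| ≤ s * z.re := Iff.rfl
theorem mem_ocone {s : ℝ} {z : ℂ} : z ∈ ocone s ↔ |z.im| < s * z.re := Iff.rfl
theorem ocone_sub {s : ℝ} {z : ℂ} (h : z ∈ ocone s) : z ∈ cone s := by
  rw [mem_ocone] at h; rw [mem_cone]; exact h.le

theorem isOpen_ocone (s : ℝ) : IsOpen (ocone s) :=
  isOpen_lt (by fun_prop) (by fun_prop)

theorem isClosed_cone (s : ℝ) : IsClosed (cone s) :=
  isClosed_le (by fun_prop) (by fun_prop)

theorem iso_fix (h : ℂ ≃ᵢ ℂ) (h0 : h 0 = 0) :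
    ∃ c : ℂ, ‖c‖ = 1 ∧ ((∀ z, h z = c * z) ∨ (∀ z, h z = c * (starRingEnd ℂ) z)) := by
  have e := linear_isometry_complex (h.toRealLinearIsometryEquivOfMapZero h0)
  obtain ⟨a, ha | ha⟩ := e
  · refine ⟨a, by simp, Or.inl fun z => ?_⟩
    have h1 := congrArg (fun f : ℂ ≃ₗᵢ[ℝ] ℂ => f z) ha
    simpa using h1
  · refine ⟨a, by simp, Or.inr fun z => ?_⟩
    have h1 := congrArg (fun f : ℂ ≃ₗᵢ[ℝ] ℂ => f z) ha
    simpa using h1

theorem affine_pos {p q : ℝ} (h : ∀ β : ℝ, 0 < β → p + β * q ≤ 0) : p ≤ 0 ∧ q ≤ 0 := by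
  constructor
  · by_contra hp
    push Not at hp
    have hq : 0 < 2 * (|q| + 1) := by positivity
    have h1 := h (p / (2 * (|q| + 1))) (by positivity)
    have h2 : -|q| ≤ q := neg_abs_le q
    have h3 : p / (2 * (|q| + 1)) * q ≥ -(p / 2) := by
      have h4 : p / (2 * (|q| + 1)) * (-|q|) ≤ p / (2 * (|q| + 1)) * q :=
        mul_le_mul_of_nonneg_left h2 (by positivity)
      have h5 : p / (2 * (|q| + 1)) * (-|q|) ≥ -(p / 2) := by
        rw [ge_iff_le, div_mul_eq_mul_div, le_div_iff₀ hq]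
        nlinarith [abs_nonneg q]
      linarith
    linarith
  · by_contra hq
    push Not at hq
    have h1 := h ((|p| + 1) / q) (by positivity)
    rw [div_mul_cancel₀ _ hq.ne'] at h1
    have := neg_abs_le p
    linarith

theorem affine_closed {p q s : ℝ} (hs : 0 < s) (h : ∀ τ : ℝ, |τ| < s → p + τ * q ≤ 0) :
    p + s * q ≤ 0 ∧ p + (-s) * q ≤ 0 := by
  have key : ∀ q' : ℝ, (∀ τ : ℝ, |τ| < s → p + τ * q' ≤ 0) → p + s * q' ≤ 0 := by
    intro q' h'
    by_contra hc
    push Not at hc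
    have h0 := h' 0 (by simpa using hs)
    have hq : 0 < q' := by
      by_contra hq
      push Not at hq
      nlinarith
    have h1 : 0 < min s ((p + s * q') / (2 * q')) := lt_min hs (by positivity)
    have h2 : min s ((p + s * q') / (2 * q')) ≤ s := min_le_left _ _
    have h3 : min s ((p + s * q') / (2 * q')) * q' ≤ (p + s * q') / 2 := by
      have := min_le_right s ((p + s * q') / (2 * q'))
      calc _ ≤ (p + s * q') / (2 * q') * q' := mul_le_mul_of_nonneg_right this hq.le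
        _ = (p + s * q') / 2 := by field_simp
    have h4 := h' (s - min s ((p + s * q') / (2 * q'))) (by
      rw [abs_lt]; constructor <;> linarith)
    nlinarith
  refine ⟨key q h, ?_⟩
  have := key (-q) (fun τ hτ => by
    have := h (-τ) (by simpa using hτ)
    linarith)
  linarith

/-- A point of the interior of a tile close to a dent of another tile lies in the closed cone. -/
theorem in_cone {T0 T : Set ℂ} {s r : ℝ} (hT0 : ∀ z, ‖z‖ < r → z ∉ ocone s → z ∈ T0)
    (hdisj : Disjoint (interior T0) (interior T)) {z : ℂ} (hz : ‖z‖ < r) (hzT : z ∈ interior T) :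
    z ∈ cone s := by
  by_contra hc
  apply disjoint_left.1 hdisj _ hzT
  rw [mem_interior]
  refine ⟨(cone s)ᶜ ∩ Metric.ball 0 r, ?_, (isClosed_cone s).isOpen_compl.inter Metric.isOpen_ball,
    hc, by simpa using hz⟩
  rintro w ⟨hw, hwr⟩
  apply hT0 w (by simpa using hwr)
  intro h
  exact hw (ocone_sub h)

theorem cone_scale {s t : ℝ} (ht : 0 < t) {z : ℂ} (h : (t : ℂ) * z ∈ cone s) : z ∈ cone s := by
  have h1 : |t * z.im| ≤ s * (t * z.re) := by simpa [cone] using h
  rw [abs_mul, abs_of_pos ht] at h1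
  change |z.im| ≤ s * z.re
  have h2 : t * |z.im| ≤ t * (s * z.re) := by linarith
  exact le_of_mul_le_mul_left h2 ht

theorem fat_contra {T0 : Set ℂ} {s r : ℝ} (hs : 0 < s) (hs1 : s < 1) (hr : 0 < r)
    (hT0 : ∀ z, ‖z‖ < r → z ∉ ocone s → z ∈ T0) {X : Set ℂ} {g : ℂ ≃ᵢ ℂ} {z0 : ℂ} (hz0 : g z0 = 0)
    (hfat : Fat X z0) (hdisj : Disjoint (interior T0) (interior (g '' X))) : False := by
  obtain ⟨x, y, hx, hy, hsub⟩ := hfat
  set a : ℝ := x - z0.re with ha
  set b : ℝ := y - z0.im with hb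
  have ha0 : a ≠ 0 := sub_ne_zero.2 hx
  have hb0 : b ≠ 0 := sub_ne_zero.2 hy
  -- the interior of the rectangle
  have hint : ∀ α β : ℝ, 0 < α → α < 1 → 0 < β → β < 1 →
      z0 + (α * a : ℝ) + (β * b : ℝ) * I ∈ interior X := by
    intro α β h1 h2 h3 h4
    rw [mem_interior]
    have hopen : IsOpen {w : ℂ | 0 < (w.re - z0.re) / a ∧ (w.re - z0.re) / a < 1 ∧
        0 < (w.im - z0.im) / b ∧ (w.im - z0.im) / b < 1} := by
      have o1 : IsOpen {w : ℂ | 0 < (w.re - z0.re) / a} := isOpen_lt (by fun_prop) (by fun_prop)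
      have o2 : IsOpen {w : ℂ | (w.re - z0.re) / a < 1} := isOpen_lt (by fun_prop) (by fun_prop)
      have o3 : IsOpen {w : ℂ | 0 < (w.im - z0.im) / b} := isOpen_lt (by fun_prop) (by fun_prop)
      have o4 : IsOpen {w : ℂ | (w.im - z0.im) / b < 1} := isOpen_lt (by fun_prop) (by fun_prop)
      exact o1.inter (o2.inter (o3.inter o4))
    refine ⟨_, ?_, hopen, ?_⟩
    · rintro w ⟨g1, g2, g3, g4⟩
      apply hsub
      · have e : w.re = z0.re + (w.re - z0.re) / a * a := by field_simp; ring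
        have ex : x = z0.re + a := by rw [ha]; ring
        rw [ex, e]
        rw [mem_uIcc]
        rcases lt_or_gt_of_ne ha0 with h | h
        · right; constructor <;> nlinarith
        · left; constructor <;> nlinarith
      · have e : w.im = z0.im + (w.im - z0.im) / b * b := by field_simp; ring
        have ey : y = z0.im + b := by rw [hb]; ring
        rw [ey, e]
        rw [mem_uIcc]
        rcases lt_or_gt_of_ne hb0 with h | h
        · right; constructor <;> nlinarith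
        · left; constructor <;> nlinarith
    · have e1 : (z0 + (α * a : ℝ) + (β * b : ℝ) * I).re - z0.re = α * a := by simp
      have e2 : (z0 + (α * a : ℝ) + (β * b : ℝ) * I).im - z0.im = β * b := by simp
      rw [mem_ofPred_eq, e1, e2, mul_div_cancel_right₀ _ ha0, mul_div_cancel_right₀ _ hb0]
      exact ⟨h1, h2, h3, h4⟩
  let h : ℂ ≃ᵢ ℂ := (IsometryEquiv.addLeft z0).trans g
  have hh0 : h 0 = 0 := by change g (z0 + 0) = 0; rw [add_zero, hz0]
  have hhz : ∀ z, h z = g (z0 + z) := fun z => rfl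
  obtain ⟨c, hc, hc'⟩ := iso_fix h hh0
  have hk : ∃ σ : ℝ, (σ = 1 ∨ σ = -1) ∧ ∀ u v : ℝ, h (u + v * I) = c * (u + (σ * v : ℝ) * I) := by
    rcases hc' with h1 | h1
    · exact ⟨1, Or.inl rfl, fun u v => by rw [h1]; simp⟩
    · exact ⟨-1, Or.inr rfl, fun u v => by rw [h1]; simp⟩
  obtain ⟨σ, hσ, hk⟩ := hk
  have hσ2 : σ * σ = 1 := by rcases hσ with rfl | rfl <;> norm_num
  have hcone : ∀ β : ℝ, 0 < β → c * (a + (σ * (β * b) : ℝ) * I) ∈ cone s := by
    intro β hβ
    -- small scaling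
    set M : ℝ := |a| + β * |b| with hM
    have hMpos : 0 < M := by positivity
    set t : ℝ := min (1 / 2) (min (1 / (2 * β)) (r / (2 * M))) with ht
    have ht0 : 0 < t := lt_min (by norm_num) (lt_min (by positivity) (by positivity))
    have ht1 : t < 1 := lt_of_le_of_lt (min_le_left _ _) (by norm_num)
    have ht2 : t * β < 1 := by
      have : t ≤ 1 / (2 * β) := (min_le_right _ _).trans (min_le_left _ _)
      calc t * β ≤ 1 / (2 * β) * β := mul_le_mul_of_nonneg_right this hβ.le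
        _ = 1 / 2 := by field_simp
        _ < 1 := by norm_num
    have ht3 : t * M < r := by
      have : t ≤ r / (2 * M) := (min_le_right _ _).trans (min_le_right _ _)
      calc t * M ≤ r / (2 * M) * M := mul_le_mul_of_nonneg_right this hMpos.le
        _ = r / 2 := by field_simp
        _ < r := by linarith
    have hi := hint t (t * β) ht0 ht1 (by positivity) ht2
    have hg : g (z0 + (t * a : ℝ) + (t * β * b : ℝ) * I) = (t : ℂ) * (c * (a + (σ * (β * b) : ℝ) * I)) := by
      have := hk (t * a) (t * β * b)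
      rw [hhz, ← add_assoc] at this
      rw [this]
      push_cast
      ring
    have hgi : (t : ℂ) * (c * (a + (σ * (β * b) : ℝ) * I)) ∈ interior (g '' X) := by
      rw [← hg]
      have := g.toHomeomorph.image_interior X
      change g '' interior X = interior (g '' X) at this
      rw [← this]
      exact mem_image_of_mem _ hi
    apply cone_scale ht0
    apply in_cone hT0 hdisj _ hgi
    rw [norm_mul, norm_mul, hc, one_mul, Complex.norm_real, Real.norm_of_nonneg ht0.le]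
    have hn : ‖(a : ℂ) + (σ * (β * b) : ℝ) * I‖ ≤ M := by
      calc ‖(a : ℂ) + (σ * (β * b) : ℝ) * I‖ ≤ ‖(a : ℂ)‖ + ‖((σ * (β * b) : ℝ) : ℂ) * I‖ := norm_add_le _ _
        _ = |a| + |σ * (β * b)| := by
            rw [norm_mul, Complex.norm_I, mul_one, Complex.norm_real, Complex.norm_real, Real.norm_eq_abs,
              Real.norm_eq_abs]
        _ = M := by
            rw [hM, abs_mul, abs_mul, abs_of_pos hβ]
            rcases hσ with rfl | rfl <;> simp
    calc t * ‖(a : ℂ) + (σ * (β * b) : ℝ) * I‖ ≤ t * M := mul_le_mul_of_nonneg_left hn ht0.le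
      _ < r := ht3
  have hre : ∀ β : ℝ, (c * (a + (σ * (β * b) : ℝ) * I)).re = c.re * a - β * (c.im * (σ * b)) := by
    intro β; simp; ring
  have him : ∀ β : ℝ, (c * (a + (σ * (β * b) : ℝ) * I)).im = c.im * a + β * (c.re * (σ * b)) := by
    intro β; simp; ring
  have h1 := affine_pos (p := c.im * a - s * (c.re * a)) (q := c.re * (σ * b) + s * (c.im * (σ * b)))
    (fun β hβ => by
      have := hcone β hβ
      rw [cone, mem_ofPred_eq, hre, him, abs_le] at this
      linarith [this.2])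
  have h2 := affine_pos (p := -(c.im * a) - s * (c.re * a)) (q := -(c.re * (σ * b)) + s * (c.im * (σ * b)))
    (fun β hβ => by
      have := hcone β hβ
      rw [cone, mem_ofPred_eq, hre, him, abs_le] at this
      linarith [this.1])
  have hn : c.re ^ 2 + c.im ^ 2 = 1 := by
    have := Complex.sq_norm c
    rw [hc, Complex.normSq_apply] at this
    linarith
  -- |c.im a| ≤ s c.re a, |c.re σ b| ≤ - s c.im σ b
  obtain ⟨p1, q1⟩ := h1
  obtain ⟨p2, q2⟩ := h2
  have ha2 : 0 < a ^ 2 := by positivity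
  have hb2 : 0 < b ^ 2 := by positivity
  have e1 : (c.im * a) ^ 2 ≤ (s * (c.re * a)) ^ 2 := by
    apply sq_le_sq'
    · linarith
    · linarith
  have e2 : (c.re * (σ * b)) ^ 2 ≤ (s * (c.im * (σ * b))) ^ 2 := by
    rw [← neg_sq (s * _)]
    apply sq_le_sq'
    · linarith
    · linarith
  have e3 : c.im ^ 2 ≤ s ^ 2 * c.re ^ 2 := by
    have : a ^ 2 * c.im ^ 2 ≤ a ^ 2 * (s ^ 2 * c.re ^ 2) := by linarith
    exact le_of_mul_le_mul_left this ha2
  have e4 : c.re ^ 2 ≤ s ^ 2 * c.im ^ 2 := by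
    have h3 : (σ * b) ^ 2 = b ^ 2 := by rw [mul_pow, sq σ, hσ2, one_mul]
    have : b ^ 2 * c.re ^ 2 ≤ b ^ 2 * (s ^ 2 * c.im ^ 2) := by
      have e5 : (c.re * (σ * b)) ^ 2 = b ^ 2 * c.re ^ 2 := by rw [mul_pow, h3]; ring
      have e6 : (s * (c.im * (σ * b))) ^ 2 = b ^ 2 * (s ^ 2 * c.im ^ 2) := by
        rw [mul_pow, mul_pow, h3]; ring
      rw [e5, e6] at e2; exact e2
    exact le_of_mul_le_mul_left this hb2
  have hs2 : s ^ 2 < 1 := by nlinarith
  nlinarith [sq_nonneg c.re, sq_nonneg c.im]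

theorem bump_ineq {T0 : Set ℂ} {s s' r : ℝ} (hs : 0 < s) (hs' : 0 < s') (hr : 0 < r)
    (hT0 : ∀ z, ‖z‖ < r → z ∉ ocone s → z ∈ T0) {T : Set ℂ} {h : ℂ ≃ᵢ ℂ} (h0 : h 0 = 0)
    (hb : BumpAt T s' h) (hdisj : Disjoint (interior T0) (interior T)) :
    ∃ c : ℂ, ‖c‖ = 1 ∧ ((∀ z, h z = c * z) ∨ (∀ z, h z = c * (starRingEnd ℂ) z)) ∧
      0 < c.re ∧ |c.im| * (1 + s * s') ≤ c.re * (s - s') := by
  obtain ⟨r', hr', hb⟩ := hb
  obtain ⟨c, hc, hc'⟩ := iso_fix h h0
  refine ⟨c, hc, hc', ?_⟩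
  have hn : c.re ^ 2 + c.im ^ 2 = 1 := by
    have := Complex.sq_norm c
    rw [hc, Complex.normSq_apply] at this
    linarith
  have hcone : ∀ τ : ℝ, |τ| < s' → c * (1 + (τ : ℝ) * I) ∈ cone s := by
    intro τ hτ
    -- h (t (1 ± i τ)) is in the interior
    set M : ℝ := 1 + |τ| with hM
    have hMpos : 0 < M := by positivity
    set t : ℝ := min (r / (2 * M)) (r' / (2 * M)) with ht
    have ht0 : 0 < t := lt_min (by positivity) (by positivity)
    have ht3 : t * M < r := by
      have : t ≤ r / (2 * M) := min_le_left _ _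
      calc t * M ≤ r / (2 * M) * M := mul_le_mul_of_nonneg_right this hMpos.le
        _ = r / 2 := by field_simp
        _ < r := by linarith
    have ht4 : t * M < r' := by
      have : t ≤ r' / (2 * M) := min_le_right _ _
      calc t * M ≤ r' / (2 * M) * M := mul_le_mul_of_nonneg_right this hMpos.le
        _ = r' / 2 := by field_simp
        _ < r' := by linarith
    have hint : ∀ z ∈ ocone s', ‖z‖ < r' → h z ∈ interior T := by
      intro z hz hzr
      have hsub : h '' (ocone s' ∩ Metric.ball 0 r') ⊆ T := by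
        rintro _ ⟨w, ⟨hw, hwr⟩, rfl⟩
        exact (hb w (by simpa using hwr)).2 (ocone_sub hw)
      have hop : IsOpen (h '' (ocone s' ∩ Metric.ball 0 r')) :=
        h.toHomeomorph.isOpenMap _ ((isOpen_ocone s').inter Metric.isOpen_ball)
      exact (interior_maximal hsub hop) ⟨z, ⟨hz, by simpa using hzr⟩, rfl⟩
    have hnorm : ∀ τ' : ℝ, |τ'| = |τ| → ‖(t : ℂ) * (1 + (τ' : ℝ) * I)‖ ≤ t * M := by
      intro τ' hτ'
      rw [norm_mul, Complex.norm_real, Real.norm_of_nonneg ht0.le]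
      apply mul_le_mul_of_nonneg_left _ ht0.le
      calc ‖(1 : ℂ) + (τ' : ℝ) * I‖ ≤ ‖(1 : ℂ)‖ + ‖((τ' : ℝ) : ℂ) * I‖ := norm_add_le _ _
        _ = M := by
            rw [norm_mul, Complex.norm_I, mul_one, Complex.norm_real, Real.norm_eq_abs, norm_one, hτ']
    have hoc : ∀ τ' : ℝ, |τ'| = |τ| → (t : ℂ) * (1 + (τ' : ℝ) * I) ∈ ocone s' := by
      intro τ' hτ'
      have e1 : ((t : ℂ) * (1 + (τ' : ℝ) * I)).im = t * τ' := by simp
      have e2 : ((t : ℂ) * (1 + (τ' : ℝ) * I)).re = t := by simp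
      rw [ocone, mem_ofPred_eq, e1, e2, abs_mul, abs_of_pos ht0, hτ', mul_comm s']
      exact mul_lt_mul_of_pos_left hτ ht0
    apply cone_scale ht0
    rcases hc' with h1 | h1
    · have h2 := hint _ (hoc τ rfl) (lt_of_le_of_lt (hnorm τ rfl) ht4)
      rw [h1] at h2
      have e : c * ((t : ℂ) * (1 + (τ : ℝ) * I)) = (t : ℂ) * (c * (1 + (τ : ℝ) * I)) := by ring
      rw [e] at h2
      apply in_cone hT0 hdisj _ h2
      rw [← e, norm_mul, hc, one_mul]
      exact lt_of_le_of_lt (hnorm τ rfl) ht3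
    · have h2 := hint _ (hoc (-τ) (abs_neg τ)) (lt_of_le_of_lt (hnorm (-τ) (abs_neg τ)) ht4)
      rw [h1] at h2
      have e : c * (starRingEnd ℂ) ((t : ℂ) * (1 + ((-τ : ℝ) : ℂ) * I)) = (t : ℂ) * (c * (1 + (τ : ℝ) * I)) := by
        simp; ring
      rw [e] at h2
      apply in_cone hT0 hdisj _ h2
      rw [← e, norm_mul, hc, one_mul, RCLike.norm_conj]
      exact lt_of_le_of_lt (hnorm (-τ) (abs_neg τ)) ht3
  have hre : ∀ τ : ℝ, (c * (1 + (τ : ℝ) * I)).re = c.re - τ * c.im := by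
    intro τ; simp; ring
  have him : ∀ τ : ℝ, (c * (1 + (τ : ℝ) * I)).im = c.im + τ * c.re := by
    intro τ; simp; ring
  have h1 := affine_closed (p := c.im - s * c.re) (q := c.re + s * c.im) hs' (fun τ hτ => by
    have := hcone τ hτ
    rw [cone, mem_ofPred_eq, hre, him, abs_le] at this
    linarith [this.2])
  have h2 := affine_closed (p := -c.im - s * c.re) (q := -c.re + s * c.im) hs' (fun τ hτ => by
    have := hcone τ hτ
    rw [cone, mem_ofPred_eq, hre, him, abs_le] at this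
    linarith [this.1])
  have a1 : c.im * (1 + s * s') ≤ c.re * (s - s') := by linarith [h1.1]
  have a2 : -c.im * (1 + s * s') ≤ c.re * (s - s') := by linarith [h2.2]
  have a0 : |c.im| ≤ s * c.re := by
    have := hcone 0 (by simpa using hs')
    simpa [cone] using this
  have hpos : 0 < c.re := by
    have h3 : 0 ≤ c.re := by
      have := abs_nonneg c.im
      nlinarith
    rcases h3.lt_or_eq with h4 | h4
    · exact h4
    · exfalso
      rw [← h4, mul_zero] at a0
      have : c.im = 0 := abs_eq_zero.1 (le_antisymm a0 (abs_nonneg _))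
      rw [← h4, this] at hn
      norm_num at hn
  refine ⟨hpos, ?_⟩
  rcases abs_cases c.im with ⟨h3, -⟩ | ⟨h3, -⟩ <;> rw [h3] <;> assumption

end Pool.Agent.K7.H11.Surr
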