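import Pool.Agent.K7.H11.Surr.Tiles
import Pool.Agent.R175.Disk

/-!
# The prototiles are closed topological disks
-/

set_option autoImplicit false

namespace Pool.Agent.K7.H11.Surr

open Set Complex Pool.Agent.R175.Disk

/-- The image of a disk under a continuous injective map, with explicit inverse. -/
theorem disk_image {K X : Set ℂ} (hK : IsDisk K) (F G : ℂ → ℂ) (hF : ContinuousOn F K)
    (h1 : ∀ w ∈ K, F w ∈ X ∧ G (F w) = w) (h2 : ∀ z ∈ X, G z ∈ K ∧ F (G z) = z) : IsDisk X := by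
  obtain ⟨-, ⟨e⟩⟩ := hK
  have hc : CompactSpace K := e.symm.compactSpace
  have hKc : IsCompact K := isCompact_iff_compactSpace.2 hc
  have himg : F '' K = X := by
    apply subset_antisymm
    · rintro _ ⟨w, hw, rfl⟩
      exact (h1 w hw).1
    · intro z hz
      exact ⟨G z, (h2 z hz).1, (h2 z hz).2⟩
  have hX : IsCompact X := himg ▸ hKc.image_of_continuousOn hF
  refine ⟨hX.isClosed, ?_⟩
  let f : K → X := fun w => ⟨F w, (h1 w w.2).1⟩
  have hf : Function.Bijective f := by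
    constructor
    · intro a b hab
      have := congrArg Subtype.val hab
      change F a = F b at this
      apply Subtype.ext
      rw [← (h1 a a.2).2, ← (h1 b b.2).2, this]
    · intro z
      exact ⟨⟨G z, (h2 z z.2).1⟩, Subtype.ext (h2 z z.2).2⟩
  have hfc : Continuous f := Continuous.subtype_mk (continuousOn_iff_continuous_domRestrict.1 hF) _
  exact ⟨(Continuous.homeoOfEquivCompactToT2 (f := Equiv.ofBijective f hf) hfc).symm.trans e⟩

theorem mk_re (a b : ℝ) : ((a : ℂ) + (b : ℂ) * I).re = a := by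
  simp only [Complex.add_re, Complex.ofReal_re, Complex.mul_re, Complex.ofReal_im, Complex.I_re,
    Complex.I_im]
  ring

theorem mk_im (a b : ℝ) : ((a : ℂ) + (b : ℂ) * I).im = b := by
  simp only [Complex.add_im, Complex.ofReal_re, Complex.mul_im, Complex.ofReal_im, Complex.I_re,
    Complex.I_im]
  ring

/-- A closed rectangle. -/
def rct (x0 x1 y0 y1 : ℝ) : Set ℂ := Icc x0 x1 ×ℂ Icc y0 y1

theorem mem_rct {x0 x1 y0 y1 : ℝ} {z : ℂ} : z ∈ rct x0 x1 y0 y1 ↔
    (x0 ≤ z.re ∧ z.re ≤ x1) ∧ (y0 ≤ z.im ∧ z.im ≤ y1) := Iff.rfl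

theorem rct_convex (x0 x1 y0 y1 : ℝ) : Convex ℝ (rct x0 x1 y0 y1) := by
  intro z hz w hw a b ha hb hab
  rw [rct, Complex.mem_reProdIm] at hz hw ⊢
  have e1 : (a • z + b • w).re = a • z.re + b • w.re := by simp
  have e2 : (a • z + b • w).im = a • z.im + b • w.im := by simp
  rw [e1, e2]
  exact ⟨convex_Icc _ _ hz.1 hw.1 ha hb hab, convex_Icc _ _ hz.2 hw.2 ha hb hab⟩

theorem rct_compact (x0 x1 y0 y1 : ℝ) : IsCompact (rct x0 x1 y0 y1) :=
  IsCompact.reProdIm isCompact_Icc isCompact_Icc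

theorem mem_int_rct {x0 x1 y0 y1 : ℝ} {z : ℂ} : z ∈ interior (rct x0 x1 y0 y1) ↔
    (x0 < z.re ∧ z.re < x1) ∧ (y0 < z.im ∧ z.im < y1) := by
  rw [rct, Complex.interior_reProdIm, interior_Icc, interior_Icc, Complex.mem_reProdIm]; rfl

theorem frontier_rct {x0 x1 y0 y1 : ℝ} {z : ℂ} (hz : z ∈ rct x0 x1 y0 y1)
    (h : z.re = x0 ∨ z.re = x1 ∨ z.im = y0 ∨ z.im = y1) : z ∈ frontier (rct x0 x1 y0 y1) := by
  rw [(rct_compact _ _ _ _).isClosed.frontier_eq]
  refine ⟨hz, ?_⟩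
  rw [mem_int_rct]
  rintro ⟨⟨h1, h2⟩, h3, h4⟩
  rcases h with h | h | h | h <;> linarith

theorem disk_rct {x0 x1 y0 y1 : ℝ} (hx : x0 < x1) (hy : y0 < y1) : IsDisk (rct x0 x1 y0 y1) := by
  apply disk_of_convex (rct_convex _ _ _ _) (rct_compact _ _ _ _)
  refine ⟨⟨(x0 + x1) / 2, (y0 + y1) / 2⟩, mem_int_rct.2 ?_⟩
  dsimp only
  exact ⟨⟨by linarith, by linarith⟩, by linarith, by linarith⟩

/-- Gluing rectangles. -/
theorem glue_rct {W : Set ℂ} (hW : IsClosed W) {x0 x1 y0 y1 u0 u1 v0 v1 : ℝ}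
    (hu : u0 < u1) (hv : v0 < v1) (h1 : x0 ≤ u0) (h2 : u1 ≤ x1) (h3 : y0 ≤ v0) (h4 : v1 ≤ y1)
    (hWR : ∀ z ∈ W, z ∈ rct x0 x1 y0 y1 → z ∈ rct u0 u1 v0 v1 ∧
      (z.re = x0 ∨ z.re = x1 ∨ z.im = y0 ∨ z.im = y1) ∧ (z.re = u0 ∨ z.re = u1 ∨ z.im = v0 ∨ z.im = v1))
    (hd : IsDisk (W ∪ rct u0 u1 v0 v1)) : IsDisk (W ∪ rct x0 x1 y0 y1) := by
  apply glue hW (rct_convex _ _ _ _) (rct_compact _ _ _ _) (rct_convex u0 u1 v0 v1)
    (rct_compact _ _ _ _) (p := ⟨(u0 + u1) / 2, (v0 + v1) / 2⟩)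
  · rw [mem_int_rct]
    dsimp only
    exact ⟨⟨by linarith, by linarith⟩, by linarith, by linarith⟩
  · intro z hz
    rw [mem_rct] at hz ⊢
    exact ⟨⟨by linarith [hz.1.1], by linarith [hz.1.2]⟩, by linarith [hz.2.1], by linarith [hz.2.2]⟩
  · intro z hz hzR
    obtain ⟨a, b, c⟩ := hWR z hz hzR
    exact ⟨frontier_rct hzR b, frontier_rct a c⟩
  · exact hd

/-- The region between two graphs. -/
theorem disk_graph {a b : ℝ} (hab : a < b) {f g : ℝ → ℝ} (hf : Continuous f) (hg : Continuous g)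
    (hfg : ∀ x, f x < g x) :
    IsDisk {z : ℂ | a ≤ z.re ∧ z.re ≤ b ∧ f z.re ≤ z.im ∧ z.im ≤ g z.re} := by
  apply disk_image (disk_rct hab (zero_lt_one (α := ℝ)))
    (fun z => (z.re : ℂ) + ((f z.re + z.im * (g z.re - f z.re) : ℝ) : ℂ) * I)
    (fun z => (z.re : ℂ) + (((z.im - f z.re) / (g z.re - f z.re) : ℝ) : ℂ) * I)
  · apply Continuous.continuousOn
    fun_prop
  · intro w hw
    rw [mem_rct] at hw
    have h0 : 0 < g w.re - f w.re := sub_pos.2 (hfg _)
    have e1 : ((w.re : ℂ) + ((f w.re + w.im * (g w.re - f w.re) : ℝ) : ℂ) * I).re = w.re := mk_re _ _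
    have e2 : ((w.re : ℂ) + ((f w.re + w.im * (g w.re - f w.re) : ℝ) : ℂ) * I).im =
        f w.re + w.im * (g w.re - f w.re) := mk_im _ _
    refine ⟨⟨?_, ?_, ?_, ?_⟩, ?_⟩
    · rw [e1]; exact hw.1.1
    · rw [e1]; exact hw.1.2
    · rw [e1, e2]; nlinarith [hw.2.1]
    · rw [e1, e2]; nlinarith [hw.2.2]
    · rw [e1, e2]
      apply Complex.ext
      · rw [mk_re]
      · rw [mk_im]
        field_simp
        ring
  · rintro z ⟨h1, h2, h3, h4⟩
    have h0 : 0 < g z.re - f z.re := sub_pos.2 (hfg _)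
    have e1 : ((z.re : ℂ) + (((z.im - f z.re) / (g z.re - f z.re) : ℝ) : ℂ) * I).re = z.re := mk_re _ _
    have e2 : ((z.re : ℂ) + (((z.im - f z.re) / (g z.re - f z.re) : ℝ) : ℂ) * I).im =
        (z.im - f z.re) / (g z.re - f z.re) := mk_im _ _
    refine ⟨mem_rct.2 ⟨?_, ?_⟩, ?_⟩
    · rw [e1]; exact ⟨h1, h2⟩
    · rw [e2]
      constructor
      · apply div_nonneg (by linarith) h0.le
      · rw [div_le_one h0]; linarith
    · rw [e1, e2]
      apply Complex.ext
      · rw [mk_re]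
      · rw [mk_im]
        field_simp
        ring

/-- Horizontal shears. -/
theorem disk_shear {K : Set ℂ} (hK : IsDisk K) {h : ℝ → ℝ} (hh : Continuous h) :
    IsDisk {z : ℂ | z + (h z.im : ℝ) ∈ K} := by
  apply disk_image hK (fun z => z - (h z.im : ℝ)) (fun z => z + (h z.im : ℝ))
  · apply Continuous.continuousOn; fun_prop
  · intro w hw
    have e : (w - ((h w.im : ℝ) : ℂ)).im = w.im := by simp
    refine ⟨?_, ?_⟩
    · change w - ((h w.im : ℝ) : ℂ) + ((h (w - ((h w.im : ℝ) : ℂ)).im : ℝ) : ℂ) ∈ K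
      rw [e, sub_add_cancel]; exact hw
    · rw [e, sub_add_cancel]
  · intro z hz
    have e : (z + ((h z.im : ℝ) : ℂ)).im = z.im := by simp
    refine ⟨hz, ?_⟩
    rw [e, add_sub_cancel_right]

theorem tent_iff {c x y : ℝ} : y ≤ 4 - tent c (4 / 3) x ↔ y ≤ 4 ∧ 3 / 4 * (y - 3) ≤ |x - c| := by
  unfold tent
  constructor
  · intro h
    have h1 := le_max_left 0 (1 - 4 / 3 * |x - c|)
    have h2 := le_max_right 0 (1 - 4 / 3 * |x - c|)
    exact ⟨by linarith, by linarith⟩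
  · rintro ⟨h1, h2⟩
    have : max 0 (1 - 4 / 3 * |x - c|) ≤ 4 - y := max_le (by linarith) (by linarith)
    linarith

theorem disk_U (N : ℕ) : IsDisk (tile N Kind.U) := by
  have h1 : IsDisk {z : ℂ | (0 : ℝ) ≤ z.re ∧ z.re ≤ 4 ∧ (0 : ℝ) ≤ z.im ∧ z.im ≤ 4 - tent 2 (4 / 3) z.re} :=
    disk_graph (by norm_num) (f := fun _ => 0) (g := fun x => 4 - tent 2 (4 / 3) x) continuous_const
      (by have := continuous_tent 2 (4 / 3); fun_prop) (fun x => by
        have := tent_le_one (c := 2) (m := 4 / 3) (y := x) (by norm_num)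
        linarith)
  have h2 := disk_shear h1 continuous_eps
  convert h2 using 1
  ext z
  rw [mem_U]
  have e1 : (z + ((eps z.im : ℝ) : ℂ)).re = z.re + eps z.im := by simp
  have e2 : (z + ((eps z.im : ℝ) : ℂ)).im = z.im := by simp
  change inU z.re z.im ↔ (0 : ℝ) ≤ (z + ((eps z.im : ℝ) : ℂ)).re ∧ (z + ((eps z.im : ℝ) : ℂ)).re ≤ 4 ∧
    (0 : ℝ) ≤ (z + ((eps z.im : ℝ) : ℂ)).im ∧
      (z + ((eps z.im : ℝ) : ℂ)).im ≤ 4 - tent 2 (4 / 3) (z + ((eps z.im : ℝ) : ℂ)).re
  rw [e1, e2, tent_iff]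
  unfold inU
  rcases le_or_gt z.im 3 with h | h
  · have a1 := abs_nonneg (z.re - 2)
    have a2 := abs_nonneg (z.re + eps z.im - 2)
    constructor
    · rintro ⟨b1, b2, b3, b4, b5⟩
      exact ⟨by linarith, by linarith, b1, b2, by linarith⟩
    · rintro ⟨b1, b2, b3, b4, b5⟩
      exact ⟨b3, b4, by linarith, by linarith, by linarith⟩
  · rw [eps_high (by linarith), add_zero, sub_zero, neg_zero]
    constructor
    · rintro ⟨b1, b2, b3, b4, b5⟩
      exact ⟨b4, b5, b1, b2, b3⟩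
    · rintro ⟨b1, b2, b3, b4, b5⟩
      exact ⟨b3, b4, b5, b1, b2⟩

theorem disk_M (N : ℕ) : IsDisk (tile N Kind.M) := by
  have hN : (0 : ℝ) ≤ N := Nat.cast_nonneg N
  -- the tooth with a part of the bar
  set W : Set ℂ := {z : ℂ | (-2 : ℝ) ≤ z.re ∧ z.re ≤ 2 ∧ (0 : ℝ) ≤ z.im ∧ z.im ≤ 4 - tent 0 (4 / 3) z.re}
    with hWdef
  have ht := continuous_tent 0 (4 / 3)
  have hW : IsClosed W := by
    have a1 : IsClosed {z : ℂ | (-2 : ℝ) ≤ z.re} := isClosed_le (by fun_prop) (by fun_prop)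
    have a2 : IsClosed {z : ℂ | z.re ≤ 2} := isClosed_le (by fun_prop) (by fun_prop)
    have a3 : IsClosed {z : ℂ | (0 : ℝ) ≤ z.im} := isClosed_le (by fun_prop) (by fun_prop)
    have a4 : IsClosed {z : ℂ | z.im ≤ 4 - tent 0 (4 / 3) z.re} := isClosed_le (by fun_prop) (by fun_prop)
    exact a1.inter (a2.inter (a3.inter a4))
  have ht1 : ∀ x, tent 0 (4 / 3) x ≤ 1 := fun x => tent_le_one (by norm_num)
  have h0 : IsDisk (W ∪ rct (-2) 2 (-1) 0) := by
    have h1 : IsDisk {z : ℂ | (-2 : ℝ) ≤ z.re ∧ z.re ≤ 2 ∧ (-1 : ℝ) ≤ z.im ∧ z.im ≤ 4 - tent 0 (4 / 3) z.re} :=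
      disk_graph (by norm_num) (f := fun _ => -1) (g := fun x => 4 - tent 0 (4 / 3) x) continuous_const
        (by fun_prop) (fun x => by have := ht1 x; linarith)
    convert h1 using 1
    ext z
    constructor
    · rintro (⟨a1, a2, a3, a4⟩ | hz)
      · exact ⟨a1, a2, by linarith, a4⟩
      · rw [mem_rct] at hz
        exact ⟨hz.1.1, hz.1.2, hz.2.1, by have := ht1 z.re; linarith [hz.2.2]⟩
    · rintro ⟨a1, a2, a3, a4⟩
      rcases le_total 0 z.im with h | h
      · left; exact ⟨a1, a2, h, a4⟩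
      · right; rw [mem_rct]; exact ⟨⟨a1, a2⟩, a3, h⟩
  have h1 : IsDisk (W ∪ rct (-(4 * N + 6)) (4 * N + 6) (-4) 0) := by
    apply glue_rct hW (u0 := -2) (u1 := 2) (v0 := -1) (v1 := 0) (by norm_num) (by norm_num)
      (by linarith) (by linarith) (by norm_num) (by norm_num) _ h0
    rintro z ⟨a1, a2, a3, a4⟩ hz
    rw [mem_rct] at hz
    have : z.im = 0 := le_antisymm hz.2.2 a3
    refine ⟨mem_rct.2 ⟨⟨a1, a2⟩, by linarith, by linarith⟩, ?_, ?_⟩
    · right; right; right; exact this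
    · right; right; right; exact this
  apply disk_image h1 (fun z => ((z.re * ((2 + eps z.im) / 2) : ℝ) : ℂ) + (z.im : ℂ) * I)
    (fun z => ((z.re * (2 / (2 + eps z.im)) : ℝ) : ℂ) + (z.im : ℂ) * I)
  · have := continuous_eps
    apply Continuous.continuousOn; fun_prop
  · intro w hw
    have he := eps_nonneg w.im
    have e1 : (((w.re * ((2 + eps w.im) / 2) : ℝ) : ℂ) + (w.im : ℂ) * I).re =
        w.re * ((2 + eps w.im) / 2) := mk_re _ _
    have e2 : (((w.re * ((2 + eps w.im) / 2) : ℝ) : ℂ) + (w.im : ℂ) * I).im = w.im := mk_im _ _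
    refine ⟨?_, ?_⟩
    · rw [mem_M, e1, e2]
      rcases hw with ⟨a1, a2, a3, a4⟩ | hw
      · right
        rw [tent_iff] at a4
        rw [sub_zero] at a4
        rw [abs_mul, abs_of_nonneg (by positivity : (0 : ℝ) ≤ (2 + eps w.im) / 2)]
        have ha : |w.re| ≤ 2 := abs_le.2 ⟨a1, a2⟩
        refine ⟨a3, a4.1, ?_, ?_⟩
        · have := abs_nonneg w.re
          nlinarith [a4.2]
        · nlinarith
      · left
        rw [mem_rct] at hw
        rw [eps_low (by linarith [hw.2.2])]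
        refine ⟨hw.2.1, hw.2.2, ?_⟩
        have : w.re * ((2 + 0) / 2) = w.re := by ring
        rw [this, abs_le]
        exact hw.1
    · rw [e1, e2]
      apply Complex.ext
      · rw [mk_re]
        field_simp
      · rw [mk_im]
  · intro z hz
    have he := eps_nonneg z.im
    have e1 : (((z.re * (2 / (2 + eps z.im)) : ℝ) : ℂ) + (z.im : ℂ) * I).re =
        z.re * (2 / (2 + eps z.im)) := mk_re _ _
    have e2 : (((z.re * (2 / (2 + eps z.im)) : ℝ) : ℂ) + (z.im : ℂ) * I).im = z.im := mk_im _ _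
    refine ⟨?_, ?_⟩
    · rcases mem_M.1 hz with ⟨a1, a2, a3⟩ | ⟨a1, a2, a3, a4⟩
      · right
        rw [mem_rct, e1, e2, eps_low (by linarith)]
        have : z.re * (2 / (2 + 0)) = z.re := by ring
        rw [this]
        exact ⟨abs_le.1 a3, a1, a2⟩
      · left
        have hle : |z.re * (2 / (2 + eps z.im))| ≤ 2 := by
          rw [abs_mul, abs_of_nonneg (by positivity : (0 : ℝ) ≤ 2 / (2 + eps z.im)), mul_div_assoc',
            div_le_iff₀ (by linarith)]
          linarith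
        have h5 := abs_le.1 hle
        refine ⟨?_, ?_, ?_, ?_⟩
        · rw [e1]; exact h5.1
        · rw [e1]; exact h5.2
        · rw [e2]; exact a1
        · rw [e1, e2, tent_iff, sub_zero]
          refine ⟨a2, ?_⟩
          rcases le_or_gt z.im 3 with h | h
          · have := abs_nonneg (z.re * (2 / (2 + eps z.im)))
            linarith
          · rw [eps_high (by linarith)]
            have : z.re * (2 / (2 + 0)) = z.re := by ring
            rw [this]; exact a3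
    · rw [e1, e2]
      apply Complex.ext
      · rw [mk_re]
        field_simp
      · rw [mk_im]

/-- The largest ceiling bump over `x`. -/
noncomputable def sig (N : ℕ) (x : ℝ) : ℝ :=
  (Finset.range (2 * N + 1)).sup' ⟨0, by simp⟩ (fun l : ℕ => tent (4 + 4 * l) (4 / 3) x)

theorem continuous_sig (N : ℕ) : Continuous (sig N) := by
  unfold sig
  apply Continuous.finset_sup'_apply
  intro l _
  exact continuous_tent _ _

theorem sig_le_one (N : ℕ) (x : ℝ) : sig N x ≤ 1 := by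
  unfold sig
  apply Finset.sup'_le
  intro l _
  exact tent_le_one (by norm_num)

theorem le_sig_iff {N : ℕ} {x y : ℝ} (hy : y < 4) : 4 - sig N x ≤ y ↔
    ∃ l : ℕ, l ≤ 2 * N ∧ |x - (4 + 4 * l)| ≤ 3 / 4 * (y - 3) := by
  have h1 : 4 - sig N x ≤ y ↔ 4 - y ≤ sig N x := by constructor <;> intro h <;> linarith
  rw [h1]
  unfold sig
  rw [Finset.le_sup'_iff]
  constructor
  · rintro ⟨l, hl, h⟩
    refine ⟨l, by simpa [Nat.lt_succ_iff] using hl, ?_⟩
    unfold tent at h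
    rcases le_max_iff.1 h with h2 | h2
    · linarith
    · linarith
  · rintro ⟨l, hl, h⟩
    refine ⟨l, by simpa [Nat.lt_succ_iff] using hl, ?_⟩
    unfold tent
    apply le_max_of_le_right
    linarith

theorem sig_nonneg (N : ℕ) (x : ℝ) : 0 ≤ sig N x := by
  unfold sig
  rw [Finset.le_sup'_iff]
  exact ⟨0, by simp, tent_nonneg _ _ _⟩

/-- The straightened frame. -/
theorem disk_F0 (N : ℕ) : IsDisk {z : ℂ | (0 ≤ z.re ∧ z.re ≤ 8 * N + 8 ∧ 4 - sig N z.re ≤ z.im ∧ z.im ≤ 12) ∨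
    z ∈ rct 0 2 0 5 ∨ z ∈ rct (8 * N + 6) (8 * N + 8) 0 5} := by
  have hN : (0 : ℝ) ≤ N := Nat.cast_nonneg N
  have hs := continuous_sig N
  have hs1 := sig_le_one N
  have hs0 := sig_nonneg N
  set K1 : Set ℂ := {z : ℂ | 0 ≤ z.re ∧ z.re ≤ 8 * N + 8 ∧ 4 - sig N z.re ≤ z.im ∧ z.im ≤ 12} with hK1
  have d1 : IsDisk K1 :=
    disk_graph (by linarith) (f := fun x => 4 - sig N x) (g := fun _ => 12) (by fun_prop)
      continuous_const (fun x => by have := hs0 x; linarith)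
  have cK1 : IsClosed K1 := d1.1
  -- left leg
  have hlow : ∀ z : ℂ, z ∈ K1 → z.re ≤ 2 → 4 ≤ z.im := by
    rintro z ⟨a1, a2, a3, a4⟩ h
    by_contra hc
    push Not at hc
    obtain ⟨l, -, h1⟩ := (le_sig_iff hc).1 a3
    have h2 := (abs_le.1 h1).1
    have : (0 : ℝ) ≤ l := Nat.cast_nonneg l
    linarith
  have hlow' : ∀ z : ℂ, z ∈ K1 → 8 * N + 6 ≤ z.re → 4 ≤ z.im := by
    rintro z ⟨a1, a2, a3, a4⟩ h
    by_contra hc
    push Not at hc
    obtain ⟨l, hl, h1⟩ := (le_sig_iff hc).1 a3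
    have h2 := (abs_le.1 h1).2
    have : (l : ℝ) ≤ 2 * N := by exact_mod_cast hl
    linarith
  have d2 : IsDisk ((K1 ∩ {z | 2 ≤ z.re ∨ 5 ≤ z.im}) ∪ rct 0 2 0 5) := by
    have cW : IsClosed (K1 ∩ {z : ℂ | 2 ≤ z.re ∨ 5 ≤ z.im}) := by
      apply cK1.inter
      have a1 : IsClosed {z : ℂ | (2 : ℝ) ≤ z.re} := isClosed_le (by fun_prop) (by fun_prop)
      have a2 : IsClosed {z : ℂ | (5 : ℝ) ≤ z.im} := isClosed_le (by fun_prop) (by fun_prop)
      exact a1.union a2
    apply glue_rct cW (u0 := 0) (u1 := 2) (v0 := 4) (v1 := 5) (by norm_num) (by norm_num) le_rfl le_rfl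
      (by norm_num) le_rfl
    · rintro z ⟨hz, h⟩ hzR
      rw [mem_rct] at hzR
      have h1 := hlow z hz hzR.1.2
      refine ⟨mem_rct.2 ⟨hzR.1, h1, hzR.2.2⟩, ?_, ?_⟩
      · rcases h with h | h
        · right; left; exact le_antisymm hzR.1.2 h
        · right; right; right; exact le_antisymm hzR.2.2 h
      · rcases h with h | h
        · right; left; exact le_antisymm hzR.1.2 h
        · right; right; right; exact le_antisymm hzR.2.2 h
    · convert d1 using 1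
      ext z
      constructor
      · rintro (⟨hz, -⟩ | hz)
        · exact hz
        · rw [mem_rct] at hz
          exact ⟨hz.1.1, by linarith [hz.1.2], by linarith [hz.2.1, hs0 z.re], by linarith [hz.2.2]⟩
      · intro hz
        by_cases h : 2 ≤ z.re ∨ 5 ≤ z.im
        · exact Or.inl ⟨hz, h⟩
        · push Not at h
          exact Or.inr (mem_rct.2 ⟨⟨hz.1, h.1.le⟩, hlow z hz h.1.le, h.2.le⟩)
  set K2 : Set ℂ := (K1 ∩ {z | 2 ≤ z.re ∨ 5 ≤ z.im}) ∪ rct 0 2 0 5 with hK2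
  have d3 : IsDisk ((K2 ∩ {z | z.re ≤ 8 * N + 6 ∨ 5 ≤ z.im}) ∪ rct (8 * N + 6) (8 * N + 8) 0 5) := by
    have cW : IsClosed (K2 ∩ {z : ℂ | z.re ≤ 8 * N + 6 ∨ 5 ≤ z.im}) := by
      apply d2.1.inter
      have a1 : IsClosed {z : ℂ | z.re ≤ 8 * (N : ℝ) + 6} := isClosed_le (by fun_prop) (by fun_prop)
      have a2 : IsClosed {z : ℂ | (5 : ℝ) ≤ z.im} := isClosed_le (by fun_prop) (by fun_prop)
      exact a1.union a2
    have hin : ∀ z ∈ K2, 8 * N + 6 ≤ z.re → z ∈ K1 := by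
      rintro z (⟨hz, -⟩ | hz) h
      · exact hz
      · rw [mem_rct] at hz
        linarith [hz.1.2]
    apply glue_rct cW (u0 := 8 * N + 6) (u1 := 8 * N + 8) (v0 := 4) (v1 := 5) (by linarith) (by norm_num)
      le_rfl le_rfl (by norm_num) le_rfl
    · rintro z ⟨hz, h⟩ hzR
      rw [mem_rct] at hzR
      have h1 := hlow' z (hin z hz hzR.1.1) hzR.1.1
      refine ⟨mem_rct.2 ⟨hzR.1, h1, hzR.2.2⟩, ?_, ?_⟩
      · rcases h with h | h
        · left; exact le_antisymm h hzR.1.1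
        · right; right; right; exact le_antisymm hzR.2.2 h
      · rcases h with h | h
        · left; exact le_antisymm h hzR.1.1
        · right; right; right; exact le_antisymm hzR.2.2 h
    · convert d2 using 1
      ext z
      constructor
      · rintro (⟨hz, -⟩ | hz)
        · exact hz
        · rw [mem_rct] at hz
          left
          refine ⟨⟨by linarith [hz.1.1], hz.1.2, by linarith [hz.2.1, hs0 z.re], by linarith [hz.2.2]⟩, ?_⟩
          left; linarith [hz.1.1]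
      · intro hz
        by_cases h : z.re ≤ 8 * N + 6 ∨ 5 ≤ z.im
        · exact Or.inl ⟨hz, h⟩
        · push Not at h
          have h1 := hin z hz h.1.le
          exact Or.inr (mem_rct.2 ⟨⟨h.1.le, h1.2.1⟩, hlow' z h1 h.1.le, h.2.le⟩)
  convert d3 using 1
  ext z
  constructor
  · rintro (hz | hz | hz)
    · -- in K1
      change z ∈ K1 at hz
      by_cases h : z.re ≤ 8 * N + 6 ∨ 5 ≤ z.im
      · left
        refine ⟨?_, h⟩
        by_cases h' : 2 ≤ z.re ∨ 5 ≤ z.im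
        · exact Or.inl ⟨hz, h'⟩
        · push Not at h'
          exact Or.inr (mem_rct.2 ⟨⟨hz.1, h'.1.le⟩, by linarith [hlow z hz h'.1.le], h'.2.le⟩)
      · push Not at h
        right
        exact mem_rct.2 ⟨⟨h.1.le, hz.2.1⟩, by linarith [hlow' z hz h.1.le], h.2.le⟩
    · left
      refine ⟨Or.inr hz, ?_⟩
      rw [mem_rct] at hz
      left; linarith [hz.1.2]
    · right; exact hz
  · rintro (⟨(⟨hz, -⟩ | hz), -⟩ | hz)
    · left; exact hz
    · right; left; exact hz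
    · right; right; exact hz

end Pool.Agent.K7.H11.Surr
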