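import Pool.Agent.K7.H11.Surr.Disk

/-!
# The frame is a closed topological disk
-/

set_option autoImplicit false

namespace Pool.Agent.K7.H11.Surr

open Set Complex Pool.Agent.R175.Disk

/-- The horizontal displacement in the legs. -/
noncomputable def psi (P X : ℝ) : ℝ :=
  max 0 (min X (4 - X)) / 2 - max 0 (min (P - X) (4 - (P - X))) / 2

theorem psi_left {P X : ℝ} (hP : 8 ≤ P) (h0 : 0 ≤ X) (h2 : X ≤ 2) : psi P X = X / 2 := by
  unfold psi
  rw [min_eq_left (by linarith : X ≤ 4 - X), max_eq_right h0,
    min_eq_right (by linarith : 4 - (P - X) ≤ P - X), max_eq_left (by linarith)]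
  ring

theorem psi_right {P X : ℝ} (hP : 8 ≤ P) (h0 : P - 2 ≤ X) (h2 : X ≤ P) : psi P X = -(P - X) / 2 := by
  unfold psi
  rw [min_eq_right (by linarith : 4 - X ≤ X), max_eq_left (by linarith : 4 - X ≤ 0),
    min_eq_left (by linarith : P - X ≤ 4 - (P - X)), max_eq_right (by linarith)]
  ring

theorem continuous_psi (P : ℝ) : Continuous (psi P) := by
  unfold psi; fun_prop

/-- Bending. -/
noncomputable def bendX (P X y : ℝ) : ℝ := X - lam y - eps y * psi P X

/-- Unbending. -/
noncomputable def unbX (P x y : ℝ) : ℝ :=
  if y < 3 then (if x ≤ P / 2 then 2 * x / (2 - eps y) else P - 2 * (P - x) / (2 - eps y)) else x + lam y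

theorem bend_left {P X y : ℝ} (hP : 8 ≤ P) (h0 : 0 ≤ X) (h2 : X ≤ 2) (hy : y ≤ 5) :
    bendX P X y = X * (2 - eps y) / 2 := by
  unfold bendX
  rw [psi_left hP h0 h2, lam_low (by linarith)]
  ring

theorem bend_right {P X y : ℝ} (hP : 8 ≤ P) (h0 : P - 2 ≤ X) (h2 : X ≤ P) (hy : y ≤ 5) :
    bendX P X y = P - (P - X) * (2 - eps y) / 2 := by
  unfold bendX
  rw [psi_right hP h0 h2, lam_low (by linarith)]
  ring

theorem bend_high {P X y : ℝ} (hy : 3 ≤ y) : bendX P X y = X - lam y := by
  unfold bendX
  rw [eps_high (by linarith)]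
  ring

theorem disk_F (N : ℕ) : IsDisk (tile N Kind.F) := by
  have hN : (0 : ℝ) ≤ N := Nat.cast_nonneg N
  set P : ℝ := 8 * N + 8 with hPdef
  have hP : 8 ≤ P := by rw [hPdef]; linarith
  apply disk_image (disk_F0 N) (fun z => ((bendX P z.re z.im : ℝ) : ℂ) + (z.im : ℂ) * I)
    (fun z => ((unbX P z.re z.im : ℝ) : ℂ) + (z.im : ℂ) * I)
  · have h1 := continuous_eps
    have h2 := continuous_lam
    have h3 := continuous_psi P
    apply Continuous.continuousOn
    unfold bendX
    fun_prop
  · intro w hw
    rw [mk_re, mk_im, mem_F, mk_re, mk_im]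
    have he0 := eps_nonneg w.im
    have he1 := eps_le_one w.im
    -- the value
    have hback : ∀ X : ℝ, unbX P (bendX P X w.im) w.im = X → ((unbX P (bendX P X w.im) w.im : ℝ) : ℂ)
        + (w.im : ℂ) * I = (X : ℂ) + (w.im : ℂ) * I := fun X h => by rw [h]
    have hre : ((w.re : ℝ) : ℂ) + (w.im : ℂ) * I = w := Complex.re_add_im w
    have hlegL : ∀ z : ℂ, z ∈ rct 0 2 0 5 → z = w → inF N (bendX P w.re w.im) w.im ∧
        unbX P (bendX P w.re w.im) w.im = w.re := by
      rintro z hz rfl
      rw [mem_rct] at hz
      rw [bend_left hP hz.1.1 hz.1.2 hz.2.2]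
      constructor
      · rcases le_or_gt 4 z.im with h | h
        · left
          have := lam_low (y := z.im) (by linarith [hz.2.2])
          rw [eps_high (by linarith), this]
          refine ⟨h, by linarith [hz.2.2], by linarith [hz.1.1], ?_⟩
          linarith [hz.1.2]
        · right; left
          refine ⟨hz.2.1, h.le, ?_, ?_⟩
          · have := hz.1.1
            have : 0 ≤ z.re * (2 - eps z.im) := mul_nonneg this (by linarith)
            linarith
          · nlinarith [hz.1.2]
      · unfold unbX
        have h4 : 2 - eps z.im ≠ 0 := by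
          intro h; linarith
        split_ifs with h1 h2
        · field_simp
        · exfalso
          apply h2
          nlinarith [hz.1.1, hz.1.2]
        · rw [lam_low (by linarith [hz.2.2]), eps_high (by linarith)]
          ring
    have hlegR : ∀ z : ℂ, z ∈ rct (8 * N + 6) (8 * N + 8) 0 5 → z = w → inF N (bendX P w.re w.im) w.im ∧
        unbX P (bendX P w.re w.im) w.im = w.re := by
      rintro z hz rfl
      rw [mem_rct] at hz
      have g1 : P - 2 ≤ z.re := by rw [hPdef]; linarith [hz.1.1]
      have g2 : z.re ≤ P := hz.1.2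
      rw [bend_right hP g1 g2 hz.2.2]
      constructor
      · rcases le_or_gt 4 z.im with h | h
        · left
          have := lam_low (y := z.im) (by linarith [hz.2.2])
          rw [eps_high (by linarith), this]
          refine ⟨h, by linarith [hz.2.2], by linarith, ?_⟩
          rw [← hPdef]; linarith
        · right; right; left
          refine ⟨hz.2.1, h.le, ?_, ?_⟩
          · have e : 8 * (N : ℝ) + 6 = P - 2 := by rw [hPdef]; ring
            rw [e]
            nlinarith
          · rw [← hPdef]
            have : 0 ≤ (P - z.re) * (2 - eps z.im) := mul_nonneg (by linarith) (by linarith)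
            linarith
      · unfold unbX
        have h4 : 2 - eps z.im ≠ 0 := by
          intro h; linarith
        split_ifs with h1 h2
        · exfalso
          nlinarith
        · field_simp
          ring
        · rw [lam_low (by linarith [hz.2.2]), eps_high (by linarith)]
          ring
    have key : inF N (bendX P w.re w.im) w.im ∧ unbX P (bendX P w.re w.im) w.im = w.re := by
      rcases hw with ⟨a1, a2, a3, a4⟩ | hw | hw
      · have h3 : 3 ≤ w.im := by linarith [sig_le_one N w.re]
        rw [bend_high h3]
        constructor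
        · rcases le_or_gt 4 w.im with h | h
          · left
            exact ⟨h, a4, by linarith, by rw [← hPdef]; linarith⟩
          · right; right; right
            rw [lam_low (by linarith), sub_zero]
            exact ⟨h.le, (le_sig_iff h).1 a3⟩
        · unfold unbX
          rw [if_neg (by linarith)]
          ring
      · exact hlegL w hw rfl
      · exact hlegR w hw rfl
    refine ⟨key.1, ?_⟩
    rw [key.2, hre]
  · intro z hz
    rw [mk_re, mk_im]
    have he0 := eps_nonneg z.im
    have he1 := eps_le_one z.im
    have hre : ((z.re : ℝ) : ℂ) + (z.im : ℂ) * I = z := Complex.re_add_im z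
    have h4 : 2 - eps z.im ≠ 0 := by
      intro h; linarith
    have h4' : 0 < 2 - eps z.im := by linarith
    have key : ((((unbX P z.re z.im : ℝ) : ℂ) + (z.im : ℂ) * I) ∈ {z : ℂ | (0 ≤ z.re ∧ z.re ≤ 8 * (N : ℝ) + 8 ∧
        4 - sig N z.re ≤ z.im ∧ z.im ≤ 12) ∨ z ∈ rct 0 2 0 5 ∨ z ∈ rct (8 * N + 6) (8 * N + 8) 0 5}) ∧
        bendX P (unbX P z.re z.im) z.im = z.re := by
      rw [mem_setOf_eq, mem_rct, mem_rct, mk_re, mk_im]
      rcases mem_F.1 hz with ⟨a1, a2, a3, a4⟩ | ⟨a1, a2, a3, a4⟩ | ⟨a1, a2, a3, a4⟩ | ⟨a1, l, hl, a2⟩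
      · have e : unbX P z.re z.im = z.re + lam z.im := by
          unfold unbX; rw [if_neg (by linarith)]
        rw [e, bend_high (by linarith)]
        refine ⟨Or.inl ⟨by linarith, by linarith, by linarith [sig_nonneg N (z.re + lam z.im)], a2⟩, by ring⟩
      · rcases lt_or_ge z.im 3 with h | h
        · have e : unbX P z.re z.im = 2 * z.re / (2 - eps z.im) := by
            unfold unbX; rw [if_pos h, if_pos (by linarith)]
          have b0 : 0 ≤ 2 * z.re / (2 - eps z.im) := div_nonneg (by linarith) h4'.le
          have b1 : 2 * z.re / (2 - eps z.im) ≤ 2 := by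
            rw [div_le_iff₀ h4']; linarith
          rw [e, bend_left hP b0 b1 (by linarith)]
          refine ⟨Or.inr (Or.inl ⟨⟨b0, b1⟩, a1, by linarith⟩), ?_⟩
          field_simp
        · have e : unbX P z.re z.im = z.re := by
            unfold unbX; rw [if_neg (by linarith), lam_low (by linarith), add_zero]
          rw [eps_high (by linarith), sub_zero] at a4
          rw [e, bend_high h, lam_low (by linarith)]
          exact ⟨Or.inr (Or.inl ⟨⟨a3, a4⟩, a1, by linarith⟩), by ring⟩
      · rcases lt_or_ge z.im 3 with h | h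
        · have c1 : P - 2 + eps z.im ≤ z.re := by rw [hPdef]; linarith
          have c2 : z.re ≤ P := a4
          have e : unbX P z.re z.im = P - 2 * (P - z.re) / (2 - eps z.im) := by
            unfold unbX; rw [if_pos h, if_neg (by intro hh; linarith)]
          have b0 : 0 ≤ 2 * (P - z.re) / (2 - eps z.im) := div_nonneg (by linarith) h4'.le
          have b1 : 2 * (P - z.re) / (2 - eps z.im) ≤ 2 := by
            rw [div_le_iff₀ h4']; linarith
          rw [e, bend_right hP (by linarith) (by linarith) (by linarith)]
          refine ⟨Or.inr (Or.inr ⟨⟨?_, ?_⟩, a1, by linarith⟩), ?_⟩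
          · have : 8 * (N : ℝ) + 6 = P - 2 := by rw [hPdef]; ring
            rw [this]; linarith
          · rw [← hPdef]; linarith
          · field_simp
            ring
        · have e : unbX P z.re z.im = z.re := by
            unfold unbX; rw [if_neg (by linarith), lam_low (by linarith), add_zero]
          rw [eps_high (by linarith), add_zero] at a3
          rw [e, bend_high h, lam_low (by linarith)]
          exact ⟨Or.inr (Or.inr ⟨⟨a3, a4⟩, a1, by linarith⟩), by ring⟩
      · have h3 : 3 ≤ z.im := by linarith [abs_nonneg (z.re - (4 + 4 * (l : ℝ)))]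
        have e : unbX P z.re z.im = z.re := by
          unfold unbX; rw [if_neg (by linarith), lam_low (by linarith), add_zero]
        rw [e, bend_high h3, lam_low (by linarith)]
        have hl0 : (0 : ℝ) ≤ l := Nat.cast_nonneg l
        have hl1 : (l : ℝ) ≤ 2 * N := by exact_mod_cast hl
        have h5 := abs_le.1 a2
        refine ⟨Or.inl ⟨by linarith [h5.1], by linarith [h5.2], ?_, by linarith⟩, by ring⟩
        rcases lt_or_ge z.im 4 with h | h
        · exact (le_sig_iff h).2 ⟨l, hl, a2⟩
        · linarith [sig_nonneg N z.re]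
    refine ⟨key.1, ?_⟩
    rw [key.2, hre]

end Pool.Agent.K7.H11.Surr
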