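import Pool.Agent.K7.H11.Surr.Tiles

/-!
# Bumps and dents of the prototiles
-/

set_option autoImplicit false

namespace Pool.Agent.K7.H11.Surr

open Set Complex

/-- Translation by `a`. -/
noncomputable def tr (a : ℂ) : ℂ ≃ᵢ ℂ := IsometryEquiv.addLeft a

theorem tr_apply (a z : ℂ) : tr a z = a + z := rfl

/-- Rotation by a quarter turn followed by the translation by `a`. -/
noncomputable def rotI (a : ℂ) : ℂ ≃ᵢ ℂ :=
  (rotation ⟨I, by simp [Submonoid.unitSphere]⟩).toIsometryEquiv.trans (tr a)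

theorem rotI_apply (a z : ℂ) : rotI a z = a + I * z := rfl

/-- Reflection `z ↦ - conj z` followed by the translation by `a`. -/
noncomputable def refl (a : ℂ) : ℂ ≃ᵢ ℂ :=
  (conjLIE.toIsometryEquiv.trans (IsometryEquiv.neg ℂ)).trans (tr a)

theorem refl_apply (a z : ℂ) : refl a z = a + -(starRingEnd ℂ) z := rfl

theorem small {z : ℂ} (h : ‖z‖ < 1 / 4) : |z.re| < 1 / 4 ∧ |z.im| < 1 / 4 :=
  ⟨lt_of_le_of_lt (abs_re_le_norm z) h, lt_of_le_of_lt (abs_im_le_norm z) h⟩

theorem bump_F8 (N : ℕ) : BumpAt (tile N Kind.F) (1 / 2) (tr (-1 + 8 * I)) := by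
  refine ⟨1 / 4, by norm_num, fun z hz => ?_⟩
  obtain ⟨h1, h2⟩ := small hz
  have hN : (0 : ℝ) ≤ N := Nat.cast_nonneg N
  have e1 : (tr (-1 + 8 * I) z).re = -1 + z.re := by simp [tr_apply]
  have e2 : (tr (-1 + 8 * I) z).im = 8 + z.im := by simp [tr_apply]
  have h1' := abs_lt.1 h1
  have h2' := abs_lt.1 h2
  have e3 : lam (8 + z.im) = 1 - 2 * |z.im| := by
    rw [lam_8 (by linarith), tent_of]
    · rw [add_sub_cancel_left]
    · rw [add_sub_cancel_left]; linarith
  rw [mem_F, mem_cone, e1, e2]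
  unfold inF
  rw [e3]
  constructor
  · rintro (⟨-, -, h, -⟩ | ⟨-, h, -⟩ | ⟨-, h, -⟩ | ⟨h, -⟩)
    · linarith
    · linarith
    · linarith
    · linarith
  · intro h
    left
    refine ⟨by linarith, by linarith, by linarith, ?_⟩
    have := abs_nonneg z.im
    linarith

theorem bump_F6 (N : ℕ) : BumpAt (tile N Kind.F) (3 / 4) (tr (-1 + 6 * I)) := by
  refine ⟨1 / 4, by norm_num, fun z hz => ?_⟩
  obtain ⟨h1, h2⟩ := small hz
  have hN : (0 : ℝ) ≤ N := Nat.cast_nonneg N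
  have e1 : (tr (-1 + 6 * I) z).re = -1 + z.re := by simp [tr_apply]
  have e2 : (tr (-1 + 6 * I) z).im = 6 + z.im := by simp [tr_apply]
  have h1' := abs_lt.1 h1
  have h2' := abs_lt.1 h2
  have e3 : lam (6 + z.im) = 1 - 4 / 3 * |z.im| := by
    rw [lam_6 (by linarith), tent_of]
    · rw [add_sub_cancel_left]
    · rw [add_sub_cancel_left]; linarith
  rw [mem_F, mem_cone, e1, e2]
  unfold inF
  rw [e3]
  constructor
  · rintro (⟨-, -, h, -⟩ | ⟨-, h, -⟩ | ⟨-, h, -⟩ | ⟨h, -⟩)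
    · linarith
    · linarith
    · linarith
    · linarith
  · intro h
    left
    refine ⟨by linarith, by linarith, by linarith, ?_⟩
    have := abs_nonneg z.im
    linarith

theorem bump_Fc (N l : ℕ) (hl : l ≤ 2 * N) :
    BumpAt (tile N Kind.F) (3 / 4) (rotI ((4 + 4 * l : ℝ) + 3 * I)) := by
  refine ⟨1 / 4, by norm_num, fun z hz => ?_⟩
  obtain ⟨h1, h2⟩ := small hz
  have hl' : (l : ℝ) ≤ 2 * N := by exact_mod_cast hl
  have hl0 : (0 : ℝ) ≤ l := Nat.cast_nonneg l
  have e1 : (rotI ((4 + 4 * l : ℝ) + 3 * I) z).re = 4 + 4 * l - z.im := by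
    rw [rotI_apply]; simp; ring
  have e2 : (rotI ((4 + 4 * l : ℝ) + 3 * I) z).im = 3 + z.re := by
    rw [rotI_apply]; simp
  have h1' := abs_lt.1 h1
  have h2' := abs_lt.1 h2
  rw [mem_F, mem_cone, e1, e2]
  unfold inF
  constructor
  · rintro (⟨h, -⟩ | ⟨-, -, -, h⟩ | ⟨-, -, h, -⟩ | ⟨-, m, hm, h⟩)
    · linarith
    · have := eps_nonneg (3 + z.re)
      linarith
    · have := eps_nonneg (3 + z.re)
      linarith
    · have hml : m = l := by
        by_contra hne
        have h3 : (1 : ℝ) ≤ |(m : ℝ) - l| := by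
          have : (1 : ℤ) ≤ |(m : ℤ) - l| := by
            apply Int.one_le_abs
            omega
          exact_mod_cast this
        have h4 : |(4 + 4 * l - z.im) - (4 + 4 * m)| ≥ 4 * |(m : ℝ) - l| - |z.im| := by
          have e : (4 + 4 * (l : ℝ) - z.im) - (4 + 4 * m) = -(4 * ((m : ℝ) - l) + z.im) := by ring
          rw [e, abs_neg]
          have := abs_sub_abs_le_abs_sub (4 * ((m : ℝ) - l)) (-z.im)
          rw [abs_neg, sub_neg_eq_add, abs_mul, abs_of_pos (by norm_num : (0 : ℝ) < 4)] at this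
          linarith
        linarith
      subst hml
      have e : (4 + 4 * (m : ℝ) - z.im) - (4 + 4 * m) = -z.im := by ring
      rw [e, abs_neg] at h
      linarith
  · intro h
    right; right; right
    refine ⟨by linarith, l, hl, ?_⟩
    have e : (4 + 4 * (l : ℝ) - z.im) - (4 + 4 * l) = -z.im := by ring
    rw [e, abs_neg]
    linarith

theorem bump_U (N : ℕ) : BumpAt (tile N Kind.U) (5 / 8) (tr (-1 + 2 * I)) := by
  refine ⟨1 / 4, by norm_num, fun z hz => ?_⟩
  obtain ⟨h1, h2⟩ := small hz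
  have e1 : (tr (-1 + 2 * I) z).re = -1 + z.re := by simp [tr_apply]
  have e2 : (tr (-1 + 2 * I) z).im = 2 + z.im := by simp [tr_apply]
  have h1' := abs_lt.1 h1
  have h2' := abs_lt.1 h2
  have e3 : eps (2 + z.im) = 1 - 8 / 5 * |z.im| := by
    rw [eps, tent_of]
    · rw [add_sub_cancel_left]
    · rw [add_sub_cancel_left]; linarith
  rw [mem_U, mem_cone, e1, e2]
  unfold inU
  rw [e3]
  have := abs_nonneg z.im
  constructor
  · rintro ⟨-, -, -, h, -⟩
    linarith
  · intro h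
    refine ⟨by linarith, by linarith, ?_, by linarith, by linarith⟩
    have := abs_nonneg (-1 + z.re - 2)
    linarith

theorem bump_M1 (N : ℕ) : BumpAt (tile N Kind.M) (5 / 8) (tr (-3 + 2 * I)) := by
  refine ⟨1 / 4, by norm_num, fun z hz => ?_⟩
  obtain ⟨h1, h2⟩ := small hz
  have e1 : (tr (-3 + 2 * I) z).re = -3 + z.re := by simp [tr_apply]
  have e2 : (tr (-3 + 2 * I) z).im = 2 + z.im := by simp [tr_apply]
  have h1' := abs_lt.1 h1
  have h2' := abs_lt.1 h2
  have e3 : eps (2 + z.im) = 1 - 8 / 5 * |z.im| := by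
    rw [eps, tent_of]
    · rw [add_sub_cancel_left]
    · rw [add_sub_cancel_left]; linarith
  rw [mem_M, mem_cone, e1, e2]
  unfold inM
  rw [e3, abs_of_neg (by linarith : -3 + z.re < 0)]
  constructor
  · rintro (⟨-, h, -⟩ | ⟨-, -, -, h⟩)
    · linarith
    · linarith
  · intro h
    right
    exact ⟨by linarith, by linarith, by linarith, by linarith⟩

theorem bump_M2 (N : ℕ) : BumpAt (tile N Kind.M) (5 / 8) (refl (3 + 2 * I)) := by
  refine ⟨1 / 4, by norm_num, fun z hz => ?_⟩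
  obtain ⟨h1, h2⟩ := small hz
  have e1 : (refl (3 + 2 * I) z).re = 3 - z.re := by simp [refl_apply]; ring
  have e2 : (refl (3 + 2 * I) z).im = 2 + z.im := by simp [refl_apply]
  have h1' := abs_lt.1 h1
  have h2' := abs_lt.1 h2
  have e3 : eps (2 + z.im) = 1 - 8 / 5 * |z.im| := by
    rw [eps, tent_of]
    · rw [add_sub_cancel_left]
    · rw [add_sub_cancel_left]; linarith
  rw [mem_M, mem_cone, e1, e2]
  unfold inM
  rw [e3, abs_of_pos (by linarith : 0 < 3 - z.re)]
  constructor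
  · rintro (⟨-, h, -⟩ | ⟨-, -, -, h⟩)
    · linarith
    · linarith
  · intro h
    right
    exact ⟨by linarith, by linarith, by linarith, by linarith⟩

theorem dent_F8 (N : ℕ) : DentAt (tile N Kind.F) (1 / 2) (tr ((8 * N + 7 : ℝ) + 8 * I)) := by
  refine ⟨1 / 4, by norm_num, fun z hz => ?_⟩
  obtain ⟨h1, h2⟩ := small hz
  have hN : (0 : ℝ) ≤ N := Nat.cast_nonneg N
  have e1 : (tr ((8 * N + 7 : ℝ) + 8 * I) z).re = 8 * N + 7 + z.re := by simp [tr_apply]
  have e2 : (tr ((8 * N + 7 : ℝ) + 8 * I) z).im = 8 + z.im := by simp [tr_apply]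
  have h1' := abs_lt.1 h1
  have h2' := abs_lt.1 h2
  have e3 : lam (8 + z.im) = 1 - 2 * |z.im| := by
    rw [lam_8 (by linarith), tent_of]
    · rw [add_sub_cancel_left]
    · rw [add_sub_cancel_left]; linarith
  rw [mem_F, mem_ocone, e1, e2]
  unfold inF
  rw [e3]
  have := abs_nonneg z.im
  constructor
  · rintro (⟨-, -, -, h⟩ | ⟨-, h, -⟩ | ⟨-, h, -⟩ | ⟨h, -⟩)
    · intro hc; linarith
    · linarith
    · linarith
    · linarith
  · intro h
    push Not at h
    left
    exact ⟨by linarith, by linarith, by linarith, by linarith⟩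

theorem dent_F2 (N : ℕ) : DentAt (tile N Kind.F) (5 / 8) (tr (1 + 2 * I)) := by
  refine ⟨1 / 4, by norm_num, fun z hz => ?_⟩
  obtain ⟨h1, h2⟩ := small hz
  have hN : (0 : ℝ) ≤ N := Nat.cast_nonneg N
  have e1 : (tr (1 + 2 * I) z).re = 1 + z.re := by simp [tr_apply]
  have e2 : (tr (1 + 2 * I) z).im = 2 + z.im := by simp [tr_apply]
  have h1' := abs_lt.1 h1
  have h2' := abs_lt.1 h2
  have e3 : eps (2 + z.im) = 1 - 8 / 5 * |z.im| := by
    rw [eps, tent_of]
    · rw [add_sub_cancel_left]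
    · rw [add_sub_cancel_left]; linarith
  rw [mem_F, mem_ocone, e1, e2]
  unfold inF
  rw [e3]
  have := abs_nonneg z.im
  constructor
  · rintro (⟨h, -⟩ | ⟨-, -, -, h⟩ | ⟨-, -, h, -⟩ | ⟨-, l, -, h⟩)
    · linarith
    · intro hc; linarith
    · intro hc; linarith
    · have := abs_nonneg (1 + z.re - (4 + 4 * (l : ℝ)))
      linarith
  · intro h
    push Not at h
    right; left
    exact ⟨by linarith, by linarith, by linarith, by linarith⟩

theorem dent_U2 (N : ℕ) : DentAt (tile N Kind.U) (5 / 8) (tr (3 + 2 * I)) := by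
  refine ⟨1 / 4, by norm_num, fun z hz => ?_⟩
  obtain ⟨h1, h2⟩ := small hz
  have e1 : (tr (3 + 2 * I) z).re = 3 + z.re := by simp [tr_apply]
  have e2 : (tr (3 + 2 * I) z).im = 2 + z.im := by simp [tr_apply]
  have h1' := abs_lt.1 h1
  have h2' := abs_lt.1 h2
  have e3 : eps (2 + z.im) = 1 - 8 / 5 * |z.im| := by
    rw [eps, tent_of]
    · rw [add_sub_cancel_left]
    · rw [add_sub_cancel_left]; linarith
  rw [mem_U, mem_ocone, e1, e2]
  unfold inU
  rw [e3]
  have := abs_nonneg z.im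
  constructor
  · rintro ⟨-, -, -, -, h⟩ hc
    linarith
  · intro h
    push Not at h
    refine ⟨by linarith, by linarith, ?_, by linarith, by linarith⟩
    have := abs_nonneg (3 + z.re - 2)
    linarith

theorem dent_U3 (N : ℕ) : DentAt (tile N Kind.U) (3 / 4) (rotI (2 + 3 * I)) := by
  refine ⟨1 / 4, by norm_num, fun z hz => ?_⟩
  obtain ⟨h1, h2⟩ := small hz
  have e1 : (rotI (2 + 3 * I) z).re = 2 - z.im := by rw [rotI_apply]; simp; ring
  have e2 : (rotI (2 + 3 * I) z).im = 3 + z.re := by rw [rotI_apply]; simp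
  have h1' := abs_lt.1 h1
  have h2' := abs_lt.1 h2
  rw [mem_U, mem_ocone, e1, e2]
  unfold inU
  have e4 : |2 - z.im - 2| = |z.im| := by rw [show 2 - z.im - 2 = -z.im by ring, abs_neg]
  rw [e4, eps_high (by linarith)]
  constructor
  · rintro ⟨-, -, h, -, -⟩ hc
    linarith
  · intro h
    push Not at h
    exact ⟨by linarith, by linarith, by linarith, by linarith, by linarith⟩

theorem dent_M3 (N : ℕ) : DentAt (tile N Kind.M) (3 / 4) (rotI (3 * I)) := by
  refine ⟨1 / 4, by norm_num, fun z hz => ?_⟩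
  obtain ⟨h1, h2⟩ := small hz
  have e1 : (rotI (3 * I) z).re = - z.im := by rw [rotI_apply]; simp
  have e2 : (rotI (3 * I) z).im = 3 + z.re := by rw [rotI_apply]; simp
  have h1' := abs_lt.1 h1
  have h2' := abs_lt.1 h2
  rw [mem_M, mem_ocone, e1, e2]
  unfold inM
  rw [abs_neg, eps_high (by linarith)]
  constructor
  · rintro (⟨-, h, -⟩ | ⟨-, -, h, -⟩)
    · linarith
    · intro hc; linarith
  · intro h
    push Not at h
    right
    exact ⟨by linarith, by linarith, by linarith, by linarith⟩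

/-- The bumps of the prototiles. -/
def bumps (N : ℕ) : Kind → Set (ℝ × (ℂ ≃ᵢ ℂ))
  | Kind.F => {q | q = (1 / 2, tr (-1 + 8 * I)) ∨ q = (3 / 4, tr (-1 + 6 * I)) ∨
      ∃ l : ℕ, l ≤ 2 * N ∧ q = (3 / 4, rotI ((4 + 4 * l : ℝ) + 3 * I))}
  | Kind.U => {q | q = (5 / 8, tr (-1 + 2 * I))}
  | Kind.M => {q | q = (5 / 8, tr (-3 + 2 * I)) ∨ q = (5 / 8, refl (3 + 2 * I))}

theorem mem_bF {N : ℕ} {q : ℝ × (ℂ ≃ᵢ ℂ)} : q ∈ bumps N Kind.F ↔
    (q = (1 / 2, tr (-1 + 8 * I)) ∨ q = (3 / 4, tr (-1 + 6 * I)) ∨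
      ∃ l : ℕ, l ≤ 2 * N ∧ q = (3 / 4, rotI ((4 + 4 * l : ℝ) + 3 * I))) := Iff.rfl
theorem mem_bU {N : ℕ} {q : ℝ × (ℂ ≃ᵢ ℂ)} : q ∈ bumps N Kind.U ↔ q = (5 / 8, tr (-1 + 2 * I)) := Iff.rfl
theorem mem_bM {N : ℕ} {q : ℝ × (ℂ ≃ᵢ ℂ)} : q ∈ bumps N Kind.M ↔
    (q = (5 / 8, tr (-3 + 2 * I)) ∨ q = (5 / 8, refl (3 + 2 * I))) := Iff.rfl

theorem bumps_ok (N : ℕ) : ∀ a, ∀ q ∈ bumps N a, BumpAt (tile N a) q.1 q.2 ∧ 1 / 2 ≤ q.1 ∧ q.1 ≤ 3 / 4 := by
  rintro (_ | _ | _) q hq
  · rcases mem_bF.1 hq with rfl | rfl | ⟨l, hl, rfl⟩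
    · exact ⟨bump_F8 N, by norm_num, by norm_num⟩
    · exact ⟨bump_F6 N, by norm_num, by norm_num⟩
    · exact ⟨bump_Fc N l hl, by norm_num, by norm_num⟩
  · rw [mem_bU.1 hq]
    exact ⟨bump_U N, by norm_num, by norm_num⟩
  · rcases mem_bM.1 hq with rfl | rfl
    · exact ⟨bump_M1 N, by norm_num, by norm_num⟩
    · exact ⟨bump_M2 N, by norm_num, by norm_num⟩

theorem fat_or (N : ℕ) : ∀ a, ∀ z ∈ tile N a, Fat (tile N a) z ∨ ∃ q ∈ bumps N a, q.2 0 = z := by
  rintro (_ | _ | _) z hz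
  · by_cases h1 : z.re = -1 ∧ z.im = 8
    · right
      refine ⟨_, mem_bF.2 (Or.inl rfl), ?_⟩
      apply Complex.ext
      · simp [tr_apply, h1.1]
      · simp [tr_apply, h1.2]
    by_cases h2 : z.re = -1 ∧ z.im = 6
    · right
      refine ⟨_, mem_bF.2 (Or.inr (Or.inl rfl)), ?_⟩
      apply Complex.ext
      · simp [tr_apply, h2.1]
      · simp [tr_apply, h2.2]
    by_cases h3 : ∃ l : ℕ, l ≤ 2 * N ∧ (z.re = 4 + 4 * l ∧ z.im = 3)
    · right
      obtain ⟨l, hl, h3, h4⟩ := h3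
      refine ⟨_, mem_bF.2 (Or.inr (Or.inr ⟨l, hl, rfl⟩)), ?_⟩
      apply Complex.ext
      · simp [rotI_apply, h3]
      · simp [rotI_apply, h4]
    · push Not at h3
      exact Or.inl (fat_F hz h1 h2 fun l hl h => h3 l hl h.1 h.2)
  · by_cases h1 : z.re = -1 ∧ z.im = 2
    · right
      refine ⟨_, mem_bU.2 rfl, ?_⟩
      apply Complex.ext
      · simp [tr_apply, h1.1]
      · simp [tr_apply, h1.2]
    · exact Or.inl (fat_U hz h1)
  · by_cases h1 : z.re = -3 ∧ z.im = 2
    · right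
      refine ⟨_, mem_bM.2 (Or.inl rfl), ?_⟩
      apply Complex.ext
      · simp [tr_apply, h1.1]
      · simp [tr_apply, h1.2]
    by_cases h2 : z.re = 3 ∧ z.im = 2
    · right
      refine ⟨_, mem_bM.2 (Or.inr rfl), ?_⟩
      apply Complex.ext
      · simp [refl_apply, h2.1]
      · simp [refl_apply, h2.2]
    · exact Or.inl (fat_M hz h1 h2)

theorem tile_closed (N : ℕ) (a : Kind) : IsClosed (tile N a) := by
  rcases a with _ | _ | _
  · have c1 : IsClosed {z : ℂ | 4 ≤ z.im ∧ z.im ≤ 12 ∧ -lam z.im ≤ z.re ∧ z.re ≤ 8 * N + 8 - lam z.im} := by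
      have h := continuous_lam
      have a1 : IsClosed {z : ℂ | 4 ≤ z.im} := isClosed_le (by fun_prop) (by fun_prop)
      have a2 : IsClosed {z : ℂ | z.im ≤ 12} := isClosed_le (by fun_prop) (by fun_prop)
      have a3 : IsClosed {z : ℂ | -lam z.im ≤ z.re} := isClosed_le (by fun_prop) (by fun_prop)
      have a4 : IsClosed {z : ℂ | z.re ≤ 8 * N + 8 - lam z.im} := isClosed_le (by fun_prop) (by fun_prop)
      exact a1.inter (a2.inter (a3.inter a4))
    have c2 : IsClosed {z : ℂ | 0 ≤ z.im ∧ z.im ≤ 4 ∧ 0 ≤ z.re ∧ z.re ≤ 2 - eps z.im} := by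
      have h := continuous_eps
      have a1 : IsClosed {z : ℂ | 0 ≤ z.im} := isClosed_le (by fun_prop) (by fun_prop)
      have a2 : IsClosed {z : ℂ | z.im ≤ 4} := isClosed_le (by fun_prop) (by fun_prop)
      have a3 : IsClosed {z : ℂ | 0 ≤ z.re} := isClosed_le (by fun_prop) (by fun_prop)
      have a4 : IsClosed {z : ℂ | z.re ≤ 2 - eps z.im} := isClosed_le (by fun_prop) (by fun_prop)
      exact a1.inter (a2.inter (a3.inter a4))
    have c3 : IsClosed {z : ℂ | 0 ≤ z.im ∧ z.im ≤ 4 ∧ 8 * N + 6 + eps z.im ≤ z.re ∧ z.re ≤ 8 * N + 8} := by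
      have h := continuous_eps
      have a1 : IsClosed {z : ℂ | 0 ≤ z.im} := isClosed_le (by fun_prop) (by fun_prop)
      have a2 : IsClosed {z : ℂ | z.im ≤ 4} := isClosed_le (by fun_prop) (by fun_prop)
      have a3 : IsClosed {z : ℂ | 8 * N + 6 + eps z.im ≤ z.re} := isClosed_le (by fun_prop) (by fun_prop)
      have a4 : IsClosed {z : ℂ | z.re ≤ 8 * N + 8} := isClosed_le (by fun_prop) (by fun_prop)
      exact a1.inter (a2.inter (a3.inter a4))
    have c4 : IsClosed {z : ℂ | z.im ≤ 4 ∧ ∃ l : ℕ, l ≤ 2 * N ∧ |z.re - (4 + 4 * l)| ≤ 3 / 4 * (z.im - 3)} := by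
      have a1 : IsClosed {z : ℂ | z.im ≤ 4} := isClosed_le (by fun_prop) (by fun_prop)
      have a2 : IsClosed {z : ℂ | ∃ l : ℕ, l ≤ 2 * N ∧ |z.re - (4 + 4 * l)| ≤ 3 / 4 * (z.im - 3)} := by
        have e : {z : ℂ | ∃ l : ℕ, l ≤ 2 * N ∧ |z.re - (4 + 4 * l)| ≤ 3 / 4 * (z.im - 3)} =
            ⋃ l ∈ Iic (2 * N), {z : ℂ | |z.re - (4 + 4 * (l : ℕ))| ≤ 3 / 4 * (z.im - 3)} := by
          ext z; simp
        rw [e]
        apply (finite_Iic (2 * N)).isClosed_biUnion
        intro l _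
        exact isClosed_le (by fun_prop) (by fun_prop)
      exact a1.inter a2
    have e : tile N Kind.F = _ ∪ (_ ∪ (_ ∪ _)) := rfl
    rw [e]
    exact c1.union (c2.union (c3.union c4))
  · have h := continuous_eps
    have a1 : IsClosed {z : ℂ | 0 ≤ z.im} := isClosed_le (by fun_prop) (by fun_prop)
    have a2 : IsClosed {z : ℂ | z.im ≤ 4} := isClosed_le (by fun_prop) (by fun_prop)
    have a3 : IsClosed {z : ℂ | 3 / 4 * (z.im - 3) ≤ |z.re - 2|} := isClosed_le (by fun_prop) (by fun_prop)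
    have a4 : IsClosed {z : ℂ | -eps z.im ≤ z.re} := isClosed_le (by fun_prop) (by fun_prop)
    have a5 : IsClosed {z : ℂ | z.re ≤ 4 - eps z.im} := isClosed_le (by fun_prop) (by fun_prop)
    exact a1.inter (a2.inter (a3.inter (a4.inter a5)))
  · have h := continuous_eps
    have c1 : IsClosed {z : ℂ | -4 ≤ z.im ∧ z.im ≤ 0 ∧ |z.re| ≤ 4 * N + 6} := by
      have a1 : IsClosed {z : ℂ | -4 ≤ z.im} := isClosed_le (by fun_prop) (by fun_prop)
      have a2 : IsClosed {z : ℂ | z.im ≤ 0} := isClosed_le (by fun_prop) (by fun_prop)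
      have a3 : IsClosed {z : ℂ | |z.re| ≤ 4 * N + 6} := isClosed_le (by fun_prop) (by fun_prop)
      exact a1.inter (a2.inter a3)
    have c2 : IsClosed {z : ℂ | 0 ≤ z.im ∧ z.im ≤ 4 ∧ 3 / 4 * (z.im - 3) ≤ |z.re| ∧ |z.re| ≤ 2 + eps z.im} := by
      have a1 : IsClosed {z : ℂ | 0 ≤ z.im} := isClosed_le (by fun_prop) (by fun_prop)
      have a2 : IsClosed {z : ℂ | z.im ≤ 4} := isClosed_le (by fun_prop) (by fun_prop)
      have a3 : IsClosed {z : ℂ | 3 / 4 * (z.im - 3) ≤ |z.re|} := isClosed_le (by fun_prop) (by fun_prop)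
      have a4 : IsClosed {z : ℂ | |z.re| ≤ 2 + eps z.im} := isClosed_le (by fun_prop) (by fun_prop)
      exact a1.inter (a2.inter (a3.inter a4))
    have e : tile N Kind.M = _ ∪ _ := rfl
    rw [e]
    exact c1.union c2

/-- A centre of each prototile. -/
noncomputable def cent (N : ℕ) : Kind → ℂ
  | Kind.F => (4 * N + 4 : ℝ) + 8 * I
  | Kind.U => 2 + I
  | Kind.M => -2 * I

theorem ball_tile (N : ℕ) (a : Kind) : Metric.ball (cent N a) (1 / 2) ⊆ tile N a := by
  have hN : (0 : ℝ) ≤ N := Nat.cast_nonneg N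
  intro z hz
  rw [mem_ball_iff_norm] at hz
  rcases a with _ | _ | _
  · have h1 := lt_of_le_of_lt (abs_re_le_norm _) hz
    have h2 := lt_of_le_of_lt (abs_im_le_norm _) hz
    have e1 : (z - cent N Kind.F).re = z.re - (4 * N + 4) := by simp [cent]
    have e2 : (z - cent N Kind.F).im = z.im - 8 := by simp [cent]
    rw [e1, abs_lt] at h1
    rw [e2, abs_lt] at h2
    have := lam_nonneg z.im
    have := lam_le_one z.im
    exact mem_F.2 (Or.inl ⟨by linarith, by linarith, by linarith, by linarith⟩)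
  · have h1 := lt_of_le_of_lt (abs_re_le_norm _) hz
    have h2 := lt_of_le_of_lt (abs_im_le_norm _) hz
    have e1 : (z - cent N Kind.U).re = z.re - 2 := by simp [cent]
    have e2 : (z - cent N Kind.U).im = z.im - 1 := by simp [cent]
    rw [e1, abs_lt] at h1
    rw [e2, abs_lt] at h2
    have := eps_nonneg z.im
    have := eps_le_one z.im
    have := abs_nonneg (z.re - 2)
    exact mem_U.2 ⟨by linarith, by linarith, by linarith, by linarith, by linarith⟩
  · have h1 := lt_of_le_of_lt (abs_re_le_norm _) hz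
    have h2 := lt_of_le_of_lt (abs_im_le_norm _) hz
    have e1 : (z - cent N Kind.M).re = z.re := by simp [cent]
    have e2 : (z - cent N Kind.M).im = z.im + 2 := by simp [cent]
    rw [e1] at h1
    rw [e2, abs_lt] at h2
    exact mem_M.2 (Or.inl ⟨by linarith, by linarith, by linarith⟩)

theorem tile_sub_ball (N : ℕ) (a : Kind) : tile N a ⊆ Metric.closedBall (cent N a) (16 * N + 40) := by
  have hN : (0 : ℝ) ≤ N := Nat.cast_nonneg N
  intro z hz
  rw [mem_closedBall_iff_norm]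
  have key : ∀ u : ℂ, |u.re| ≤ 8 * N + 20 → |u.im| ≤ 8 * N + 20 → ‖u‖ ≤ 16 * N + 40 := by
    intro u h1 h2
    have := norm_le_abs_re_add_abs_im u
    linarith
  rcases a with _ | _ | _
  · have e1 : (z - cent N Kind.F).re = z.re - (4 * N + 4) := by simp [cent]
    have e2 : (z - cent N Kind.F).im = z.im - 8 := by simp [cent]
    have hb : -1 ≤ z.re ∧ z.re ≤ 8 * N + 8 ∧ 0 ≤ z.im ∧ z.im ≤ 12 := by
      rcases mem_F.1 hz with ⟨h1, h2, h3, h4⟩ | ⟨h1, h2, h3, h4⟩ | ⟨h1, h2, h3, h4⟩ | ⟨h2, l, hl, h4⟩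
      · have := lam_nonneg z.im
        have := lam_le_one z.im
        exact ⟨by linarith, by linarith, by linarith, by linarith⟩
      · have := eps_nonneg z.im
        exact ⟨by linarith, by linarith, by linarith, by linarith⟩
      · have := eps_nonneg z.im
        exact ⟨by linarith, by linarith, by linarith, by linarith⟩
      · have h5 := abs_le.1 h4
        have h6 := abs_nonneg (z.re - (4 + 4 * (l : ℝ)))
        have hl' : (l : ℝ) ≤ 2 * N := by exact_mod_cast hl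
        have hl0 : (0 : ℝ) ≤ l := Nat.cast_nonneg l
        exact ⟨by linarith, by linarith, by linarith, by linarith⟩
    obtain ⟨b1, b2, b3, b4⟩ := hb
    apply key
    · rw [e1, abs_le]; constructor <;> linarith
    · rw [e2, abs_le]; constructor <;> linarith
  · have e1 : (z - cent N Kind.U).re = z.re - 2 := by simp [cent]
    have e2 : (z - cent N Kind.U).im = z.im - 1 := by simp [cent]
    obtain ⟨h1, h2, h3, h4, h5⟩ := mem_U.1 hz
    have := eps_nonneg z.im
    have := eps_le_one z.im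
    apply key
    · rw [e1, abs_le]; constructor <;> linarith
    · rw [e2, abs_le]; constructor <;> linarith
  · have e1 : (z - cent N Kind.M).re = z.re := by simp [cent]
    have e2 : (z - cent N Kind.M).im = z.im + 2 := by simp [cent]
    have := eps_le_one z.im
    rcases mem_M.1 hz with ⟨h1, h2, h3⟩ | ⟨h1, h2, h3, h4⟩
    · apply key
      · rw [e1]; linarith
      · rw [e2, abs_le]; constructor <;> linarith
    · apply key
      · rw [e1]; linarith
      · rw [e2, abs_le]; constructor <;> linarith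

end Pool.Agent.K7.H11.Surr
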