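import Pool.Agent.K7.H11.Surr.Feat

/-!
# The patches: the pieces and their interiors
-/

set_option autoImplicit false

namespace Pool.Agent.K7.H11.Surr

open Set Complex

/-- Sets with a thin intersection have disjoint interiors. -/
theorem sep {A B : Set ℂ} {C : Set ℝ} (hC : C.Countable)
    (h : ∀ y ∉ C, {x : ℝ | (⟨x, y⟩ : ℂ) ∈ A ∧ (⟨x, y⟩ : ℂ) ∈ B}.Countable) :
    Disjoint (interior A) (interior B) := by
  rw [Set.disjoint_left]
  intro z hzA hzB
  have ho : IsOpen (interior A ∩ interior B) := isOpen_interior.inter isOpen_interior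
  obtain ⟨r, hr, hball⟩ := Metric.isOpen_iff.1 ho z ⟨hzA, hzB⟩
  obtain ⟨y, hy, hyI⟩ := (hC.dense_compl ℝ).exists_mem_open (isOpen_Ioo (a := z.im - r / 2) (b := z.im + r / 2))
    ⟨z.im, by constructor <;> linarith⟩
  obtain ⟨x, hx, hxI⟩ := ((h y hy).dense_compl ℝ).exists_mem_open
    (isOpen_Ioo (a := z.re - r / 2) (b := z.re + r / 2)) ⟨z.re, by constructor <;> linarith⟩
  apply hx
  have hmem : (⟨x, y⟩ : ℂ) ∈ Metric.ball z r := by
    rw [Metric.mem_ball, dist_eq_norm]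
    have h1 : |x - z.re| < r / 2 := abs_lt.2 ⟨by linarith [hxI.1], by linarith [hxI.2]⟩
    have h2 : |y - z.im| < r / 2 := abs_lt.2 ⟨by linarith [hyI.1], by linarith [hyI.2]⟩
    have h3 := Complex.norm_le_abs_re_add_abs_im ((⟨x, y⟩ : ℂ) - z)
    have e1 : ((⟨x, y⟩ : ℂ) - z).re = x - z.re := rfl
    have e2 : ((⟨x, y⟩ : ℂ) - z).im = y - z.im := rfl
    rw [e1, e2] at h3
    linarith
  have := hball hmem
  exact ⟨interior_subset this.1, interior_subset this.2⟩

/-- The walls of the slots of a column. -/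
noncomputable def wall (N : ℕ) (i : ℤ) (l : ℕ) (y : ℝ) : ℝ :=
  2 + 4 * l + (if (l : ℤ) ≤ N + i then -eps y else eps y)

/-- The pieces of a column. -/
def inP (N : ℕ) (i : ℤ) (c : ℕ) (x y : ℝ) : Prop :=
  if c = 2 * N + 1 then inF N x y
  else if (c : ℤ) < N + i then inU (x - (2 + 4 * c)) y
  else if (c : ℤ) = N + i then inM N (x - (4 + 4 * c)) y
  else inU (6 + 4 * c - x) y

theorem inP_F {N : ℕ} {i : ℤ} {x y : ℝ} : inP N i (2 * N + 1) x y ↔ inF N x y := by
  unfold inP; rw [if_pos rfl]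

theorem inP_body {N : ℕ} {i : ℤ} {c : ℕ} (hc : c ≤ 2 * N) (hci : (c : ℤ) = N + i) {x y : ℝ}
    (h1 : -4 ≤ y) (h2 : y ≤ 0) (h3 : |x - (4 + 4 * c)| ≤ 4 * N + 6) : inP N i c x y := by
  unfold inP
  rw [if_neg (by omega), if_neg (by omega), if_pos hci]
  exact Or.inl ⟨h1, h2, h3⟩

theorem inP_slot {N : ℕ} {i : ℤ} {c : ℕ} (hc : c ≤ 2 * N) {x y : ℝ}
    (h1 : 0 ≤ y) (h2 : y ≤ 4) (h3 : wall N i c y ≤ x) (h4 : x ≤ wall N i (c + 1) y)
    (h5 : 3 / 4 * (y - 3) ≤ |x - (4 + 4 * c)|) : inP N i c x y := by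
  unfold wall at h3 h4
  push_cast at h3 h4
  unfold inP
  rw [if_neg (by omega)]
  rcases lt_trichotomy (c : ℤ) (N + i) with h | h | h
  · rw [if_pos h]
    rw [if_pos h.le] at h3
    rw [if_pos (by omega)] at h4
    refine ⟨h1, h2, ?_, by linarith, by linarith⟩
    have e : x - (2 + 4 * (c : ℝ)) - 2 = x - (4 + 4 * c) := by ring
    rw [e]; exact h5
  · rw [if_neg (by omega), if_pos h]
    rw [if_pos h.le] at h3
    rw [if_neg (by omega)] at h4
    right
    refine ⟨h1, h2, h5, ?_⟩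
    rw [abs_le]
    constructor <;> linarith
  · rw [if_neg (by omega), if_neg (by omega)]
    rw [if_neg (by omega)] at h3 h4
    refine ⟨h1, h2, ?_, by linarith, by linarith⟩
    have e : 6 + 4 * (c : ℝ) - x - 2 = -(x - (4 + 4 * c)) := by ring
    rw [e, abs_neg]; exact h5

theorem inP_cases {N : ℕ} {i : ℤ} {c : ℕ} (hc : c ≤ 2 * N) {x y : ℝ} (h : inP N i c x y) :
    ((c : ℤ) = N + i ∧ -4 ≤ y ∧ y ≤ 0 ∧ |x - (4 + 4 * c)| ≤ 4 * N + 6) ∨
    (0 ≤ y ∧ y ≤ 4 ∧ wall N i c y ≤ x ∧ x ≤ wall N i (c + 1) y ∧ 3 / 4 * (y - 3) ≤ |x - (4 + 4 * c)|) := by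
  unfold wall
  push_cast
  unfold inP at h
  rw [if_neg (by omega)] at h
  rcases lt_trichotomy (c : ℤ) (N + i) with h' | h' | h'
  · rw [if_pos h'] at h
    obtain ⟨h1, h2, h3, h4, h5⟩ := h
    right
    rw [if_pos h'.le, if_pos (by omega)]
    refine ⟨h1, h2, by linarith, by linarith, ?_⟩
    have e : x - (2 + 4 * (c : ℝ)) - 2 = x - (4 + 4 * c) := by ring
    rw [e] at h3; exact h3
  · rw [if_neg (by omega), if_pos h'] at h
    rcases h with ⟨h1, h2, h3⟩ | ⟨h1, h2, h3, h4⟩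
    · exact Or.inl ⟨h', h1, h2, h3⟩
    · right
      rw [if_pos h'.le, if_neg (by omega)]
      rw [abs_le] at h4
      exact ⟨h1, h2, by linarith [h4.1], by linarith [h4.2], h3⟩
  · rw [if_neg (by omega), if_neg (by omega)] at h
    obtain ⟨h1, h2, h3, h4, h5⟩ := h
    right
    rw [if_neg (by omega), if_neg (by omega)]
    refine ⟨h1, h2, by linarith, by linarith, ?_⟩
    have e : 6 + 4 * (c : ℝ) - x - 2 = -(x - (4 + 4 * c)) := by ring
    rw [e, abs_neg] at h3; exact h3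

theorem wall_ge (N : ℕ) (i : ℤ) (l : ℕ) (y : ℝ) : 2 + 4 * l - eps y ≤ wall N i l y := by
  unfold wall
  have := eps_nonneg y
  split_ifs <;> linarith

theorem wall_le (N : ℕ) (i : ℤ) (l : ℕ) (y : ℝ) : wall N i l y ≤ 2 + 4 * l + eps y := by
  unfold wall
  have := eps_nonneg y
  split_ifs <;> linarith

theorem wall_mono (N : ℕ) (i : ℤ) {l m : ℕ} (h : l ≤ m) (y : ℝ) : wall N i l y ≤ wall N i m y := by
  rcases h.eq_or_lt with h | h
  · rw [h]
  · have h1 := wall_le N i l y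
    have h2 := wall_ge N i m y
    have h3 : (l : ℝ) + 1 ≤ m := by exact_mod_cast h
    have := eps_le_one y
    linarith

/-- Bounds for the parts of the frame below the bar. -/
theorem inF_mid {N : ℕ} {x y : ℝ} (h : inF N x y) (hy : y < 4) : 0 ≤ y ∧
    ((0 ≤ x ∧ x ≤ 2 - eps y) ∨ (8 * N + 6 + eps y ≤ x ∧ x ≤ 8 * N + 8) ∨
    (3 ≤ y ∧ ∃ l : ℕ, l ≤ 2 * N ∧ |x - (4 + 4 * l)| ≤ 3 / 4 * (y - 3))) := by
  rcases h with ⟨a1, -⟩ | ⟨a1, a2, a3, a4⟩ | ⟨a1, a2, a3, a4⟩ | ⟨a1, l, hl, a2⟩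
  · linarith
  · exact ⟨a1, Or.inl ⟨a3, a4⟩⟩
  · exact ⟨a1, Or.inr (Or.inl ⟨a3, a4⟩)⟩
  · have := abs_nonneg (x - (4 + 4 * (l : ℝ)))
    exact ⟨by linarith, Or.inr (Or.inr ⟨by linarith, l, hl, a2⟩)⟩

theorem mid_bounds {N : ℕ} {i : ℤ} {c : ℕ} (hc : c ≤ 2 * N + 1) {x y : ℝ} (h : inP N i c x y)
    (h0 : 0 < y) (h4 : y < 4) : 0 ≤ x ∧ x ≤ 8 * N + 8 := by
  have hN : (0 : ℝ) ≤ N := Nat.cast_nonneg N
  have he0 := eps_nonneg y
  have he1 := eps_le_one y
  rcases hc.eq_or_lt with h' | h'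
  · subst h'
    rw [inP_F] at h
    obtain ⟨-, (⟨a1, a2⟩ | ⟨a1, a2⟩ | ⟨a0, l, hl, a1⟩)⟩ := inF_mid h h4
    · exact ⟨a1, by linarith⟩
    · exact ⟨by linarith, a2⟩
    · have hl0 : (0 : ℝ) ≤ l := Nat.cast_nonneg l
      have hl1 : (l : ℝ) ≤ 2 * N := by exact_mod_cast hl
      have := abs_le.1 a1
      exact ⟨by linarith [this.1], by linarith [this.2]⟩
  · have hc' : c ≤ 2 * N := by omega
    rcases inP_cases hc' h with ⟨-, -, a, -⟩ | ⟨-, -, a1, a2, -⟩
    · linarith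
    · have h1 := wall_ge N i c y
      have h2 := wall_le N i (c + 1) y
      have hc0 : (0 : ℝ) ≤ c := Nat.cast_nonneg c
      have hc1 : (c : ℝ) ≤ 2 * N := by exact_mod_cast hc'
      push_cast at h2
      exact ⟨by linarith, by linarith⟩

theorem inP_im {N : ℕ} {i : ℤ} {c : ℕ} (hc : c ≤ 2 * N + 1) {x y : ℝ} (h : inP N i c x y) :
    -4 ≤ y ∧ y ≤ 12 := by
  rcases hc.eq_or_lt with h' | h'
  · subst h'
    rw [inP_F] at h
    rcases lt_or_ge y 4 with h4 | h4
    · exact ⟨by linarith [(inF_mid h h4).1], by linarith⟩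
    · rcases h with ⟨a1, a2, -⟩ | ⟨a1, a2, -⟩ | ⟨a1, a2, -⟩ | ⟨a1, -⟩
      · exact ⟨by linarith, a2⟩
      · exact ⟨by linarith, by linarith⟩
      · exact ⟨by linarith, by linarith⟩
      · exact ⟨by linarith, by linarith⟩
  · have hc' : c ≤ 2 * N := by omega
    rcases inP_cases hc' h with ⟨-, a, b, -⟩ | ⟨a, b, -⟩
    · exact ⟨a, by linarith⟩
    · exact ⟨by linarith, by linarith⟩

/-- The exceptional points of a piece at height `y`. -/
noncomputable def exc (N : ℕ) (i : ℤ) (c : ℕ) (y : ℝ) : Set ℝ :=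
  {(i : ℝ) * (8 * N + 8) + 4 * i + 8 * N + 10, (i : ℝ) * (8 * N + 8) + 8 * N + 8,
    (i : ℝ) * (8 * N + 8) + wall N i c y, (i : ℝ) * (8 * N + 8) + wall N i (c + 1) y,
    (i : ℝ) * (8 * N + 8) + (4 + 4 * c) + 3 / 4 * (y - 3),
    (i : ℝ) * (8 * N + 8) + (4 + 4 * c) - 3 / 4 * (y - 3),
    (i : ℝ) * (8 * N + 8) + (8 * N + 8) - lam y}

theorem exc_mem {N : ℕ} {i : ℤ} {c : ℕ} {y x : ℝ} (h : x = i * (8 * N + 8) + 4 * i + 8 * N + 10 ∨
    x = i * (8 * N + 8) + 8 * N + 8 ∨ x = i * (8 * N + 8) + wall N i c y ∨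
    x = i * (8 * N + 8) + wall N i (c + 1) y ∨ x = i * (8 * N + 8) + (4 + 4 * c) + 3 / 4 * (y - 3) ∨
    x = i * (8 * N + 8) + (4 + 4 * c) - 3 / 4 * (y - 3) ∨
    x = i * (8 * N + 8) + (8 * N + 8) - lam y) : x ∈ exc N i c y := by
  unfold exc
  simp only [mem_insert_iff, mem_singleton_iff]
  exact h

theorem core_lt {N : ℕ} {i i' : ℤ} {c c' : ℕ} (hc : c ≤ 2 * N + 1) (hc' : c' ≤ 2 * N + 1)
    {x y : ℝ} (hi : i < i') (h : inP N i c (x - i * (8 * N + 8)) y) (h' : inP N i' c' (x - i' * (8 * N + 8)) y)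
    (y0 : y ≠ 0) (y4 : y ≠ 4) : x ∈ exc N i c y := by
  apply exc_mem
  have hN : (0 : ℝ) ≤ N := Nat.cast_nonneg N
  have hii : (i : ℝ) + 1 ≤ i' := by exact_mod_cast hi
  have hP : ((i : ℝ) + 1) * (8 * N + 8) ≤ i' * (8 * N + 8) := mul_le_mul_of_nonneg_right hii (by linarith)
  rcases lt_trichotomy y 0 with hy | hy | hy
  · left
    have key : ∀ (i : ℤ) (c : ℕ) (x : ℝ), c ≤ 2 * N + 1 → inP N i c x y →
        (c : ℤ) = N + i ∧ |x - (4 + 4 * c)| ≤ 4 * N + 6 := by
      intro i c x hc h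
      rcases hc.eq_or_lt with h1 | h1
      · subst h1
        rw [inP_F] at h
        linarith [(inF_mid h (by linarith)).1]
      · rcases inP_cases (by omega : c ≤ 2 * N) h with ⟨a, -, -, b⟩ | ⟨a, -⟩
        · exact ⟨a, b⟩
        · linarith
    obtain ⟨a1, a2⟩ := key i c _ hc h
    obtain ⟨b1, b2⟩ := key i' c' _ hc' h'
    have a3 : (c : ℝ) = N + i := by exact_mod_cast a1
    have b3 : (c' : ℝ) = N + i' := by exact_mod_cast b1
    rw [a3] at a2
    rw [b3] at b2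
    have a4 := (abs_le.1 a2).2
    have b4 := (abs_le.1 b2).1
    linarith
  · exact absurd hy y0
  · rcases lt_trichotomy y 4 with hy' | hy' | hy'
    · right; left
      have a := mid_bounds hc h hy hy'
      have b := mid_bounds hc' h' hy hy'
      linarith [a.2, b.1]
    · exact absurd hy' y4
    · right; right; right; right; right; right
      have key : ∀ (i : ℤ) (c : ℕ) (x : ℝ), c ≤ 2 * N + 1 → inP N i c x y →
          -lam y ≤ x ∧ x ≤ 8 * N + 8 - lam y := by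
        intro i c x hc h
        rcases hc.eq_or_lt with h1 | h1
        · subst h1
          rw [inP_F] at h
          rcases h with ⟨a1, a2, a3⟩ | ⟨a1, a2, -⟩ | ⟨a1, a2, -⟩ | ⟨a1, -⟩
          · exact a3
          · linarith
          · linarith
          · linarith
        · rcases inP_cases (by omega : c ≤ 2 * N) h with ⟨-, -, a, -⟩ | ⟨-, a, -⟩
          · linarith
          · linarith
      have a := key i c _ hc h
      have b := key i' c' _ hc' h'
      linarith [a.2, b.1]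

theorem core_eq {N : ℕ} {i : ℤ} {c c' : ℕ} (hc : c < c') (hc' : c' ≤ 2 * N + 1)
    {x y : ℝ} (h : inP N i c (x - i * (8 * N + 8)) y) (h' : inP N i c' (x - i * (8 * N + 8)) y)
    (y0 : y ≠ 0) (y4 : y ≠ 4) : x ∈ exc N i c y := by
  apply exc_mem
  have hN : (0 : ℝ) ≤ N := Nat.cast_nonneg N
  have hc0 : (0 : ℝ) ≤ c := Nat.cast_nonneg c
  have hc2 : c ≤ 2 * N := by omega
  have hc3 : (c : ℝ) ≤ 2 * N := by exact_mod_cast hc2
  set t := x - i * (8 * N + 8) with ht
  have he0 := eps_nonneg y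
  have he1 := eps_le_one y
  rcases hc'.eq_or_lt with h1 | h1
  · subst h1
    rw [inP_F] at h'
    rcases inP_cases hc2 h with ⟨-, -, a, -⟩ | ⟨a0, a1, a2, a3, a4⟩
    · -- below zero the frame is absent
      have := (inF_mid h' (by linarith)).1
      exact absurd (le_antisymm a this) y0
    · have hlt : y < 4 := lt_of_le_of_ne a1 y4
      have w1 := wall_ge N i c y
      have w2 := wall_le N i (c + 1) y
      push_cast at w2
      obtain ⟨-, (⟨b1, b2⟩ | ⟨b1, b2⟩ | ⟨b0, l, hl, b1⟩)⟩ := inF_mid h' hlt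
      · right; right; left
        linarith
      · right; right; right; left
        linarith
      · have hl0 : (0 : ℝ) ≤ l := Nat.cast_nonneg l
        have he : eps y = 0 := eps_high (by linarith)
        rw [he] at w1 w2
        have b2 := abs_le.1 b1
        rcases lt_trichotomy l c with hlc | hlc | hlc
        · have : (l : ℝ) + 1 ≤ c := by exact_mod_cast hlc
          linarith [b2.2]
        · subst hlc
          have e := le_antisymm b1 a4
          rcases abs_cases (t - (4 + 4 * (l : ℝ))) with ⟨h5, -⟩ | ⟨h5, -⟩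
          · right; right; right; right; left
            linarith
          · right; right; right; right; right; left
            linarith
        · have : (c : ℝ) + 1 ≤ l := by exact_mod_cast hlc
          linarith [b2.1]
  · have hc4 : c' ≤ 2 * N := by omega
    rcases inP_cases hc2 h with ⟨a1, a2, a, a3⟩ | ⟨a0, a1, a2, a3, a4⟩
    · rcases inP_cases hc4 h' with ⟨b1, b2, b, b3⟩ | ⟨b0, b1, b2, b3, b4⟩
      · omega
      · exact absurd (le_antisymm a b0) y0
    · rcases inP_cases hc4 h' with ⟨b1, b2, b, b3⟩ | ⟨b0, b1, b2, b3, b4⟩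
      · exact absurd (le_antisymm b a0) y0
      · right; right; right; left
        have := wall_mono N i (show c + 1 ≤ c' from hc) y
        linarith

/-- The pieces. -/
def pc (N : ℕ) (i s : ℤ) (c : ℕ) : Set ℂ := {z | inP N i c (z.re - i * (8 * N + 8)) (z.im - 16 * s)}

theorem mem_pc {N : ℕ} {i s : ℤ} {c : ℕ} {z : ℂ} :
    z ∈ pc N i s c ↔ inP N i c (z.re - i * (8 * N + 8)) (z.im - 16 * s) := Iff.rfl

theorem pc_disj_aux {N : ℕ} {i i' s s' : ℤ} {c c' : ℕ} (hc : c ≤ 2 * N + 1) (hc' : c' ≤ 2 * N + 1)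
    (h : s ≠ s' ∨ i < i' ∨ (i = i' ∧ c < c')) :
    Disjoint (interior (pc N i s c)) (interior (pc N i' s' c')) := by
  apply sep (C := range fun n : ℤ => (4 * n : ℝ)) (countable_range _)
  intro y hy
  have hy' : ∀ n : ℤ, y ≠ 4 * n := fun n hn => hy ⟨n, hn.symm⟩
  by_cases hs : s = s'
  · subst hs
    have h2 : i < i' ∨ (i = i' ∧ c < c') := by
      rcases h with h | h
      · exact absurd rfl h
      · exact h
    apply Set.Countable.mono (s₂ := exc N i c (y - 16 * s)) _ (by unfold exc; exact (Set.toFinite _).countable)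
    rintro x ⟨h3, h4⟩
    rw [mem_pc] at h3 h4
    have y0 : y - 16 * s ≠ 0 := by
      intro h0
      apply hy' (4 * s)
      push_cast; linarith
    have y4 : y - 16 * s ≠ 4 := by
      intro h0
      apply hy' (4 * s + 1)
      push_cast; linarith
    rcases h2 with h2 | ⟨rfl, h2⟩
    · exact core_lt hc hc' h2 h3 h4 y0 y4
    · exact core_eq h2 hc' h3 h4 y0 y4
  · apply Set.Countable.mono (s₂ := ∅) _ Set.countable_empty
    rintro x ⟨h3, h4⟩
    exfalso
    rw [mem_pc] at h3 h4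
    have a := inP_im hc h3
    have b := inP_im hc' h4
    change -4 ≤ y - 16 * s ∧ y - 16 * s ≤ 12 at a
    change -4 ≤ y - 16 * s' ∧ y - 16 * s' ≤ 12 at b
    rcases lt_or_gt_of_ne hs with h5 | h5
    · have h6 : (s : ℝ) + 1 ≤ s' := by exact_mod_cast h5
      apply hy' (4 * s + 3)
      push_cast
      linarith [a.2, b.1]
    · have h6 : (s' : ℝ) + 1 ≤ s := by exact_mod_cast h5
      apply hy' (4 * s' + 3)
      push_cast
      linarith [b.2, a.1]

theorem pc_disj {N : ℕ} {i i' s s' : ℤ} {c c' : ℕ} (hc : c ≤ 2 * N + 1) (hc' : c' ≤ 2 * N + 1)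
    (h : ¬ (i = i' ∧ s = s' ∧ c = c')) :
    Disjoint (interior (pc N i s c)) (interior (pc N i' s' c')) := by
  by_cases hs : s = s'
  · rcases lt_trichotomy i i' with h1 | h1 | h1
    · exact pc_disj_aux hc hc' (Or.inr (Or.inl h1))
    · rcases lt_trichotomy c c' with h2 | h2 | h2
      · exact pc_disj_aux hc hc' (Or.inr (Or.inr ⟨h1, h2⟩))
      · exact absurd ⟨h1, hs, h2⟩ h
      · exact (pc_disj_aux hc' hc (Or.inr (Or.inr ⟨h1.symm, h2⟩))).symm
    · exact (pc_disj_aux hc' hc (Or.inr (Or.inl h1))).symm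
  · exact pc_disj_aux hc hc' (Or.inl hs)

/-! ### The pieces are tiles -/

theorem mem_tr_image {A : Set ℂ} {a z : ℂ} : z ∈ tr a '' A ↔ z - a ∈ A := by
  constructor
  · rintro ⟨w, hw, rfl⟩
    rw [tr_apply, add_sub_cancel_left]; exact hw
  · intro h
    exact ⟨z - a, h, by rw [tr_apply]; ring⟩

theorem mem_refl_image {A : Set ℂ} {a z : ℂ} : z ∈ refl a '' A ↔ -(starRingEnd ℂ) (z - a) ∈ A := by
  constructor
  · rintro ⟨w, hw, rfl⟩
    rw [refl_apply, add_sub_cancel_left, map_neg, Complex.conj_conj, neg_neg]; exact hw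
  · intro h
    refine ⟨_, h, ?_⟩
    rw [refl_apply, map_neg, Complex.conj_conj, neg_neg]; ring

/-- The kind of a piece. -/
def kd (N : ℕ) (i : ℤ) (c : ℕ) : Kind :=
  if c = 2 * N + 1 then Kind.F else if (c : ℤ) = N + i then Kind.M else Kind.U

theorem pc_tile (N : ℕ) (i s : ℤ) (c : ℕ) : ∃ g : ℂ ≃ᵢ ℂ, pc N i s c = g '' tile N (kd N i c) := by
  unfold kd
  by_cases h1 : c = 2 * N + 1
  · rw [if_pos h1]
    refine ⟨tr (((i * (8 * N + 8) : ℝ) : ℂ) + ((16 * s : ℝ) : ℂ) * I), ?_⟩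
    ext z
    rw [mem_tr_image, mem_F, mem_pc, h1, inP_F, Complex.sub_re, Complex.sub_im]
    simp
  rw [if_neg h1]
  rcases lt_trichotomy (c : ℤ) (N + i) with h | h | h
  · rw [if_neg (by omega)]
    refine ⟨tr (((i * (8 * N + 8) + (2 + 4 * c) : ℝ) : ℂ) + ((16 * s : ℝ) : ℂ) * I), ?_⟩
    ext z
    rw [mem_tr_image, mem_U, mem_pc]
    unfold inP
    rw [if_neg h1, if_pos h, Complex.sub_re, Complex.sub_im]
    simp [sub_sub]
  · rw [if_pos h]
    refine ⟨tr (((i * (8 * N + 8) + (4 + 4 * c) : ℝ) : ℂ) + ((16 * s : ℝ) : ℂ) * I), ?_⟩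
    ext z
    rw [mem_tr_image, mem_M, mem_pc]
    unfold inP
    rw [if_neg h1, if_neg (by omega), if_pos h, Complex.sub_re, Complex.sub_im]
    simp [sub_sub]
  · rw [if_neg (by omega)]
    refine ⟨refl (((i * (8 * N + 8) + (6 + 4 * c) : ℝ) : ℂ) + ((16 * s : ℝ) : ℂ) * I), ?_⟩
    ext z
    rw [mem_refl_image, mem_U, mem_pc]
    unfold inP
    rw [if_neg h1, if_neg (by omega), if_neg (by omega)]
    have e1 : (-(starRingEnd ℂ) (z - (((i * (8 * N + 8) + (6 + 4 * c) : ℝ) : ℂ) + ((16 * s : ℝ) : ℂ) * I))).re =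
        6 + 4 * c - (z.re - i * (8 * N + 8)) := by
      rw [Complex.neg_re, Complex.conj_re, Complex.sub_re]
      simp; ring
    have e2 : (-(starRingEnd ℂ) (z - (((i * (8 * N + 8) + (6 + 4 * c) : ℝ) : ℂ) + ((16 * s : ℝ) : ℂ) * I))).im =
        z.im - 16 * s := by
      rw [Complex.neg_im, Complex.conj_im, Complex.sub_im]
      simp
    rw [e1, e2]

end Pool.Agent.K7.H11.Surr
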