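import Pool.Agent.K7.H11.Surr.Cone

/-!
# The three prototiles
-/

set_option autoImplicit false

namespace Pool.Agent.K7.H11.Surr

open Set Complex

/-- A tent function with top at `c` and slope `m`. -/
noncomputable def tent (c m y : ℝ) : ℝ := max 0 (1 - m * |y - c|)

noncomputable def eps (y : ℝ) : ℝ := tent 2 (8 / 5) y
noncomputable def lam (y : ℝ) : ℝ := tent 8 2 y + tent 6 (4 / 3) y

theorem tent_nonneg (c m y : ℝ) : 0 ≤ tent c m y := le_max_left _ _
theorem tent_le_one {c m y : ℝ} (hm : 0 ≤ m) : tent c m y ≤ 1 := by
  apply max_le (by norm_num)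
  have := abs_nonneg (y - c)
  nlinarith
theorem tent_anti {c m a b : ℝ} (hm : 0 ≤ m) (h : |a - c| ≤ |b - c|) : tent c m b ≤ tent c m a := by
  apply max_le_max le_rfl
  nlinarith
theorem tent_zero {c m y : ℝ} (h : 1 ≤ m * |y - c|) : tent c m y = 0 := max_eq_left (by linarith)
theorem tent_of {c m y : ℝ} (h : m * |y - c| ≤ 1) : tent c m y = 1 - m * |y - c| :=
  max_eq_right (by linarith)
theorem tent_top (c m : ℝ) : tent c m c = 1 := by simp [tent]
theorem tent_ge {c m y : ℝ} : 1 - m * |y - c| ≤ tent c m y := le_max_right _ _
theorem continuous_tent (c m : ℝ) : Continuous (tent c m) := by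
  unfold tent; fun_prop
theorem continuous_eps : Continuous eps := continuous_tent _ _
theorem continuous_lam : Continuous lam := (continuous_tent _ _).add (continuous_tent _ _)

theorem eps_nonneg (y : ℝ) : 0 ≤ eps y := tent_nonneg _ _ _
theorem eps_le_one (y : ℝ) : eps y ≤ 1 := tent_le_one (by norm_num)
theorem eps_low {y : ℝ} (h : y ≤ 11 / 8) : eps y = 0 := by
  apply tent_zero
  have : 5 / 8 ≤ |y - 2| := by rw [le_abs]; right; linarith
  linarith
theorem eps_high {y : ℝ} (h : 21 / 8 ≤ y) : eps y = 0 := by
  apply tent_zero
  have : 5 / 8 ≤ |y - 2| := by rw [le_abs]; left; linarith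
  linarith
theorem eps_up {a b : ℝ} (h1 : 2 ≤ a) (h2 : a ≤ b) : eps b ≤ eps a := by
  apply tent_anti (by norm_num)
  rw [abs_of_nonneg (by linarith), abs_of_nonneg (by linarith)]; linarith
theorem eps_down {a b : ℝ} (h1 : a ≤ b) (h2 : b ≤ 2) : eps a ≤ eps b := by
  apply tent_anti (by norm_num)
  rw [abs_of_nonpos (by linarith), abs_of_nonpos (by linarith)]; linarith

theorem lam_nonneg (y : ℝ) : 0 ≤ lam y := add_nonneg (tent_nonneg _ _ _) (tent_nonneg _ _ _)
theorem t8_low {y : ℝ} (h : y ≤ 15 / 2) : tent 8 2 y = 0 := by
  apply tent_zero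
  have : 1 / 2 ≤ |y - 8| := by rw [le_abs]; right; linarith
  linarith
theorem t8_high {y : ℝ} (h : 17 / 2 ≤ y) : tent 8 2 y = 0 := by
  apply tent_zero
  have : 1 / 2 ≤ |y - 8| := by rw [le_abs]; left; linarith
  linarith
theorem t6_low {y : ℝ} (h : y ≤ 21 / 4) : tent 6 (4 / 3) y = 0 := by
  apply tent_zero
  have : 3 / 4 ≤ |y - 6| := by rw [le_abs]; right; linarith
  linarith
theorem t6_high {y : ℝ} (h : 27 / 4 ≤ y) : tent 6 (4 / 3) y = 0 := by
  apply tent_zero
  have : 3 / 4 ≤ |y - 6| := by rw [le_abs]; left; linarith
  linarith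
theorem lam_le_one (y : ℝ) : lam y ≤ 1 := by
  unfold lam
  rcases le_total y (27 / 4) with h | h
  · rw [t8_low (by linarith), zero_add]; exact tent_le_one (by norm_num)
  · rw [t6_high h, add_zero]; exact tent_le_one (by norm_num)
theorem lam_low {y : ℝ} (h : y ≤ 21 / 4) : lam y = 0 := by
  unfold lam; rw [t8_low (by linarith), t6_low h, add_zero]
theorem lam_mid {y : ℝ} (h1 : 27 / 4 ≤ y) (h2 : y ≤ 15 / 2) : lam y = 0 := by
  unfold lam; rw [t8_low h2, t6_high h1, add_zero]
theorem lam_high {y : ℝ} (h : 17 / 2 ≤ y) : lam y = 0 := by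
  unfold lam; rw [t8_high h, t6_high (by linarith), add_zero]
theorem lam_6 {y : ℝ} (h : y ≤ 15 / 2) : lam y = tent 6 (4 / 3) y := by
  unfold lam; rw [t8_low h, zero_add]
theorem lam_8 {y : ℝ} (h : 27 / 4 ≤ y) : lam y = tent 8 2 y := by
  unfold lam; rw [t6_high h, add_zero]

/-- The unit filler. -/
def inU (x y : ℝ) : Prop := 0 ≤ y ∧ y ≤ 4 ∧ 3 / 4 * (y - 3) ≤ |x - 2| ∧ -eps y ≤ x ∧ x ≤ 4 - eps y

/-- The bar with a tooth. -/
def inM (N : ℕ) (x y : ℝ) : Prop :=
  (-4 ≤ y ∧ y ≤ 0 ∧ |x| ≤ 4 * N + 6) ∨ (0 ≤ y ∧ y ≤ 4 ∧ 3 / 4 * (y - 3) ≤ |x| ∧ |x| ≤ 2 + eps y)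

/-- The frame. -/
def inF (N : ℕ) (x y : ℝ) : Prop :=
  (4 ≤ y ∧ y ≤ 12 ∧ -lam y ≤ x ∧ x ≤ 8 * N + 8 - lam y) ∨
  (0 ≤ y ∧ y ≤ 4 ∧ 0 ≤ x ∧ x ≤ 2 - eps y) ∨
  (0 ≤ y ∧ y ≤ 4 ∧ 8 * N + 6 + eps y ≤ x ∧ x ≤ 8 * N + 8) ∨
  (y ≤ 4 ∧ ∃ l : ℕ, l ≤ 2 * N ∧ |x - (4 + 4 * l)| ≤ 3 / 4 * (y - 3))

inductive Kind | F | U | M
  deriving DecidableEq

/-- The prototiles. -/
def tile (N : ℕ) : Kind → Set ℂ
  | Kind.F => {z | inF N z.re z.im}
  | Kind.U => {z | inU z.re z.im}
  | Kind.M => {z | inM N z.re z.im}

theorem mem_F {N : ℕ} {z : ℂ} : z ∈ tile N Kind.F ↔ inF N z.re z.im := Iff.rfl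
theorem mem_U {N : ℕ} {z : ℂ} : z ∈ tile N Kind.U ↔ inU z.re z.im := Iff.rfl
theorem mem_M {N : ℕ} {z : ℂ} : z ∈ tile N Kind.M ↔ inM N z.re z.im := Iff.rfl

theorem fat_rect {X : Set ℂ} {z : ℂ} (x0 x1 y0 y1 : ℝ) (hx : x0 < x1) (hy : y0 < y1)
    (h1 : x0 ≤ z.re) (h2 : z.re ≤ x1) (h3 : y0 ≤ z.im) (h4 : z.im ≤ y1)
    (hsub : ∀ w : ℂ, x0 ≤ w.re → w.re ≤ x1 → y0 ≤ w.im → w.im ≤ y1 → w ∈ X) : Fat X z := by
  refine ⟨if z.re < x1 then x1 else x0, if z.im < y1 then y1 else y0, ?_, ?_, ?_⟩
  · split_ifs with h
    · exact h.ne'
    · push Not at h; intro h'; linarith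
  · split_ifs with h
    · exact h.ne'
    · push Not at h; intro h'; linarith
  · intro w hw1 hw2
    rw [mem_uIcc] at hw1 hw2
    apply hsub
    · split_ifs at hw1 with h
      · rcases hw1 with h5 | h5 <;> linarith [h5.1, h5.2]
      · rcases hw1 with h5 | h5 <;> linarith [h5.1, h5.2]
    · split_ifs at hw1 with h
      · rcases hw1 with h5 | h5 <;> linarith [h5.1, h5.2]
      · rcases hw1 with h5 | h5 <;> linarith [h5.1, h5.2]
    · split_ifs at hw2 with h
      · rcases hw2 with h5 | h5 <;> linarith [h5.1, h5.2]
      · rcases hw2 with h5 | h5 <;> linarith [h5.1, h5.2]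
    · split_ifs at hw2 with h
      · rcases hw2 with h5 | h5 <;> linarith [h5.1, h5.2]
      · rcases hw2 with h5 | h5 <;> linarith [h5.1, h5.2]

theorem fat_U {N : ℕ} {z : ℂ} (hz : z ∈ tile N Kind.U) (hne : ¬ (z.re = -1 ∧ z.im = 2)) :
    Fat (tile N Kind.U) z := by
  obtain ⟨h1, h2, h3, h4, h5⟩ := mem_U.1 hz
  set x := z.re with hx
  set y := z.im with hy
  rcases lt_or_ge 3 y with h | h
  · have he : eps y = 0 := eps_high (by linarith)
    rw [he] at h4 h5
    rcases le_total 2 x with h6 | h6
    · rw [abs_of_nonneg (by linarith)] at h3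
      apply fat_rect (min x (11 / 4)) 4 3 y (by have := min_le_right x (11 / 4); linarith) h
        (min_le_left _ _) (by linarith) h.le le_rfl
      intro w a1 a2 a3 a4
      refine mem_U.2 ⟨by linarith, by linarith, ?_, ?_, ?_⟩
      · have h7 : min x (11 / 4) ≥ 2 := le_min h6 (by norm_num)
        rw [abs_of_nonneg (by linarith)]
        rcases le_total x (11 / 4) with h8 | h8
        · rw [min_eq_left h8] at a1; linarith
        · rw [min_eq_right h8] at a1; linarith
      · have h7 : min x (11 / 4) ≥ 2 := le_min h6 (by norm_num)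
        have := eps_nonneg w.im
        linarith
      · rw [eps_high (by linarith)]; linarith
    · rw [abs_of_nonpos (by linarith)] at h3
      apply fat_rect 0 (max x (5 / 4)) 3 y (by have := le_max_right x (5 / 4); linarith) h
        (by linarith) (le_max_left _ _) h.le le_rfl
      intro w a1 a2 a3 a4
      have h7 : max x (5 / 4) ≤ 2 := max_le h6 (by norm_num)
      refine mem_U.2 ⟨by linarith, by linarith, ?_, ?_, ?_⟩
      · rw [abs_of_nonpos (by linarith)]
        rcases le_total x (5 / 4) with h8 | h8
        · rw [max_eq_right h8] at a2; linarith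
        · rw [max_eq_left h8] at a2; linarith
      · have := eps_nonneg w.im
        linarith
      · rw [eps_high (by linarith)]; linarith
  · rcases le_or_gt 0 x with h0 | h0
    · rcases le_or_gt x 3 with h6 | h6
      · apply fat_rect 0 3 0 3 (by norm_num) (by norm_num) h0 h6 h1 h
        intro w a1 a2 a3 a4
        refine mem_U.2 ⟨by linarith, by linarith, ?_, ?_, ?_⟩
        · have := abs_nonneg (w.re - 2); linarith
        · have := eps_nonneg w.im; linarith
        · have := eps_le_one w.im; linarith
      · rcases le_or_gt y (11 / 8) with h7 | h7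
        · rw [eps_low h7] at h5
          apply fat_rect 3 4 0 (11 / 8) (by norm_num) (by norm_num) h6.le (by linarith) h1 h7
          intro w a1 a2 a3 a4
          refine mem_U.2 ⟨by linarith, by linarith, ?_, ?_, ?_⟩
          · have := abs_nonneg (w.re - 2); linarith
          · have := eps_nonneg w.im; linarith
          · rw [eps_low (by linarith)]; linarith
        rcases le_or_gt (21 / 8) y with h8 | h8
        · rw [eps_high h8] at h5
          apply fat_rect 3 4 (21 / 8) 3 (by norm_num) (by norm_num) h6.le (by linarith) h8 h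
          intro w a1 a2 a3 a4
          refine mem_U.2 ⟨by linarith, by linarith, ?_, ?_, ?_⟩
          · have := abs_nonneg (w.re - 2); linarith
          · have := eps_nonneg w.im; linarith
          · rw [eps_high (by linarith)]; linarith
        rcases lt_trichotomy y 2 with h9 | h9 | h9
        · apply fat_rect 3 x (11 / 8) y h6 h7 h6.le le_rfl h7.le le_rfl
          intro w a1 a2 a3 a4
          refine mem_U.2 ⟨by linarith, by linarith, ?_, ?_, ?_⟩
          · have := abs_nonneg (w.re - 2); linarith
          · have := eps_nonneg w.im; linarith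
          · have := eps_down a4 h9.le; linarith
        · rw [h9] at h5
          have : eps 2 = 1 := tent_top _ _
          rw [this] at h5; linarith
        · apply fat_rect 3 x y (21 / 8) h6 h8 h6.le le_rfl le_rfl h8.le
          intro w a1 a2 a3 a4
          refine mem_U.2 ⟨by linarith, by linarith, ?_, ?_, ?_⟩
          · have := abs_nonneg (w.re - 2); linarith
          · have := eps_nonneg w.im; linarith
          · have := eps_up h9.le a3; linarith
    · have hlow : 11 / 8 < y := by
        by_contra hc; push Not at hc; rw [eps_low hc] at h4; linarith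
      have hhigh : y < 21 / 8 := by
        by_contra hc; push Not at hc; rw [eps_high hc] at h4; linarith
      rcases lt_trichotomy y 2 with h9 | h9 | h9
      · apply fat_rect x 0 y 2 h0 h9 le_rfl h0.le le_rfl h9.le
        intro w a1 a2 a3 a4
        refine mem_U.2 ⟨by linarith, by linarith, ?_, ?_, ?_⟩
        · have := abs_nonneg (w.re - 2); linarith
        · have := eps_down a3 a4; linarith
        · have := eps_le_one w.im; linarith
      · have hx1 : -1 < x := by
          have h10 : -1 ≤ x := by have := eps_le_one y; linarith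
          rcases h10.lt_or_eq with h11 | h11
          · exact h11
          · exact absurd ⟨h11.symm, h9⟩ hne
        apply fat_rect x 0 2 (2 + 5 / 8 * (1 + x)) h0 (by linarith) le_rfl h0.le h9.ge (by linarith)
        intro w a1 a2 a3 a4
        refine mem_U.2 ⟨by linarith, by linarith, ?_, ?_, ?_⟩
        · have := abs_nonneg (w.re - 2); linarith
        · have : 1 - 8 / 5 * |w.im - 2| ≤ eps w.im := tent_ge
          rw [abs_of_nonneg (by linarith)] at this
          linarith
        · have := eps_le_one w.im; linarith
      · apply fat_rect x 0 2 y h0 h9 le_rfl h0.le h9.le le_rfl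
        intro w a1 a2 a3 a4
        refine mem_U.2 ⟨by linarith, by linarith, ?_, ?_, ?_⟩
        · have := abs_nonneg (w.re - 2); linarith
        · have := eps_up a3 a4; linarith
        · have := eps_le_one w.im; linarith

theorem fat_M {N : ℕ} {z : ℂ} (hz : z ∈ tile N Kind.M) (hne : ¬ (z.re = -3 ∧ z.im = 2))
    (hne' : ¬ (z.re = 3 ∧ z.im = 2)) : Fat (tile N Kind.M) z := by
  have hN : (0 : ℝ) ≤ N := Nat.cast_nonneg N
  rcases mem_M.1 hz with ⟨h1, h2, h3⟩ | ⟨h1, h2, h3, h4⟩
  · rw [abs_le] at h3
    apply fat_rect (-(4 * N + 6)) (4 * N + 6) (-4) 0 (by linarith) (by norm_num) h3.1 h3.2 h1 h2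
    intro w a1 a2 a3 a4
    exact mem_M.2 (Or.inl ⟨a3, a4, abs_le.2 ⟨a1, a2⟩⟩)
  set x := z.re with hx
  set y := z.im with hy
  rcases lt_or_ge 3 y with h | h
  · have he : eps y = 0 := eps_high (by linarith)
    rw [he, add_zero] at h4
    have h4' := abs_le.1 h4
    rcases le_total 0 x with h6 | h6
    · rw [abs_of_nonneg h6] at h3
      have h7 : 0 ≤ min x (3 / 4) := le_min h6 (by norm_num)
      apply fat_rect (min x (3 / 4)) 2 3 y (by have := min_le_right x (3 / 4); linarith) h
        (min_le_left _ _) (by linarith) h.le le_rfl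
      intro w a1 a2 a3 a4
      refine mem_M.2 (Or.inr ⟨by linarith, by linarith, ?_, ?_⟩)
      · rw [abs_of_nonneg (by linarith)]
        rcases le_total x (3 / 4) with h8 | h8
        · rw [min_eq_left h8] at a1; linarith
        · rw [min_eq_right h8] at a1; linarith
      · rw [abs_of_nonneg (by linarith)]
        have := eps_nonneg w.im; linarith
    · rw [abs_of_nonpos h6] at h3
      have h7 : max x (-(3 / 4)) ≤ 0 := max_le h6 (by norm_num)
      apply fat_rect (-2) (max x (-(3 / 4))) 3 y (by have := le_max_right x (-(3 / 4)); linarith) h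
        (by linarith) (le_max_left _ _) h.le le_rfl
      intro w a1 a2 a3 a4
      refine mem_M.2 (Or.inr ⟨by linarith, by linarith, ?_, ?_⟩)
      · rw [abs_of_nonpos (by linarith)]
        rcases le_total x (-(3 / 4)) with h8 | h8
        · rw [max_eq_right h8] at a2; linarith
        · rw [max_eq_left h8] at a2; linarith
      · rw [abs_of_nonpos (by linarith)]
        have := eps_nonneg w.im; linarith
  · rcases le_or_gt |x| 2 with h0 | h0
    · rw [abs_le] at h0
      apply fat_rect (-2) 2 0 3 (by norm_num) (by norm_num) h0.1 h0.2 h1 h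
      intro w a1 a2 a3 a4
      refine mem_M.2 (Or.inr ⟨by linarith, by linarith, ?_, ?_⟩)
      · have := abs_nonneg w.re; linarith
      · have := eps_nonneg w.im
        rw [abs_le]; constructor <;> linarith
    · have hlow : 11 / 8 < y := by
        by_contra hc; push Not at hc; rw [eps_low hc] at h4; linarith
      have hhigh : y < 21 / 8 := by
        by_contra hc; push Not at hc; rw [eps_high hc] at h4; linarith
      rcases lt_abs.1 h0 with h6 | h6
      · rw [abs_of_pos (by linarith)] at h4
        rcases lt_trichotomy y 2 with h9 | h9 | h9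
        · apply fat_rect 2 x y 2 h6 h9 h6.le le_rfl le_rfl h9.le
          intro w a1 a2 a3 a4
          refine mem_M.2 (Or.inr ⟨by linarith, by linarith, ?_, ?_⟩)
          · have := abs_nonneg w.re; linarith
          · rw [abs_of_nonneg (by linarith)]
            have := eps_down a3 a4; linarith
        · have hx1 : x < 3 := by
            have h10 : x ≤ 3 := by have := eps_le_one y; linarith
            rcases h10.lt_or_eq with h11 | h11
            · exact h11
            · exact absurd ⟨h11, h9⟩ hne'
          apply fat_rect 2 x 2 (2 + 5 / 8 * (3 - x)) h6 (by linarith) h6.le le_rfl h9.ge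
            (by linarith)
          intro w a1 a2 a3 a4
          refine mem_M.2 (Or.inr ⟨by linarith, by linarith, ?_, ?_⟩)
          · have := abs_nonneg w.re; linarith
          · rw [abs_of_nonneg (by linarith)]
            have : 1 - 8 / 5 * |w.im - 2| ≤ eps w.im := tent_ge
            rw [abs_of_nonneg (by linarith)] at this
            linarith
        · apply fat_rect 2 x 2 y h6 h9 h6.le le_rfl h9.le le_rfl
          intro w a1 a2 a3 a4
          refine mem_M.2 (Or.inr ⟨by linarith, by linarith, ?_, ?_⟩)
          · have := abs_nonneg w.re; linarith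
          · rw [abs_of_nonneg (by linarith)]
            have := eps_up a3 a4; linarith
      · rw [abs_of_neg (by linarith)] at h4
        rcases lt_trichotomy y 2 with h9 | h9 | h9
        · apply fat_rect x (-2) y 2 (by linarith) h9 le_rfl (by linarith) le_rfl h9.le
          intro w a1 a2 a3 a4
          refine mem_M.2 (Or.inr ⟨by linarith, by linarith, ?_, ?_⟩)
          · have := abs_nonneg w.re; linarith
          · rw [abs_of_nonpos (by linarith)]
            have := eps_down a3 a4; linarith
        · have hx1 : -3 < x := by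
            have h10 : -3 ≤ x := by have := eps_le_one y; linarith
            rcases h10.lt_or_eq with h11 | h11
            · exact h11
            · exact absurd ⟨h11.symm, h9⟩ hne
          apply fat_rect x (-2) 2 (2 + 5 / 8 * (3 + x)) (by linarith) (by linarith) le_rfl
            (by linarith) h9.ge (by linarith)
          intro w a1 a2 a3 a4
          refine mem_M.2 (Or.inr ⟨by linarith, by linarith, ?_, ?_⟩)
          · have := abs_nonneg w.re; linarith
          · rw [abs_of_nonpos (by linarith)]
            have : 1 - 8 / 5 * |w.im - 2| ≤ eps w.im := tent_ge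
            rw [abs_of_nonneg (by linarith)] at this
            linarith
        · apply fat_rect x (-2) 2 y (by linarith) h9 le_rfl (by linarith) h9.le le_rfl
          intro w a1 a2 a3 a4
          refine mem_M.2 (Or.inr ⟨by linarith, by linarith, ?_, ?_⟩)
          · have := abs_nonneg w.re; linarith
          · rw [abs_of_nonpos (by linarith)]
            have := eps_up a3 a4; linarith

theorem fat_F {N : ℕ} {z : ℂ} (hz : z ∈ tile N Kind.F) (hne : ¬ (z.re = -1 ∧ z.im = 8))
    (hne' : ¬ (z.re = -1 ∧ z.im = 6)) (hne'' : ∀ l : ℕ, l ≤ 2 * N → ¬ (z.re = 4 + 4 * l ∧ z.im = 3)) :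
    Fat (tile N Kind.F) z := by
  have hN : (0 : ℝ) ≤ N := Nat.cast_nonneg N
  have bar : ∀ w : ℂ, 4 ≤ w.im → w.im ≤ 12 → -lam w.im ≤ w.re → w.re ≤ 8 * N + 8 - lam w.im →
      w ∈ tile N Kind.F := fun w a1 a2 a3 a4 => mem_F.2 (Or.inl ⟨a1, a2, a3, a4⟩)
  have big : ∀ w : ℂ, 0 ≤ w.re → w.re ≤ 8 * N + 7 → 4 ≤ w.im → w.im ≤ 12 → w ∈ tile N Kind.F := by
    intro w a1 a2 a3 a4
    have h1 := lam_nonneg w.im
    have h2 := lam_le_one w.im
    exact bar w a3 a4 (by linarith) (by linarith)
  set x := z.re with hx
  set y := z.im with hy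
  rcases mem_F.1 hz with ⟨h1, h2, h3, h4⟩ | ⟨h1, h2, h3, h4⟩ | ⟨h1, h2, h3, h4⟩ | ⟨h2, l, hl, h4⟩
  · rcases lt_or_ge x 0 with h0 | h0
    · -- left bumps
      have hl : 0 < lam y := by linarith
      rcases le_total y 7 with h5 | h5
      · have e := lam_6 (y := y) (by linarith)
        have hb1 : 21 / 4 < y := by
          by_contra hc; push Not at hc; rw [lam_low hc] at hl; linarith
        have hb2 : y < 27 / 4 := by
          by_contra hc; push Not at hc; rw [lam_mid hc (by linarith)] at hl; linarith
        rw [e] at h3
        rcases lt_trichotomy y 6 with h9 | h9 | h9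
        · apply fat_rect x 0 y 6 h0 h9 le_rfl h0.le le_rfl h9.le
          intro w a1 a2 a3 a4
          apply bar w (by linarith) (by linarith)
          · rw [lam_6 (by linarith)]
            have := tent_anti (c := 6) (m := 4 / 3) (a := w.im) (b := y) (by norm_num)
              (by rw [abs_of_nonpos (by linarith), abs_of_nonpos (by linarith)]; linarith)
            linarith
          · have := lam_le_one w.im; linarith
        · have hx1 : -1 < x := by
            have h10 : -1 ≤ x := by
              have := tent_le_one (c := 6) (m := 4 / 3) (y := y) (by norm_num); linarith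
            rcases h10.lt_or_eq with h11 | h11
            · exact h11
            · exact absurd ⟨h11.symm, h9⟩ hne'
          apply fat_rect x 0 6 (6 + 3 / 4 * (1 + x)) h0 (by linarith) le_rfl h0.le h9.ge (by linarith)
          intro w a1 a2 a3 a4
          apply bar w (by linarith) (by linarith)
          · rw [lam_6 (by linarith)]
            have : 1 - 4 / 3 * |w.im - 6| ≤ tent 6 (4 / 3) w.im := tent_ge
            rw [abs_of_nonneg (by linarith)] at this
            linarith
          · have := lam_le_one w.im; linarith
        · apply fat_rect x 0 6 y h0 h9 le_rfl h0.le h9.le le_rfl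
          intro w a1 a2 a3 a4
          apply bar w (by linarith) (by linarith)
          · rw [lam_6 (by linarith)]
            have := tent_anti (c := 6) (m := 4 / 3) (a := w.im) (b := y) (by norm_num)
              (by rw [abs_of_nonneg (by linarith), abs_of_nonneg (by linarith)]; linarith)
            linarith
          · have := lam_le_one w.im; linarith
      · have e := lam_8 (y := y) (by linarith)
        have hb1 : 15 / 2 < y := by
          by_contra hc; push Not at hc; rw [lam_mid (by linarith) hc] at hl; linarith
        have hb2 : y < 17 / 2 := by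
          by_contra hc; push Not at hc; rw [lam_high hc] at hl; linarith
        rw [e] at h3
        rcases lt_trichotomy y 8 with h9 | h9 | h9
        · apply fat_rect x 0 y 8 h0 h9 le_rfl h0.le le_rfl h9.le
          intro w a1 a2 a3 a4
          apply bar w (by linarith) (by linarith)
          · rw [lam_8 (by linarith)]
            have := tent_anti (c := 8) (m := 2) (a := w.im) (b := y) (by norm_num)
              (by rw [abs_of_nonpos (by linarith), abs_of_nonpos (by linarith)]; linarith)
            linarith
          · have := lam_le_one w.im; linarith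
        · have hx1 : -1 < x := by
            have h10 : -1 ≤ x := by
              have := tent_le_one (c := 8) (m := 2) (y := y) (by norm_num); linarith
            rcases h10.lt_or_eq with h11 | h11
            · exact h11
            · exact absurd ⟨h11.symm, h9⟩ hne
          apply fat_rect x 0 8 (8 + 1 / 2 * (1 + x)) h0 (by linarith) le_rfl h0.le h9.ge (by linarith)
          intro w a1 a2 a3 a4
          apply bar w (by linarith) (by linarith)
          · rw [lam_8 (by linarith)]
            have : 1 - 2 * |w.im - 8| ≤ tent 8 2 w.im := tent_ge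
            rw [abs_of_nonneg (by linarith)] at this
            linarith
          · have := lam_le_one w.im; linarith
        · apply fat_rect x 0 8 y h0 h9 le_rfl h0.le h9.le le_rfl
          intro w a1 a2 a3 a4
          apply bar w (by linarith) (by linarith)
          · rw [lam_8 (by linarith)]
            have := tent_anti (c := 8) (m := 2) (a := w.im) (b := y) (by norm_num)
              (by rw [abs_of_nonneg (by linarith), abs_of_nonneg (by linarith)]; linarith)
            linarith
          · have := lam_le_one w.im; linarith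
    · rcases le_or_gt x (8 * N + 7) with h6 | h6
      · exact fat_rect 0 (8 * N + 7) 4 12 (by linarith) (by norm_num) h0 h6 h1 h2 big
      · -- right dents
        rcases le_or_gt y (21 / 4) with h7 | h7
        · apply fat_rect (8 * N + 7) (8 * N + 8) 4 (21 / 4) (by linarith) (by norm_num) h6.le
            (by have := lam_nonneg y; linarith) h1 h7
          intro w a1 a2 a3 a4
          apply bar w (by linarith) (by linarith)
          · have := lam_nonneg w.im; linarith
          · rw [lam_low (by linarith)]; linarith
        rcases le_or_gt (17 / 2) y with h8 | h8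
        · apply fat_rect (8 * N + 7) (8 * N + 8) (17 / 2) 12 (by linarith) (by norm_num) h6.le
            (by have := lam_nonneg y; linarith) h8 h2
          intro w a1 a2 a3 a4
          apply bar w (by linarith) (by linarith)
          · have := lam_nonneg w.im; linarith
          · rw [lam_high (by linarith)]; linarith
        rcases le_or_gt y (15 / 2) with h9 | h9
        · rcases le_or_gt (27 / 4) y with h10 | h10
          · apply fat_rect (8 * N + 7) (8 * N + 8) (27 / 4) (15 / 2) (by linarith) (by norm_num) h6.le
              (by have := lam_nonneg y; linarith) h10 h9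
            intro w a1 a2 a3 a4
            apply bar w (by linarith) (by linarith)
            · have := lam_nonneg w.im; linarith
            · rw [lam_mid (by linarith) (by linarith)]; linarith
          · rw [lam_6 h9] at h4
            rcases lt_trichotomy y 6 with h11 | h11 | h11
            · apply fat_rect (8 * N + 7) x (21 / 4) y h6 h7 h6.le le_rfl h7.le le_rfl
              intro w a1 a2 a3 a4
              apply bar w (by linarith) (by linarith)
              · have := lam_nonneg w.im; linarith
              · rw [lam_6 (by linarith)]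
                have := tent_anti (c := 6) (m := 4 / 3) (a := y) (b := w.im) (by norm_num)
                  (by rw [abs_of_nonpos (by linarith), abs_of_nonpos (by linarith)]; linarith)
                linarith
            · rw [h11, tent_top] at h4; linarith
            · apply fat_rect (8 * N + 7) x y (27 / 4) h6 h10 h6.le le_rfl le_rfl h10.le
              intro w a1 a2 a3 a4
              apply bar w (by linarith) (by linarith)
              · have := lam_nonneg w.im; linarith
              · rw [lam_6 (by linarith)]
                have := tent_anti (c := 6) (m := 4 / 3) (a := y) (b := w.im) (by norm_num)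
                  (by rw [abs_of_nonneg (by linarith), abs_of_nonneg (by linarith)]; linarith)
                linarith
        · rw [lam_8 (by linarith)] at h4
          rcases lt_trichotomy y 8 with h11 | h11 | h11
          · apply fat_rect (8 * N + 7) x (15 / 2) y h6 h9 h6.le le_rfl h9.le le_rfl
            intro w a1 a2 a3 a4
            apply bar w (by linarith) (by linarith)
            · have := lam_nonneg w.im; linarith
            · rw [lam_8 (by linarith)]
              have := tent_anti (c := 8) (m := 2) (a := y) (b := w.im) (by norm_num)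
                (by rw [abs_of_nonpos (by linarith), abs_of_nonpos (by linarith)]; linarith)
              linarith
          · rw [show z.im = 8 from h11, tent_top] at h4; linarith
          · apply fat_rect (8 * N + 7) x y (17 / 2) h6 h8 h6.le le_rfl le_rfl h8.le
            intro w a1 a2 a3 a4
            apply bar w (by linarith) (by linarith)
            · have := lam_nonneg w.im; linarith
            · rw [lam_8 (by linarith)]
              have := tent_anti (c := 8) (m := 2) (a := y) (b := w.im) (by norm_num)
                (by rw [abs_of_nonneg (by linarith), abs_of_nonneg (by linarith)]; linarith)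
              linarith
  · -- left leg
    have leg : ∀ w : ℂ, 0 ≤ w.im → w.im ≤ 4 → 0 ≤ w.re → w.re ≤ 2 - eps w.im → w ∈ tile N Kind.F :=
      fun w a1 a2 a3 a4 => mem_F.2 (Or.inr (Or.inl ⟨a1, a2, a3, a4⟩))
    rcases le_or_gt x 1 with h5 | h5
    · apply fat_rect 0 1 0 4 (by norm_num) (by norm_num) h3 h5 h1 h2
      intro w a1 a2 a3 a4
      exact leg w a3 a4 a1 (by have := eps_le_one w.im; linarith)
    rcases le_or_gt y (11 / 8) with h7 | h7
    · rw [eps_low h7] at h4
      apply fat_rect 0 2 0 (11 / 8) (by norm_num) (by norm_num) h3 (by linarith) h1 h7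
      intro w a1 a2 a3 a4
      exact leg w a3 (by linarith) a1 (by rw [eps_low (by linarith)]; linarith)
    rcases le_or_gt (21 / 8) y with h8 | h8
    · rw [eps_high h8] at h4
      apply fat_rect 0 2 (21 / 8) 4 (by norm_num) (by norm_num) h3 (by linarith) h8 h2
      intro w a1 a2 a3 a4
      exact leg w (by linarith) (by linarith) a1 (by rw [eps_high (by linarith)]; linarith)
    rcases lt_trichotomy y 2 with h9 | h9 | h9
    · apply fat_rect 1 x (11 / 8) y h5 h7 h5.le le_rfl h7.le le_rfl
      intro w a1 a2 a3 a4
      exact leg w (by linarith) (by linarith) (by linarith) (by have := eps_down a4 h9.le; linarith)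
    · rw [show z.im = 2 from h9] at h4
      have : eps 2 = 1 := tent_top _ _
      rw [this] at h4; linarith
    · apply fat_rect 1 x y (21 / 8) h5 h8 h5.le le_rfl le_rfl h8.le
      intro w a1 a2 a3 a4
      exact leg w (by linarith) (by linarith) (by linarith) (by have := eps_up h9.le a3; linarith)
  · -- right leg
    have leg : ∀ w : ℂ, 0 ≤ w.im → w.im ≤ 4 → 8 * N + 6 + eps w.im ≤ w.re → w.re ≤ 8 * N + 8 →
        w ∈ tile N Kind.F :=
      fun w a1 a2 a3 a4 => mem_F.2 (Or.inr (Or.inr (Or.inl ⟨a1, a2, a3, a4⟩)))
    rcases le_or_gt (8 * N + 7 : ℝ) x with h5 | h5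
    · apply fat_rect (8 * N + 7) (8 * N + 8) 0 4 (by linarith) (by norm_num) h5 h4 h1 h2
      intro w a1 a2 a3 a4
      exact leg w a3 a4 (by have := eps_le_one w.im; linarith) a2
    rcases le_or_gt y (11 / 8) with h7 | h7
    · rw [eps_low h7] at h3
      apply fat_rect (8 * N + 6) (8 * N + 8) 0 (11 / 8) (by linarith) (by norm_num) (by linarith) h4 h1 h7
      intro w a1 a2 a3 a4
      exact leg w a3 (by linarith) (by rw [eps_low (by linarith)]; linarith) a2
    rcases le_or_gt (21 / 8) y with h8 | h8
    · rw [eps_high h8] at h3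
      apply fat_rect (8 * N + 6) (8 * N + 8) (21 / 8) 4 (by linarith) (by norm_num) (by linarith) h4 h8 h2
      intro w a1 a2 a3 a4
      exact leg w (by linarith) (by linarith) (by rw [eps_high (by linarith)]; linarith) a2
    rcases lt_trichotomy y 2 with h9 | h9 | h9
    · apply fat_rect x (8 * N + 7) (11 / 8) y h5 h7 le_rfl h5.le h7.le le_rfl
      intro w a1 a2 a3 a4
      exact leg w (by linarith) (by linarith) (by have := eps_down a4 h9.le; linarith) (by linarith)
    · rw [show z.im = 2 from h9] at h3
      have : eps 2 = 1 := tent_top _ _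
      rw [this] at h3; linarith
    · apply fat_rect x (8 * N + 7) y (21 / 8) h5 h8 le_rfl h5.le le_rfl h8.le
      intro w a1 a2 a3 a4
      exact leg w (by linarith) (by linarith) (by have := eps_up h9.le a3; linarith) (by linarith)
  · -- ceiling bumps
    have hl' : (l : ℝ) ≤ 2 * N := by exact_mod_cast hl
    have hl0 : (0 : ℝ) ≤ l := Nat.cast_nonneg l
    have tri : ∀ w : ℂ, w.im ≤ 4 → |w.re - (4 + 4 * l)| ≤ 3 / 4 * (w.im - 3) → w ∈ tile N Kind.F :=
      fun w a1 a2 => mem_F.2 (Or.inr (Or.inr (Or.inr ⟨a1, l, hl, a2⟩)))
    have h5 := abs_le.1 h4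
    have hy3 : 3 ≤ y := by have := abs_nonneg (x - (4 + 4 * l)); linarith
    rcases h2.lt_or_eq with h6 | h6
    · rcases lt_trichotomy x (4 + 4 * l) with h7 | h7 | h7
      · apply fat_rect x (4 + 4 * l) y 4 h7 h6 le_rfl h7.le le_rfl h6.le
        intro w a1 a2 a3 a4
        apply tri w a4
        rw [abs_of_nonpos (by linarith)]
        linarith
      · have hy4 : 3 < y := by
          rcases hy3.lt_or_eq with h8 | h8
          · exact h8
          · exact absurd ⟨h7, h8.symm⟩ (hne'' l hl)
        apply fat_rect (4 + 4 * l) (4 + 4 * l + 3 / 4 * (y - 3)) y 4 (by linarith) h6 h7.ge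
          (by linarith) le_rfl h6.le
        intro w a1 a2 a3 a4
        apply tri w a4
        rw [abs_of_nonneg (by linarith)]
        linarith
      · apply fat_rect (4 + 4 * l) x y 4 h7 h6 h7.le le_rfl le_rfl h6.le
        intro w a1 a2 a3 a4
        apply tri w a4
        rw [abs_of_nonneg (by linarith)]
        linarith
    · apply fat_rect 0 (8 * N + 7) 4 12 (by linarith) (by norm_num) (by linarith) (by linarith)
        h6.ge (by linarith) big

end Pool.Agent.K7.H11.Surr
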