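import Pool.Agent.K7.H11.Surr.Patch
import Pool.Agent.K7.H11.Surr.DiskF

/-!
# The patches: their unions
-/

set_option autoImplicit false

namespace Pool.Agent.K7.H11.Surr

open Set Complex Pool.Agent.R175.Disk

theorem exists_cell {L t : ℝ} (hL : 0 < L) {j : ℕ} (h1 : -(j : ℝ) * L ≤ t) (h2 : t ≤ ((j : ℝ) + 1) * L) :
    ∃ i : ℤ, (-(j : ℤ) ≤ i ∧ i ≤ j) ∧ (i : ℝ) * L ≤ t ∧ t ≤ ((i : ℝ) + 1) * L := by
  rcases h2.eq_or_lt with h | h
  · refine ⟨j, ⟨by omega, le_rfl⟩, ?_, ?_⟩
    · push_cast; rw [h]; nlinarith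
    · push_cast; exact h2
  · refine ⟨⌊t / L⌋, ⟨?_, ?_⟩, ?_, ?_⟩
    · rw [Int.le_floor, le_div_iff₀ hL]; push_cast; exact h1
    · have : ⌊t / L⌋ < (j : ℤ) + 1 := by
        rw [Int.floor_lt, div_lt_iff₀ hL]; push_cast; exact h
      omega
    · rw [← le_div_iff₀ hL]; exact Int.floor_le _
    · rw [← div_le_iff₀ hL]; exact (Int.lt_floor_add_one _).le

/-- The rows. -/
def rowM (N j : ℕ) (s : ℤ) : Set ℂ :=
  rct (-(j : ℝ) * (8 * N + 12) - 2) (((j : ℝ) + 1) * (8 * N + 12) - 2) (16 * s - 4) (16 * s)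

def rowC (N j : ℕ) (s : ℤ) : Set ℂ :=
  rct (-(j : ℝ) * (8 * N + 8)) (((j : ℝ) + 1) * (8 * N + 8)) (16 * s - 4) (16 * s)

def rowF (N j : ℕ) (s : ℤ) : Set ℂ :=
  {z | (16 * (s : ℝ) ≤ z.im ∧ z.im ≤ 16 * s + 12) ∧ -(j : ℝ) * (8 * N + 8) ≤ z.re + lam (z.im - 16 * s) ∧
    z.re + lam (z.im - 16 * s) ≤ ((j : ℝ) + 1) * (8 * N + 8)}

theorem rowF_closed (N j : ℕ) (s : ℤ) : IsClosed (rowF N j s) := by
  have := continuous_lam
  have a1 : IsClosed {z : ℂ | 16 * (s : ℝ) ≤ z.im} := isClosed_le (by fun_prop) (by fun_prop)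
  have a2 : IsClosed {z : ℂ | z.im ≤ 16 * (s : ℝ) + 12} := isClosed_le (by fun_prop) (by fun_prop)
  have a3 : IsClosed {z : ℂ | -(j : ℝ) * (8 * N + 8) ≤ z.re + lam (z.im - 16 * s)} :=
    isClosed_le (by fun_prop) (by fun_prop)
  have a4 : IsClosed {z : ℂ | z.re + lam (z.im - 16 * s) ≤ ((j : ℝ) + 1) * (8 * N + 8)} :=
    isClosed_le (by fun_prop) (by fun_prop)
  exact (a1.inter a2).inter (a3.inter a4)

/-- The union of the patch. -/
def KK (N j : ℕ) : Set ℂ := {z | ∃ s : ℤ, (-(j : ℤ) ≤ s ∧ s ≤ j) ∧ (z ∈ rowM N j s ∨ z ∈ rowF N j s)}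

open Classical in
/-- Intermediate regions. -/
def XX (N j : ℕ) (T : Finset ℤ) : Set ℂ :=
  {z | ∃ s : ℤ, (-(j : ℤ) ≤ s ∧ s ≤ j) ∧ (z ∈ (if s ∈ T then rowM N j s else rowC N j s) ∨ z ∈ rowF N j s)}

theorem closed_union {j : ℕ} {A : ℤ → Set ℂ} (hA : ∀ t, IsClosed (A t)) :
    IsClosed {z | ∃ t : ℤ, (-(j : ℤ) ≤ t ∧ t ≤ j) ∧ z ∈ A t} := by
  have h1 : IsClosed (⋃ t ∈ Set.Icc (-(j : ℤ)) j, A t) :=
    (Set.finite_Icc _ _).isClosed_biUnion (fun t _ => hA t)
  convert h1 using 1
  ext z
  simp only [mem_iUnion, Set.mem_Icc, exists_prop]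
  rfl

noncomputable def Lam (j : ℕ) (y : ℝ) : ℝ := ∑ s ∈ Finset.Icc (-(j : ℤ)) j, lam (y - 16 * s)

theorem continuous_Lam (j : ℕ) : Continuous (Lam j) := by
  unfold Lam
  apply continuous_finsetSum
  intro s _
  exact continuous_lam.comp (by fun_prop)

theorem Lam_eq {j : ℕ} {s : ℤ} (hs : -(j : ℤ) ≤ s ∧ s ≤ j) {y : ℝ} (h1 : 16 * (s : ℝ) - 4 ≤ y)
    (h2 : y ≤ 16 * s + 12) : Lam j y = lam (y - 16 * s) := by
  unfold Lam
  apply Finset.sum_eq_single s
  · intro t _ hts
    rcases lt_or_gt_of_ne hts with h | h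
    · have : (t : ℝ) + 1 ≤ s := by exact_mod_cast h
      exact lam_high (by linarith)
    · have : (s : ℝ) + 1 ≤ t := by exact_mod_cast h
      exact lam_low (by linarith)
  · intro h
    exact absurd (Finset.mem_Icc.2 hs) h

theorem disk_XX0 (N j : ℕ) : IsDisk (XX N j ∅) := by
  have hN : (0 : ℝ) ≤ N := Nat.cast_nonneg N
  have hj : (0 : ℝ) ≤ j := Nat.cast_nonneg j
  have h1 : IsDisk (rct (-(j : ℝ) * (8 * N + 8)) (((j : ℝ) + 1) * (8 * N + 8)) (-(j : ℝ) * 16 - 4)
      (((j : ℝ) + 1) * 16 - 4)) := disk_rct (by nlinarith) (by linarith)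
  have h2 := disk_shear h1 (continuous_Lam j)
  convert h2 using 1
  ext z
  have e1 : (z + ((Lam j z.im : ℝ) : ℂ)).re = z.re + Lam j z.im := by simp
  have e2 : (z + ((Lam j z.im : ℝ) : ℂ)).im = z.im := by simp
  constructor
  · rintro ⟨s, hs, hz⟩
    rw [Set.mem_ofPred_eq, mem_rct, e1, e2]
    have hs1 : -(j : ℝ) ≤ s := by exact_mod_cast hs.1
    have hs2 : (s : ℝ) ≤ j := by exact_mod_cast hs.2
    rw [if_neg (Finset.notMem_empty s)] at hz
    rcases hz with hz | ⟨⟨a1, a2⟩, a3, a4⟩
    · rw [rowC, mem_rct] at hz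
      rw [Lam_eq hs hz.2.1 (by linarith [hz.2.2]), lam_low (by linarith [hz.2.2]), add_zero]
      exact ⟨hz.1, by linarith [hz.2.1], by linarith [hz.2.2]⟩
    · rw [Lam_eq hs (by linarith) a2]
      exact ⟨⟨a3, a4⟩, by linarith, by linarith⟩
  · intro hz
    rw [Set.mem_ofPred_eq, mem_rct, e1, e2] at hz
    obtain ⟨s, hs, h3, h4⟩ := exists_cell (L := 16) (t := z.im + 4) (j := j) (by norm_num)
      (by linarith [hz.2.1]) (by linarith [hz.2.2])
    refine ⟨s, hs, ?_⟩
    rw [if_neg (Finset.notMem_empty s)]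
    rw [Lam_eq hs (by linarith) (by linarith)] at hz
    rcases le_total z.im (16 * s) with h | h
    · left
      rw [rowC, mem_rct]
      rw [lam_low (by linarith), add_zero] at hz
      exact ⟨hz.1, by linarith, h⟩
    · right
      exact ⟨⟨h, by linarith⟩, hz.1⟩

theorem disk_XX (N j : ℕ) (T : Finset ℤ) : IsDisk (XX N j T) := by
  classical
  have hN : (0 : ℝ) ≤ N := Nat.cast_nonneg N
  have hj : (0 : ℝ) ≤ j := Nat.cast_nonneg j
  induction T using Finset.induction_on with
  | empty => exact disk_XX0 N j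
  | insert s T hsT ih =>
    by_cases hs : -(j : ℤ) ≤ s ∧ s ≤ j
    · set A : ℤ → Set ℂ := fun t => (if t = s then ∅ else if t ∈ T then rowM N j t else rowC N j t) ∪
        rowF N j t with hA
      set W : Set ℂ := {z | ∃ t : ℤ, (-(j : ℤ) ≤ t ∧ t ≤ j) ∧ z ∈ A t} with hW
      have cW : IsClosed W := by
        apply closed_union
        intro t
        rw [hA]
        apply IsClosed.union _ (rowF_closed N j t)
        split_ifs
        · exact isClosed_empty
        · exact (rct_compact _ _ _ _).isClosed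
        · exact (rct_compact _ _ _ _).isClosed
      have e1 : XX N j (insert s T) = W ∪ rowM N j s := by
        ext z
        constructor
        · rintro ⟨t, ht, hz⟩
          by_cases hts : t = s
          · subst hts
            rw [if_pos (Finset.mem_insert_self _ _)] at hz
            rcases hz with hz | hz
            · exact Or.inr hz
            · exact Or.inl ⟨t, ht, Or.inr hz⟩
          · left
            refine ⟨t, ht, ?_⟩
            rw [hA]
            change z ∈ (if t = s then ∅ else if t ∈ T then rowM N j t else rowC N j t) ∪ rowF N j t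
            rw [if_neg hts]
            rcases hz with hz | hz
            · left
              by_cases htT : t ∈ T
              · rw [if_pos (Finset.mem_insert_of_mem htT)] at hz
                rw [if_pos htT]; exact hz
              · rw [if_neg (by rw [Finset.mem_insert]; tauto)] at hz
                rw [if_neg htT]; exact hz
            · exact Or.inr hz
        · rintro (⟨t, ht, hz⟩ | hz)
          · refine ⟨t, ht, ?_⟩
            rw [hA] at hz
            change z ∈ (if t = s then ∅ else if t ∈ T then rowM N j t else rowC N j t) ∪ rowF N j t at hz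
            rcases hz with hz | hz
            · left
              by_cases hts : t = s
              · rw [if_pos hts] at hz; exact absurd hz (Set.notMem_empty z)
              · rw [if_neg hts] at hz
                by_cases htT : t ∈ T
                · rw [if_pos htT] at hz
                  rw [if_pos (Finset.mem_insert_of_mem htT)]; exact hz
                · rw [if_neg htT] at hz
                  rw [if_neg (by rw [Finset.mem_insert]; tauto)]; exact hz
            · exact Or.inr hz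
          · refine ⟨s, hs, Or.inl ?_⟩
            rw [if_pos (Finset.mem_insert_self _ _)]; exact hz
      have e2 : XX N j T = W ∪ rowC N j s := by
        ext z
        constructor
        · rintro ⟨t, ht, hz⟩
          by_cases hts : t = s
          · subst hts
            rw [if_neg hsT] at hz
            rcases hz with hz | hz
            · exact Or.inr hz
            · exact Or.inl ⟨t, ht, Or.inr hz⟩
          · left
            refine ⟨t, ht, ?_⟩
            rw [hA]
            change z ∈ (if t = s then ∅ else if t ∈ T then rowM N j t else rowC N j t) ∪ rowF N j t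
            rw [if_neg hts]
            exact hz
        · rintro (⟨t, ht, hz⟩ | hz)
          · refine ⟨t, ht, ?_⟩
            rw [hA] at hz
            change z ∈ (if t = s then ∅ else if t ∈ T then rowM N j t else rowC N j t) ∪ rowF N j t at hz
            rcases hz with hz | hz
            · left
              by_cases hts : t = s
              · rw [if_pos hts] at hz; exact absurd hz (Set.notMem_empty z)
              · rw [if_neg hts] at hz; exact hz
            · exact Or.inr hz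
          · refine ⟨s, hs, Or.inl ?_⟩
            rw [if_neg hsT]; exact hz
      rw [e1]
      rw [e2] at ih
      apply glue_rct cW (u0 := -(j : ℝ) * (8 * N + 8)) (u1 := ((j : ℝ) + 1) * (8 * N + 8)) (v0 := 16 * s - 4)
        (v1 := 16 * s) (by nlinarith) (by linarith) (by nlinarith) (by nlinarith) le_rfl le_rfl _ ih
      rintro z ⟨t, ht, hz⟩ hzR
      rw [mem_rct] at hzR
      rcases hz with hz | ⟨⟨a1, a2⟩, a3, a4⟩
      · exfalso
        by_cases hts : t = s
        · rw [if_pos hts] at hz; exact absurd hz (Set.notMem_empty z)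
        · rw [if_neg hts] at hz
          have him : 16 * (t : ℝ) - 4 ≤ z.im ∧ z.im ≤ 16 * t := by
            split_ifs at hz
            · exact hz.2
            · exact hz.2
          rcases lt_or_gt_of_ne hts with h | h
          · have : (t : ℝ) + 1 ≤ s := by exact_mod_cast h
            linarith [him.2, hzR.2.1]
          · have : (s : ℝ) + 1 ≤ t := by exact_mod_cast h
            linarith [him.1, hzR.2.2]
      · rcases lt_trichotomy t s with h | h | h
        · have h5 : (t : ℝ) + 1 ≤ s := by exact_mod_cast h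
          have h6 : z.im = 16 * s - 4 := by linarith [hzR.2.1]
          rw [lam_high (by linarith [hzR.2.1]), add_zero] at a3 a4
          refine ⟨mem_rct.2 ⟨⟨a3, a4⟩, hzR.2⟩, ?_, ?_⟩
          · right; right; left; exact h6
          · right; right; left; exact h6
        · subst h
          have h6 : z.im = 16 * t := le_antisymm hzR.2.2 a1
          rw [lam_low (by linarith [hzR.2.1]), add_zero] at a3 a4
          refine ⟨mem_rct.2 ⟨⟨a3, a4⟩, hzR.2⟩, ?_, ?_⟩
          · right; right; right; exact h6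
          · right; right; right; exact h6
        · exfalso
          have : (s : ℝ) + 1 ≤ t := by exact_mod_cast h
          linarith [hzR.2.2]
    · have e : XX N j (insert s T) = XX N j T := by
        ext z
        have hne : ∀ t : ℤ, (-(j : ℤ) ≤ t ∧ t ≤ j) → (t ∈ insert s T ↔ t ∈ T) := by
          intro t ht
          rw [Finset.mem_insert]
          constructor
          · rintro (h | h)
            · rw [h] at ht; exact absurd ht hs
            · exact h
          · exact Or.inr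
        constructor
        · rintro ⟨t, ht, hz⟩
          refine ⟨t, ht, ?_⟩
          simpa only [hne t ht] using hz
        · rintro ⟨t, ht, hz⟩
          refine ⟨t, ht, ?_⟩
          simpa only [hne t ht] using hz
      rw [e]; exact ih

theorem disk_KK (N j : ℕ) : IsDisk (KK N j) := by
  have h := disk_XX N j (Finset.Icc (-(j : ℤ)) j)
  convert h using 1
  ext z
  constructor
  · rintro ⟨t, ht, hz⟩
    refine ⟨t, ht, ?_⟩
    rw [if_pos (Finset.mem_Icc.2 ht)]; exact hz
  · rintro ⟨t, ht, hz⟩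
    refine ⟨t, ht, ?_⟩
    rw [if_pos (Finset.mem_Icc.2 ht)] at hz; exact hz

/-- Each union lies in the interior of the next. -/
theorem KK_interior {N j : ℕ} (hj : j ≤ N) : KK N j ⊆ interior (KK N (j + 1)) := by
  have hN : (0 : ℝ) ≤ N := Nat.cast_nonneg N
  have hj0 : (0 : ℝ) ≤ j := Nat.cast_nonneg j
  have hjN : (j : ℝ) ≤ N := by exact_mod_cast hj
  have hopen : IsOpen {z : ℂ | (-((j : ℝ) + 1) * (8 * N + 8) < z.re ∧ z.re < ((j : ℝ) + 2) * (8 * N + 8) - 1) ∧
      (-((j : ℝ) + 1) * 16 - 4 < z.im ∧ z.im < ((j : ℝ) + 2) * 16 - 4)} := by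
    have a1 : IsOpen {z : ℂ | -((j : ℝ) + 1) * (8 * N + 8) < z.re} := isOpen_lt (by fun_prop) (by fun_prop)
    have a2 : IsOpen {z : ℂ | z.re < ((j : ℝ) + 2) * (8 * N + 8) - 1} := isOpen_lt (by fun_prop) (by fun_prop)
    have a3 : IsOpen {z : ℂ | -((j : ℝ) + 1) * 16 - 4 < z.im} := isOpen_lt (by fun_prop) (by fun_prop)
    have a4 : IsOpen {z : ℂ | z.im < ((j : ℝ) + 2) * 16 - 4} := isOpen_lt (by fun_prop) (by fun_prop)
    exact (a1.inter a2).inter (a3.inter a4)
  refine Subset.trans ?_ (interior_maximal ?_ hopen)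
  · rintro z ⟨s, ⟨hs1, hs2⟩, hz⟩
    have hs1' : -(j : ℝ) ≤ s := by exact_mod_cast hs1
    have hs2' : (s : ℝ) ≤ j := by exact_mod_cast hs2
    rcases hz with hz | ⟨⟨a1, a2⟩, a3, a4⟩
    · rw [rowM, mem_rct] at hz
      refine ⟨⟨?_, ?_⟩, ?_, ?_⟩
      · nlinarith [hz.1.1]
      · nlinarith [hz.1.2]
      · linarith [hz.2.1]
      · linarith [hz.2.2]
    · have l0 := lam_nonneg (z.im - 16 * s)
      have l1 := lam_le_one (z.im - 16 * s)
      refine ⟨⟨?_, ?_⟩, ?_, ?_⟩
      · nlinarith
      · nlinarith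
      · linarith
      · linarith
  · rintro z ⟨⟨a1, a2⟩, a3, a4⟩
    obtain ⟨s, hs, h3, h4⟩ := exists_cell (L := 16) (t := z.im + 4) (j := j + 1) (by norm_num)
      (by push_cast; linarith) (by push_cast; linarith)
    refine ⟨s, hs, ?_⟩
    rcases le_total z.im (16 * s) with h | h
    · left
      rw [rowM, mem_rct]
      push_cast
      refine ⟨⟨?_, ?_⟩, by linarith, h⟩
      · nlinarith
      · nlinarith
    · right
      have l0 := lam_nonneg (z.im - 16 * s)
      have l1 := lam_le_one (z.im - 16 * s)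
      refine ⟨⟨h, by linarith⟩, ?_, ?_⟩
      · push_cast; linarith
      · push_cast; linarith

/-! ### The union of the pieces -/

theorem find_slot {f : ℕ → ℝ} {x : ℝ} : ∀ n : ℕ, f 0 ≤ x → x ≤ f (n + 1) →
    ∃ l : ℕ, l ≤ n ∧ f l ≤ x ∧ x ≤ f (l + 1) := by
  intro n
  induction n with
  | zero => intro h1 h2; exact ⟨0, le_rfl, h1, h2⟩
  | succ n ih =>
    intro h1 h2
    rcases le_total x (f (n + 1)) with h | h
    · obtain ⟨l, hl, h3⟩ := ih h1 h
      exact ⟨l, by omega, h3⟩
    · exact ⟨n + 1, le_rfl, h, h2⟩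

theorem inF_box {N : ℕ} {x y : ℝ} (h : inF N x y) : (0 ≤ y ∧ y ≤ 12) ∧ -lam y ≤ x ∧ x ≤ 8 * N + 8 - lam y := by
  have hN : (0 : ℝ) ≤ N := Nat.cast_nonneg N
  have e0 := eps_nonneg y
  rcases h with ⟨a1, a2, a3, a4⟩ | ⟨a1, a2, a3, a4⟩ | ⟨a1, a2, a3, a4⟩ | ⟨a1, l, hl, a2⟩
  · exact ⟨⟨by linarith, a2⟩, a3, a4⟩
  · rw [lam_low (by linarith)]
    exact ⟨⟨a1, by linarith⟩, by linarith, by linarith⟩
  · rw [lam_low (by linarith)]
    exact ⟨⟨a1, by linarith⟩, by linarith, by linarith⟩
  · rw [lam_low (by linarith)]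
    have hl0 : (0 : ℝ) ≤ l := Nat.cast_nonneg l
    have hl1 : (l : ℝ) ≤ 2 * N := by exact_mod_cast hl
    have := abs_nonneg (x - (4 + 4 * (l : ℝ)))
    have h2 := abs_le.1 a2
    exact ⟨⟨by linarith, by linarith⟩, by linarith [h2.1], by linarith [h2.2]⟩

/-- The pieces in `2 j + 1` columns and strips. -/
def patch (N j : ℕ) : Set (Set ℂ) :=
  {Q | ∃ (i s : ℤ) (c : ℕ), (-(j : ℤ) ≤ i ∧ i ≤ j) ∧ (-(j : ℤ) ≤ s ∧ s ≤ j) ∧ c ≤ 2 * N + 1 ∧ Q = pc N i s c}

theorem patch_finite (N j : ℕ) : (patch N j).Finite := by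
  have h : ((Set.Icc (-(j : ℤ)) j ×ˢ (Set.Icc (-(j : ℤ)) j ×ˢ Set.Iic (2 * N + 1)) : Set (ℤ × ℤ × ℕ))).Finite :=
    (Set.finite_Icc _ _).prod ((Set.finite_Icc _ _).prod (Set.finite_Iic _))
  apply (h.image (fun q => pc N q.1 q.2.1 q.2.2)).subset
  rintro Q ⟨i, s, c, hi, hs, hc, rfl⟩
  exact ⟨(i, s, c), ⟨hi, hs, hc⟩, rfl⟩

theorem sUnion_patch {N j : ℕ} (hj : j ≤ N) : ⋃₀ patch N j = KK N j := by
  have hN : (0 : ℝ) ≤ N := Nat.cast_nonneg N
  ext z
  constructor
  · rintro ⟨_, ⟨i, s, c, ⟨hi1, hi2⟩, hs, hc, rfl⟩, hz⟩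
    have hi1' : -(j : ℝ) ≤ i := by exact_mod_cast hi1
    have hi2' : (i : ℝ) ≤ j := by exact_mod_cast hi2
    have m1 : -(j : ℝ) * (8 * N + 8) ≤ i * (8 * N + 8) := mul_le_mul_of_nonneg_right hi1' (by linarith)
    have m2 : (i : ℝ) * (8 * N + 8) ≤ j * (8 * N + 8) := mul_le_mul_of_nonneg_right hi2' (by linarith)
    rw [mem_pc] at hz
    refine ⟨s, hs, ?_⟩
    rcases hc.eq_or_lt with h1 | h1
    · subst h1
      rw [inP_F] at hz
      obtain ⟨⟨a1, a2⟩, a3, a4⟩ := inF_box hz
      right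
      exact ⟨⟨by linarith, by linarith⟩, by linarith, by linarith⟩
    · have hc2 : c ≤ 2 * N := by omega
      rcases inP_cases hc2 hz with ⟨a1, a2, a3, a4⟩ | ⟨a1, a2, a3, a4, -⟩
      · left
        have a5 : (c : ℝ) = N + i := by exact_mod_cast a1
        rw [a5] at a4
        have a6 := abs_le.1 a4
        rw [rowM, mem_rct]
        refine ⟨⟨?_, ?_⟩, by linarith, by linarith⟩
        · linarith [a6.1]
        · linarith [a6.2]
      · right
        have w1 := wall_ge N i c (z.im - 16 * s)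
        have w2 := wall_le N i (c + 1) (z.im - 16 * s)
        push_cast at w2
        have e1 := eps_le_one (z.im - 16 * s)
        have hc0 : (0 : ℝ) ≤ c := Nat.cast_nonneg c
        have hc3 : (c : ℝ) ≤ 2 * N := by exact_mod_cast hc2
        refine ⟨⟨by linarith, by linarith⟩, ?_, ?_⟩
        · rw [lam_low (by linarith)]; linarith
        · rw [lam_low (by linarith)]; linarith
  · rintro ⟨s, hs, hz⟩
    rcases hz with hz | ⟨⟨a1, a2⟩, a3, a4⟩
    · rw [rowM, mem_rct] at hz
      obtain ⟨i, hi, h3, h4⟩ := exists_cell (L := 8 * N + 12) (t := z.re + 2) (j := j) (by linarith)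
        (by linarith [hz.1.1]) (by linarith [hz.1.2])
      refine ⟨pc N i s (N + i).toNat, ⟨i, s, _, hi, hs, by omega, rfl⟩, ?_⟩
      rw [mem_pc]
      have hcast : (((N + i).toNat : ℕ) : ℤ) = N + i := Int.toNat_of_nonneg (by omega)
      have hcast' : (((N + i).toNat : ℕ) : ℝ) = N + i := by exact_mod_cast hcast
      apply inP_body (by omega) hcast (by linarith [hz.2.1]) (by linarith [hz.2.2])
      rw [hcast', abs_le]
      constructor <;> linarith
    · obtain ⟨i, ⟨hi1, hi2⟩, h3, h4⟩ := exists_cell (L := 8 * N + 8) (t := z.re + lam (z.im - 16 * s)) (j := j)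
        (by linarith) a3 a4
      rcases le_or_gt 4 (z.im - 16 * s) with h5 | h5
      · refine ⟨pc N i s (2 * N + 1), ⟨i, s, _, ⟨hi1, hi2⟩, hs, le_rfl, rfl⟩, ?_⟩
        rw [mem_pc, inP_F]
        exact Or.inl ⟨h5, by linarith, by linarith, by linarith⟩
      · have hlam : lam (z.im - 16 * s) = 0 := lam_low (by linarith)
        rw [hlam] at h3 h4
        have y0 : 0 ≤ z.im - 16 * s := by linarith
        -- the left leg
        have w0 : wall N i 0 (z.im - 16 * s) = 2 - eps (z.im - 16 * s) := by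
          unfold wall
          rw [if_pos (by push_cast; omega)]
          push_cast; ring
        have w1 : wall N i (2 * N + 1) (z.im - 16 * s) = 8 * N + 6 + eps (z.im - 16 * s) := by
          unfold wall
          rw [if_neg (by push_cast; omega)]
          push_cast; ring
        rcases le_total (z.re - i * (8 * N + 8)) (wall N i 0 (z.im - 16 * s)) with h6 | h6
        · refine ⟨pc N i s (2 * N + 1), ⟨i, s, _, ⟨hi1, hi2⟩, hs, le_rfl, rfl⟩, ?_⟩
          rw [mem_pc, inP_F]
          rw [w0] at h6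
          exact Or.inr (Or.inl ⟨y0, h5.le, by linarith, h6⟩)
        rcases le_total (wall N i (2 * N + 1) (z.im - 16 * s)) (z.re - i * (8 * N + 8)) with h7 | h7
        · refine ⟨pc N i s (2 * N + 1), ⟨i, s, _, ⟨hi1, hi2⟩, hs, le_rfl, rfl⟩, ?_⟩
          rw [mem_pc, inP_F]
          rw [w1] at h7
          exact Or.inr (Or.inr (Or.inl ⟨y0, h5.le, h7, by linarith⟩))
        obtain ⟨l, hl, h8, h9⟩ := find_slot (f := fun l => wall N i l (z.im - 16 * s)) (2 * N) h6 h7
        rcases le_total (3 / 4 * (z.im - 16 * s - 3)) |z.re - i * (8 * N + 8) - (4 + 4 * l)| with h10 | h10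
        · refine ⟨pc N i s l, ⟨i, s, _, ⟨hi1, hi2⟩, hs, by omega, rfl⟩, ?_⟩
          rw [mem_pc]
          exact inP_slot hl y0 h5.le h8 h9 h10
        · refine ⟨pc N i s (2 * N + 1), ⟨i, s, _, ⟨hi1, hi2⟩, hs, le_rfl, rfl⟩, ?_⟩
          rw [mem_pc, inP_F]
          exact Or.inr (Or.inr (Or.inr ⟨h5.le, l, hl, h10⟩))

end Pool.Agent.K7.H11.Surr
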